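import Pool.Agent.H.MP_83e36b_nt.hn.KerP

/-! The Hasse norm theorem for quadratic extensions. -/

set_option autoImplicit false

open NumberField IsDedekindDomain

namespace HN83

/-- if `x ^ 2` is an `S`-unit, so is `x` -/
private theorem HFin_root {k : Type} [Field k] [NumberField k] {S : Set (HeightOneSpectrum (𝓞 k))}
    {c : kˣ} (h : c ^ 2 ∈ US k S) : c ∈ US k S := by
  rw [mem_US] at h ⊢
  intro v hv
  have h1 := h v hv
  rw [Units.val_pow_eq_pow_val, map_pow] at h1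
  exact (pow_eq_one_iff_of_nonneg zero_le' two_ne_zero).1 h1

private theorem HFin_norm {k : Type} [Field k] [NumberField k] {K : Type} [Field K]
    [NumberField K] [Algebra k K] {a : kˣ} {α : K} (hK : Quad a K α)
    {S : Set (HeightOneSpectrum (𝓞 k))} {b : kˣ} (hb : b ∈ NU K S) :
    ∃ s t : k, (b : k) = s ^ 2 - a * t ^ 2 := by
  obtain ⟨z, -, hz⟩ := hb
  obtain ⟨σ, hσ, -, -, hN, hst⟩ := hK.exists_conj
  obtain ⟨s, t, hs⟩ := hst (z : K)
  refine ⟨s, t, ?_⟩
  have h1 : (b : k) = Algebra.norm k (z : K) := by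
    rw [← hz]
    rfl
  have h2 := hN (z : K)
  apply (algebraMap k K).injective
  rw [h1, h2, hs, map_add, map_mul, hσ, AlgEquiv.commutes, AlgEquiv.commutes, map_sub, map_pow,
    map_mul, map_pow, ← hK.sq]
  ring

private theorem HFin_inf {k : Type} [Field k] [NumberField k] {a : kˣ}
    {S : Set (HeightOneSpectrum (𝓞 k))} (hb : Big S) {r : ℕ}
    {v : Fin r → HeightOneSpectrum (𝓞 k)} {u : Fin r → kˣ} (h : Chain a S r v u) :
    (⨅ w ∈ Sig hb.fin, sqG w) ⊓ US k (S ∪ Set.range v) = sqU (S ∪ Set.range v) := by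
  apply le_antisymm
  · intro x hx
    obtain ⟨hx1, hx2⟩ := Subgroup.mem_inf.1 hx
    have hx3 : ∀ w ∈ Sig hb.fin, x ∈ sqG w := by
      intro w hw
      have h2 := Subgroup.mem_iInf.1 hx1 w
      exact Subgroup.mem_iInf.1 h2 hw
    obtain ⟨c, hc⟩ := ker_sq hb h x hx2 hx3
    have hc0 : c ≠ 0 := by
      rintro rfl
      rw [mul_zero] at hc
      exact x.ne_zero hc
    have hxc : x = (Units.mk0 c hc0) ^ 2 := by
      ext
      rw [Units.val_pow_eq_pow_val, Units.val_mk0, hc, sq]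
    refine ⟨Units.mk0 c hc0, ?_, hxc.symm⟩
    rw [hxc] at hx2
    exact HFin_root hx2
  · rintro _ ⟨c, hc, rfl⟩
    refine Subgroup.mem_inf.2 ⟨?_, ?_⟩
    · refine Subgroup.mem_iInf.2 fun w => Subgroup.mem_iInf.2 fun _ => ?_
      rw [mem_sqG]
      refine ⟨ev w (c : k), ?_⟩
      show ev w (((c ^ 2 : kˣ)) : k) = _
      rw [Units.val_pow_eq_pow_val, map_pow, sq]
    · exact Subgroup.pow_mem _ hc 2

/-- Proof.  If `a` is a square in `k` everything is of the form `s² - a t²`.  Otherwise `K = k(α)` (`exists_quad`).  `S` finite,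
containing the sets of `exists_big`, `exists_unram`, the supports of `a` and `b` (`supp_finite`): `Big S`, `Unram K S`,
`a, b ∈ US k S`.  `s = S.ncard + card (InfinitePlace k)`, `s ≥ 1`; `exists_chain` with `r = s - 1`; `S' = S ∪ Set.range v`:
finite, `Big S'` (`exists_big` set is contained in it), `Unram K S'`, `a, b ∈ US k S'`, `S'.ncard = S.ncard + (s - 1)`,
`nsp a S' = nsp a S` (`Chain.spl`).
`Σ = Sig hb.fin` (for `S`), `A = ⨅ v ∈ Σ, sqG v`, `H = ⨅ v ∈ Σ, nmG v a`, `U = US k S'`.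
`A.index = ∏ (sqG v).index ≤ 4^s` (`index_inf`, `sq_prod`).  `A ⊓ U = sqU S'` (`ker_sq`; if `b = c²` with `b ∈ U` then
`c ∈ U`), so `A.relIndex U = 2^(2s - 1)` (`sunit_index`).  `(U ⊔ A).index * A.relIndex U = A.index ≤ 2^(2s)`
(`A.relIndex U = A.relIndex (U ⊔ A)`), so `(U ⊔ A).index ≤ 2`, `(U ⊔ H).index ≤ 2` (`A ≤ H`).  `H.index ≥ 2 ^ nsp a S`
(`nm_prod`), so `H.relIndex U = H.index / (U ⊔ H).index ≥ 2^nsp / 2`, i.e. `2 * H.relIndex U ≥ 2^nsp`.
`NU K S' ≤ H ⊓ U` (`NU_le_nmG`, `NU_le_US`), `2 * (NU K S').relIndex U ≤ 2^nsp` (`norm_index` for `S'`).  So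
`(NU K S').relIndex U ≤ (H ⊓ U).relIndex U` with both finite and `NU ≤ H ⊓ U`: `NU K S' = H ⊓ U`.  `b ∈ H ⊓ U`, so
`b` is the norm of an element `s + t α` of `K`. -/
theorem hasse_norm {k : Type} [Field k] [NumberField k] (a b : kˣ)
    (h : ∀ v : Pla k, b ∈ nmG v (a : k)) : ∃ s t : k, (b : k) = s ^ 2 - a * t ^ 2 := by
  by_cases ha : IsSquare (a : k)
  · obtain ⟨r, hr⟩ := ha
    have hr0 : r ≠ 0 := by
      rintro rfl
      rw [mul_zero] at hr
      exact a.ne_zero hr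
    refine ⟨((b : k) + 1) / 2, ((b : k) - 1) / (2 * r), ?_⟩
    rw [hr]
    field_simp
    ring
  obtain ⟨K, hF, hNF, hA, α, hK⟩ := exists_quad a ha
  obtain ⟨S0, hS0, hbig⟩ := exists_big k
  obtain ⟨S1, hS1, hunr⟩ := exists_unram hK
  obtain ⟨S, hS⟩ : ∃ S : Set (HeightOneSpectrum (𝓞 k)), S = ((S0 ∪ S1) ∪
      {v : HeightOneSpectrum (𝓞 k) | v.valuation k (a : k) ≠ 1}) ∪
      {v : HeightOneSpectrum (𝓞 k) | v.valuation k (b : k) ≠ 1} := ⟨_, rfl⟩
  have hSf : S.Finite := by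
    rw [hS]
    exact (((hS0.union hS1).union (supp_finite a)).union (supp_finite b))
  have hS0S : S0 ⊆ S := by
    rw [hS]
    intro v hv
    exact Or.inl (Or.inl (Or.inl hv))
  have hS1S : S1 ⊆ S := by
    rw [hS]
    intro v hv
    exact Or.inl (Or.inl (Or.inr hv))
  have haS : ∀ v, v ∉ S → v.valuation k (a : k) = 1 := by
    intro v hv
    by_contra h1
    apply hv
    rw [hS]
    exact Or.inl (Or.inr h1)
  have hbS : ∀ v, v ∉ S → v.valuation k (b : k) = 1 := by
    intro v hv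
    by_contra h1
    apply hv
    rw [hS]
    exact Or.inr h1
  have hB : Big S := hbig S hSf hS0S
  obtain ⟨s, hs⟩ : ∃ s, s = S.ncard + Fintype.card (InfinitePlace k) := ⟨_, rfl⟩
  have hs1 : 1 ≤ s := by
    have : 0 < Fintype.card (InfinitePlace k) := Fintype.card_pos
    omega
  obtain ⟨r, hr⟩ : ∃ r, s = r + 1 := ⟨s - 1, by omega⟩
  obtain ⟨v, u, hch⟩ := exists_chain ha hB (mem_US.2 haS) r (by omega)
  obtain ⟨S', hS'⟩ : ∃ S' : Set (HeightOneSpectrum (𝓞 k)), S' = S ∪ Set.range v := ⟨_, rfl⟩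
  have hS'f : S'.Finite := by
    rw [hS']
    exact hSf.union (Set.finite_range v)
  have hSS' : S ⊆ S' := by
    rw [hS']
    exact Set.subset_union_left
  have hB' : Big S' := hbig S' hS'f (hS0S.trans hSS')
  have hU' : Unram K S' := hunr S' (hS1S.trans hSS')
  have haS' : a ∈ US k S' := mem_US.2 fun w hw => haS w fun h1 => hw (hSS' h1)
  have hbS' : b ∈ US k S' := mem_US.2 fun w hw => hbS w fun h1 => hw (hSS' h1)
  have hcard : S'.ncard = S.ncard + r := by
    have h1 : Disjoint S (Set.range v) := by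
      rw [Set.disjoint_right]
      rintro _ ⟨i, rfl⟩
      exact hch.out i
    rw [hS', Set.ncard_union_eq h1 hSf (Set.finite_range v)]
    congr 1
    rw [← Set.image_univ, Set.ncard_image_of_injective _ hch.inj, Set.ncard_univ, Nat.card_fin]
  have hnsp : nsp a S' = nsp a S := by
    unfold nsp
    congr 2
    ext w
    rw [Set.mem_setOf_eq, Set.mem_setOf_eq, hS']
    constructor
    · rintro ⟨h1 | ⟨i, rfl⟩, h2⟩
      · exact ⟨h1, h2⟩
      · exact absurd (hch.spl i) h2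
    · rintro ⟨h1, h2⟩
      exact ⟨Or.inl h1, h2⟩
  -- the subgroups
  obtain ⟨A, hAdef⟩ : ∃ A : Subgroup kˣ, A = ⨅ w ∈ Sig hB.fin, sqG w := ⟨_, rfl⟩
  obtain ⟨H, hHdef⟩ : ∃ H : Subgroup kˣ, H = ⨅ w ∈ Sig hB.fin, nmG w (a : k) := ⟨_, rfl⟩
  have hAi : A.index = ∏ w ∈ Sig hB.fin, (sqG w).index := by
    rw [hAdef]
    exact index_inf (Sig hB.fin) sqG fun w _ => le_rfl
  have hA0 : A.index ≠ 0 := by
    rw [hAi]
    exact Finset.prod_ne_zero_iff.2 fun w _ => sqG_index_ne w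
  have hA4 : A.index ≤ 4 ^ s := by
    rw [hAi, hs]
    exact sq_prod hB
  have hAH : A ≤ H := by
    rw [hAdef, hHdef]
    exact iInf₂_mono fun w _ => sqG_le_nmG w (a : k)
  have hAU : A.relIndex (US k S') = 2 ^ (2 * r + 1) := by
    rw [← Subgroup.inf_relIndex_right, hAdef, hS', HFin_inf hB hch, ← hS', sunit_index S' hS'f,
      hcard]
    congr 1
    omega
  have hA1 : A.relIndex (US k S') * (US k S' ⊔ A).index = A.index := by
    rw [← Subgroup.relIndex_sup_right (H := US k S') (K := A)]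
    exact Subgroup.relIndex_mul_index le_sup_right
  have hUA0 : (US k S' ⊔ A).index ≠ 0 := by
    intro h1
    rw [h1, mul_zero] at hA1
    exact hA0 hA1.symm
  have hUA2 : (US k S' ⊔ A).index ≤ 2 := by
    rw [← hA1, hAU, hr] at hA4
    have h4 : (4 : ℕ) ^ (r + 1) = 2 ^ (2 * r + 1) * 2 := by
      rw [show (4 : ℕ) = 2 ^ 2 by norm_num, ← pow_mul, ← pow_succ]
      congr 1
    rw [h4] at hA4
    exact Nat.le_of_mul_le_mul_left hA4 (by positivity)
  have hUH2 : (US k S' ⊔ H).index ≤ 2 := by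
    have h1 : (US k S' ⊔ H).index ∣ (US k S' ⊔ A).index :=
      Subgroup.index_dvd_of_le (sup_le_sup_left hAH _)
    exact (Nat.le_of_dvd (Nat.pos_of_ne_zero hUA0) h1).trans hUA2
  obtain ⟨hH0, hHn⟩ := nm_prod hB.fin a
  rw [← hHdef] at hH0 hHn
  have hH1 : H.relIndex (US k S') * (US k S' ⊔ H).index = H.index := by
    rw [← Subgroup.relIndex_sup_right (H := US k S') (K := H)]
    exact Subgroup.relIndex_mul_index le_sup_right
  obtain ⟨hN0, hN2⟩ := norm_index hK hB' hU' haS'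
  rw [hnsp] at hN2
  have hle : NU K S' ≤ H ⊓ US k S' := by
    refine le_inf ?_ (NU_le_US hK S')
    rw [hHdef]
    exact le_iInf₂ fun w _ => NU_le_nmG hK S' w
  have hcmp : (NU K S').relIndex (US k S') ≤ (H ⊓ US k S').relIndex (US k S') := by
    rw [Subgroup.inf_relIndex_right]
    have h1 : 2 ^ nsp a S ≤ H.relIndex (US k S') * 2 := by
      rw [← hH1] at hHn
      exact hHn.trans (Nat.mul_le_mul_left _ hUH2)
    omega
  have hmul := Subgroup.relIndex_mul_relIndex (NU K S') (H ⊓ US k S') (US k S') hle inf_le_right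
  have hone : (NU K S').relIndex (H ⊓ US k S') = 1 := by
    have h1 : (NU K S').relIndex (H ⊓ US k S') ≠ 0 := by
      intro h2
      rw [h2, zero_mul] at hmul
      exact hN0 hmul.symm
    have h3 : (H ⊓ US k S').relIndex (US k S') ≠ 0 := by
      intro h2
      rw [h2, mul_zero] at hmul
      exact hN0 hmul.symm
    by_contra h4
    have h5 : 2 ≤ (NU K S').relIndex (H ⊓ US k S') := by omega
    have h6 : 2 * (H ⊓ US k S').relIndex (US k S') ≤
        (NU K S').relIndex (H ⊓ US k S') * (H ⊓ US k S').relIndex (US k S') :=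
      Nat.mul_le_mul_right _ h5
    rw [hmul] at h6
    omega
  have hfin : H ⊓ US k S' ≤ NU K S' := Subgroup.relIndex_eq_one.1 hone
  have hbH : b ∈ H ⊓ US k S' := by
    refine Subgroup.mem_inf.2 ⟨?_, hbS'⟩
    rw [hHdef]
    exact Subgroup.mem_iInf.2 fun w => Subgroup.mem_iInf.2 fun _ => h w
  exact HFin_norm hK (hfin hbH)

end HN83
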