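import Pool.Agent.H.MP_83e36b_nt.hn.HDef

/-! Large finite sets of places. -/

set_option autoImplicit false

open NumberField IsDedekindDomain

namespace HN83

/-- Proof: `x = r / s` with `r, s : 𝓞 k` nonzero; `v.valuation k x = 1` if `v` divides neither `(r)` nor `(s)`
(`Ideal.finite_factors`, or `IsDedekindDomain.HeightOneSpectrum.Support.finite`...). -/
theorem supp_finite {k : Type} [Field k] [NumberField k] (x : kˣ) :
    {v : HeightOneSpectrum (𝓞 k) | v.valuation k (x : k) ≠ 1}.Finite := by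
  have h1 := HeightOneSpectrum.Support.finite (R := 𝓞 k) (K := k) (x : k)
  have h2 := HeightOneSpectrum.Support.finite (R := 𝓞 k) (K := k) ((x : k)⁻¹)
  refine (h1.union h2).subset ?_
  intro v hv
  have hx : v.valuation k (x : k) ≠ 0 := (Valuation.ne_zero_iff _).2 x.ne_zero
  rcases lt_or_gt_of_ne (show v.valuation k (x : k) ≠ 1 from hv) with h | h
  · right
    show 1 < v.valuation k ((x : k)⁻¹)
    rw [map_inv₀]
    exact (one_lt_inv₀ (zero_lt_iff.2 hx)).2 h
  · left
    exact h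

/-- Proof: the class group of `𝓞 k` is finite; for every class `c` choose a nonzero integral ideal `J c` in
`c` (`ClassGroup.mk0_surjective`); `S0` = the primes dividing some `J c` or two.  If `S ⊇ S0` is finite and
`v ∉ S`: let `c` be the class of `v.asIdeal⁻¹`; then `v.asIdeal * J c` is principal,
`= (y)`, `y : 𝓞 k` nonzero (`ClassGroup.mk0_eq_one_iff`); `v.valuation k y = exp (-1)` (`v` does not divide
`J c`), `w.valuation k y = 1` for `w ∉ S`, `w ≠ v`. -/
theorem exists_big (k : Type) [Field k] [NumberField k] :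
    ∃ S0 : Set (HeightOneSpectrum (𝓞 k)), S0.Finite ∧ ∀ S, S.Finite → S0 ⊆ S → Big S := by
  classical
  have hsurj := ClassGroup.mk0_surjective (R := 𝓞 k)
  choose J hJ using hsurj
  have hJ0 : ∀ c, ((J c : nonZeroDivisors (Ideal (𝓞 k))) : Ideal (𝓞 k)) ≠ 0 := fun c =>
    nonZeroDivisors.ne_zero (J c).2
  have h2 : (2 : k) ≠ 0 := two_ne_zero
  refine ⟨{v | v.valuation k ((Units.mk0 (2 : k) h2 : kˣ) : k) ≠ 1} ∪
    ⋃ c : ClassGroup (𝓞 k), {v : HeightOneSpectrum (𝓞 k) |
      v.asIdeal ∣ ((J c : nonZeroDivisors (Ideal (𝓞 k))) : Ideal (𝓞 k))},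
    (supp_finite _).union (Set.finite_iUnion fun c => Ideal.finite_factors (hJ0 c)), ?_⟩
  intro S hS hsub
  refine ⟨hS, fun v hv => ?_, fun v hv => ?_⟩
  · by_contra hcon
    exact hv (hsub (Or.inl hcon))
  · -- the ideal prime to `S`
    have hv0 : v.asIdeal ∈ nonZeroDivisors (Ideal (𝓞 k)) :=
      mem_nonZeroDivisors_of_ne_zero v.ne_bot
    obtain ⟨c, hc⟩ : ∃ c : ClassGroup (𝓞 k), c = (ClassGroup.mk0 ⟨v.asIdeal, hv0⟩)⁻¹ := ⟨_, rfl⟩
    have hmul : ClassGroup.mk0 (⟨v.asIdeal, hv0⟩ * J c) = 1 := by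
      rw [map_mul, hJ, hc, mul_inv_cancel]
    have hmem : v.asIdeal * ((J c : nonZeroDivisors (Ideal (𝓞 k))) : Ideal (𝓞 k)) ∈
        nonZeroDivisors (Ideal (𝓞 k)) := mul_mem hv0 (J c).2
    have e : (⟨v.asIdeal * ((J c : nonZeroDivisors (Ideal (𝓞 k))) : Ideal (𝓞 k)), hmem⟩ :
        nonZeroDivisors (Ideal (𝓞 k))) = ⟨v.asIdeal, hv0⟩ * J c := Subtype.ext rfl
    have hprin : (v.asIdeal * ((J c : nonZeroDivisors (Ideal (𝓞 k))) :
        Ideal (𝓞 k))).IsPrincipal := by
      rw [← ClassGroup.mk0_eq_one_iff hmem, e]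
      exact hmul
    obtain ⟨y, hy⟩ := hprin
    have hy' : v.asIdeal * ((J c : nonZeroDivisors (Ideal (𝓞 k))) : Ideal (𝓞 k)) =
        Ideal.span {y} := hy
    have hndvd : ∀ w : HeightOneSpectrum (𝓞 k), w ∉ S →
        ¬ w.asIdeal ∣ ((J c : nonZeroDivisors (Ideal (𝓞 k))) : Ideal (𝓞 k)) := by
      intro w hw hd
      exact hw (hsub (Or.inr (Set.mem_iUnion.2 ⟨c, hd⟩)))
    have hy0 : y ≠ 0 := by
      intro h0
      rw [h0, Ideal.span_singleton_eq_bot.2 rfl] at hy'
      rcases mul_eq_zero.1 hy' with h | h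
      · exact v.ne_bot h
      · exact hJ0 c h
    have hyk : (algebraMap (𝓞 k) k y) ≠ 0 := by
      intro h0
      exact hy0 ((FaithfulSMul.algebraMap_eq_zero_iff (𝓞 k) k).1 h0)
    refine ⟨Units.mk0 (algebraMap (𝓞 k) k y) hyk, ?_, fun w hw hwv => ?_⟩
    · show v.valuation k (algebraMap (𝓞 k) k y) = WithZero.exp (-1)
      rw [HeightOneSpectrum.valuation_of_algebraMap]
      apply le_antisymm
      · have h := (v.intValuation_le_pow_iff_dvd y 1).2 (by
          rw [pow_one, ← hy']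
          exact dvd_mul_right _ _)
        simpa using h
      · have h : ¬ v.intValuation y ≤ WithZero.exp (-((2 : ℕ) : ℤ)) := by
          rw [HeightOneSpectrum.intValuation_le_pow_iff_dvd, ← hy', sq]
          intro hd
          exact hndvd v hv ((mul_dvd_mul_iff_left v.ne_bot).1 hd)
        rw [v.intValuation_if_neg hy0] at h ⊢
        rw [WithZero.exp_le_exp] at h ⊢
        push_cast at h
        omega
    · show w.valuation k (algebraMap (𝓞 k) k y) = 1
      rw [HeightOneSpectrum.valuation_of_algebraMap]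
      by_contra hne
      have hlt : w.intValuation y < 1 := lt_of_le_of_ne (w.intValuation_le_one y) hne
      rw [HeightOneSpectrum.intValuation_lt_one_iff_dvd, ← hy'] at hlt
      rcases (w.prime.dvd_mul).1 hlt with h | h
      · apply hwv
        have h3 : v.asIdeal ≤ w.asIdeal := Ideal.dvd_iff_le.1 h
        have hvm : v.asIdeal.IsMaximal := v.isMaximal
        exact HeightOneSpectrum.ext (hvm.eq_of_le w.isPrime.ne_top h3).symm
      · exact hndvd w hw h

end HN83
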