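import Pool.Agent.H.MP_83e36b_nt.hn.FIn

/-! The auxiliary places. -/

set_option autoImplicit false

open NumberField IsDedekindDomain

namespace HN83

/-- a chain of `r` auxiliary places for `a` and `S` -/
structure Chain {k : Type} [Field k] [NumberField k] (a : kˣ) (S : Set (HeightOneSpectrum (𝓞 k)))
    (r : ℕ) (v : Fin r → HeightOneSpectrum (𝓞 k)) (u : Fin r → kˣ) : Prop where
  inj : Function.Injective v
  out : ∀ i, v i ∉ S
  unit : ∀ i, u i ∈ US k S
  spl : ∀ i, a ∈ sqG (Sum.inr (v i) : Pla k)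
  nsq : ∀ i, u i ∉ sqG (Sum.inr (v i) : Pla k)
  sq : ∀ i j, i < j → u j ∈ sqG (Sum.inr (v i) : Pla k)

private theorem Chn_two {G : Type*} [Group G] (H L : Subgroup G)
    (h : ∀ x ∈ L, ∀ y ∈ L, x ∉ H → y ∉ H → x * y ∈ H) :
    H.relIndex L ≤ 2 ∧ H.relIndex L ≠ 0 := by
  by_cases hL : L ≤ H
  · rw [Subgroup.relIndex_eq_one.2 hL]
    exact ⟨by norm_num, one_ne_zero⟩
  · obtain ⟨c, hcL, hcH⟩ := Set.not_subset.1 hL
    have h2 : H.relIndex L = 2 := by
      rw [Subgroup.relIndex_eq_two_iff]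
      refine ⟨c, hcL, fun b hb => ?_⟩
      by_cases hbH : b ∈ H
      · exact Or.inr ⟨hbH, fun hm => hcH ((H.mul_mem_cancel_left hbH).1 hm)⟩
      · exact Or.inl ⟨h b hb c hcL hbH hcH, hbH⟩
    rw [h2]
    exact ⟨le_rfl, two_ne_zero⟩

private theorem Chn_sq {k : Type} [Field k] [NumberField k] {S : Set (HeightOneSpectrum (𝓞 k))}
    {x : kˣ} (hx : x ∈ US k S) (h : IsSquare (x : k)) : x ∈ sqU S := by
  obtain ⟨c, hc⟩ := h
  have hc0 : c ≠ 0 := by
    rintro rfl
    exact x.ne_zero (by rw [hc, zero_mul])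
  refine Subgroup.mem_map.2 ⟨Units.mk0 c hc0, ?_, ?_⟩
  · rw [mem_US]
    intro v hv
    have h1 := mem_US.1 hx v hv
    rw [hc, map_mul, ← pow_two] at h1
    exact (pow_eq_one_iff.1 h1).resolve_right two_ne_zero
  · apply Units.ext
    rw [powMonoidHom_apply, Units.val_pow_eq_pow_val, Units.val_mk0, hc, pow_two]

private theorem Chn_next {k : Type} [Field k] [NumberField k] {a : kˣ}
    {S : Set (HeightOneSpectrum (𝓞 k))} (hb : Big S) (haS : a ∈ US k S) (r : ℕ)
    (hr : r + 2 ≤ S.ncard + Fintype.card (InfinitePlace k))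
    (v : Fin r → HeightOneSpectrum (𝓞 k)) (hv : ∀ i, v i ∉ S) :
    ∃ u ∈ US k S, (∀ i, u ∈ sqG (Sum.inr (v i) : Pla k)) ∧ ¬ IsSquare (u : k) ∧
      ¬ IsSquare ((a : k) * u) := by
  set U := US k S with hU
  set Q : Subgroup kˣ := ⨅ i, sqG (Sum.inr (v i) : Pla k) with hQ
  have h1 : ∀ i, (sqG (Sum.inr (v i) : Pla k)).relIndex U ≤ 2 ∧
      (sqG (Sum.inr (v i) : Pla k)).relIndex U ≠ 0 := by
    intro i
    refine Chn_two _ _ fun x hx y hy hx' hy' => ?_
    exact odd_mul (hb.two _ (hv i)) (mem_US.1 hx _ (hv i)) (mem_US.1 hy _ (hv i)) hx' hy'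
  have hQ1 : Q.relIndex U ≤ 2 ^ r := by
    refine (Subgroup.relIndex_iInf_le _).trans ?_
    calc ∏ i, (sqG (Sum.inr (v i) : Pla k)).relIndex U ≤ ∏ _i : Fin r, 2 :=
          Finset.prod_le_prod' fun i _ => (h1 i).1
      _ = 2 ^ r := by rw [Finset.prod_const, Finset.card_univ, Fintype.card_fin]
  have hQ0 : Q.relIndex U ≠ 0 := Subgroup.relIndex_iInf_ne_zero fun i => (h1 i).2
  by_contra hcon
  push Not at hcon
  set W : Subgroup kˣ := Q ⊓ U with hW
  have hWU : W ≤ U := inf_le_right
  have hW1 : W.relIndex U = Q.relIndex U := Subgroup.inf_relIndex_right _ _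
  have key : ∀ x ∈ W, x ∉ sqU S → a * x ∈ sqU S := by
    intro x hx hxS
    have hxU : x ∈ U := hWU hx
    have hxQ : ∀ i, x ∈ sqG (Sum.inr (v i) : Pla k) := Subgroup.mem_iInf.1 hx.1
    have h2 : ¬ IsSquare (x : k) := fun h => hxS (Chn_sq hxU h)
    have h3 := hcon x hxU hxQ h2
    exact Chn_sq (U.mul_mem haS hxU) (by rw [Units.val_mul]; exact h3)
  have h3 := Chn_two (sqU S) W (fun x hx y hy hx' hy' => by
    have e1 := key x hx hx'
    have e2 := key y hy hy'
    have e3 : a * a ∈ sqU S := Subgroup.mem_map.2 ⟨a, haS, by rw [powMonoidHom_apply, pow_two]⟩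
    have e4 : x * y = (a * x) * (a * y) * (a * a)⁻¹ := by
      rw [mul_mul_mul_comm, mul_inv_cancel_comm]
    rw [e4]
    exact (sqU S).mul_mem ((sqU S).mul_mem e1 e2) ((sqU S).inv_mem e3))
  have h4 : (sqU S ⊓ W).relIndex W * W.relIndex U = (sqU S ⊓ W).relIndex U :=
    Subgroup.relIndex_mul_relIndex _ _ _ inf_le_right hWU
  have h5 : (sqU S ⊓ W).relIndex W = (sqU S).relIndex W :=
    Subgroup.inf_relIndex_right _ _
  have h6 : (sqU S ⊓ W).relIndex U ≠ 0 := by
    rw [← h4, h5, hW1]
    exact mul_ne_zero h3.2 hQ0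
  have h7 : (sqU S).relIndex U ≤ (sqU S ⊓ W).relIndex U :=
    Subgroup.relIndex_le_of_le_left inf_le_left h6
  rw [← h4, h5, hW1, sunit_index S hb.fin] at h7
  have h8 : 2 ^ (S.ncard + Fintype.card (InfinitePlace k)) ≤ 2 ^ (r + 1) := by
    calc 2 ^ (S.ncard + Fintype.card (InfinitePlace k)) ≤ (sqU S).relIndex W * Q.relIndex U := h7
      _ ≤ 2 * 2 ^ r := Nat.mul_le_mul h3.1 hQ1
      _ = 2 ^ (r + 1) := by rw [pow_succ, mul_comm]
  have h9 := (Nat.pow_le_pow_iff_right (by norm_num : 1 < 2)).1 h8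
  omega

/-- Proof: induction on `r ≤ s - 1`, `s = S.ncard + card (InfinitePlace k)`.  Given the chain for `r < s - 1`:
`W = {u ∈ US k S | ∀ i, u ∈ sqG (inr (v i))}`.  Each condition has index at most two in `US k S` (`odd_mul`: the elements
of `US k S` are units at `v i`, and `v i` is not above two by `hb.two`), so `[US k S : W] ≤ 2^r`.  The subgroup
`B` generated by `sqU S` and `a` has `[US k S : B] ≥ 2^(s-1)` (`sunit_index`; `[B : sqU S] ≤ 2`).  So
`W` is not contained in `B`: `u ∈ W`, `u ∉ B`; then `u` and `a u` are not squares in `k` (if `u = c²`, `c ∈ k`, then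
`c ∈ US k S`, `u ∈ sqU S`; the same for `a u`).  `exists_aux` with `S ∪ {v i}` gives the next place. -/
theorem exists_chain {k : Type} [Field k] [NumberField k] {a : kˣ} (ha : ¬ IsSquare (a : k))
    {S : Set (HeightOneSpectrum (𝓞 k))} (hb : Big S) (haS : a ∈ US k S) (r : ℕ)
    (hr : r + 1 ≤ S.ncard + Fintype.card (InfinitePlace k)) :
    ∃ (v : Fin r → HeightOneSpectrum (𝓞 k)) (u : Fin r → kˣ), Chain a S r v u := by
  induction r with
  | zero =>
    exact ⟨Fin.elim0, Fin.elim0, fun i => i.elim0, fun i => i.elim0, fun i => i.elim0,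
      fun i => i.elim0, fun i => i.elim0, fun i => i.elim0⟩
  | succ r ih =>
    obtain ⟨v, u, h⟩ := ih (by omega)
    obtain ⟨u', hu', hsq, hn1, hn2⟩ := Chn_next hb haS r (by omega) v h.out
    obtain ⟨v', hv', hav, huv⟩ := exists_aux a u' ha hn1 hn2 (S ∪ Set.range v)
      (hb.fin.union (Set.finite_range v))
    have hv'S : v' ∉ S := fun hh => hv' (Or.inl hh)
    have hv'v : ∀ i, v i ≠ v' := fun i hh => hv' (Or.inr ⟨i, hh⟩)
    refine ⟨Fin.snoc (α := fun _ => HeightOneSpectrum (𝓞 k)) v v',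
      Fin.snoc (α := fun _ => kˣ) u u', ?_, ?_, ?_, ?_, ?_, ?_⟩
    · intro i j hij
      induction i using Fin.lastCases with
      | last =>
        induction j using Fin.lastCases with
        | last => rfl
        | cast j =>
          rw [Fin.snoc_last, Fin.snoc_castSucc] at hij
          exact absurd hij.symm (hv'v j)
      | cast i =>
        induction j using Fin.lastCases with
        | last =>
          rw [Fin.snoc_last, Fin.snoc_castSucc] at hij
          exact absurd hij (hv'v i)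
        | cast j =>
          rw [Fin.snoc_castSucc, Fin.snoc_castSucc] at hij
          rw [h.inj hij]
    · intro i
      induction i using Fin.lastCases with
      | last => rw [Fin.snoc_last]; exact hv'S
      | cast i => rw [Fin.snoc_castSucc]; exact h.out i
    · intro i
      induction i using Fin.lastCases with
      | last => rw [Fin.snoc_last]; exact hu'
      | cast i => rw [Fin.snoc_castSucc]; exact h.unit i
    · intro i
      induction i using Fin.lastCases with
      | last => rw [Fin.snoc_last]; exact hav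
      | cast i => rw [Fin.snoc_castSucc]; exact h.spl i
    · intro i
      induction i using Fin.lastCases with
      | last => rw [Fin.snoc_last, Fin.snoc_last]; exact huv
      | cast i => rw [Fin.snoc_castSucc, Fin.snoc_castSucc]; exact h.nsq i
    · intro i j hij
      induction j using Fin.lastCases with
      | last =>
        induction i using Fin.lastCases with
        | last => exact absurd hij (lt_irrefl _)
        | cast i => rw [Fin.snoc_castSucc, Fin.snoc_last]; exact hsq i
      | cast j =>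
        induction i using Fin.lastCases with
        | last => exact absurd hij (not_lt.2 (Fin.le_last _))
        | cast i =>
          rw [Fin.snoc_castSucc, Fin.snoc_castSucc]
          exact h.sq i j (Fin.castSucc_lt_castSucc_iff.1 hij)

/-- Proof: for `x : kˣ` with `v i x = 1` for all `i`: choose `ε 0, ε 1, ... ∈ {0, 1}` one after the other such that
`x * ∏_{j ≤ i} (u j)^(ε j) ∈ sqG (v i)` (`odd_mul`, `u i ∉ sqG (v i)`); the later `u j`, `j > i`, are in
`sqG (v i)`.  Induction on `r` (last element). -/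
theorem Chain.solve {k : Type} [Field k] [NumberField k] {a : kˣ}
    {S : Set (HeightOneSpectrum (𝓞 k))} (hb : Big S) {r : ℕ} {v : Fin r → HeightOneSpectrum (𝓞 k)}
    {u : Fin r → kˣ} (h : Chain a S r v u) (x : kˣ) (hx : ∀ i, (v i).valuation k (x : k) = 1) :
    ∃ c ∈ US k S, ∀ i, c * x ∈ sqG (Sum.inr (v i) : Pla k) := by
  have key : ∀ m : ℕ, m ≤ r → ∃ c ∈ US k S, ∀ i : Fin r, (i : ℕ) < m →
      c * x ∈ sqG (Sum.inr (v i) : Pla k) := by
    intro m
    induction m with
    | zero => exact fun _ => ⟨1, (US k S).one_mem, fun i hi => absurd hi (Nat.not_lt_zero _)⟩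
    | succ m ih =>
      intro hm
      obtain ⟨c, hc, hc2⟩ := ih (by omega)
      set i₀ : Fin r := ⟨m, hm⟩ with hi₀
      by_cases h0 : c * x ∈ sqG (Sum.inr (v i₀) : Pla k)
      · refine ⟨c, hc, fun i hi => ?_⟩
        rcases Nat.lt_succ_iff_lt_or_eq.1 hi with h1 | h1
        · exact hc2 i h1
        · have h2 : i = i₀ := Fin.ext h1
          rw [h2]
          exact h0
      · refine ⟨u i₀ * c, (US k S).mul_mem (h.unit i₀) hc, fun i hi => ?_⟩
        rw [mul_assoc]
        rcases Nat.lt_succ_iff_lt_or_eq.1 hi with h1 | h1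
        · exact (sqG _).mul_mem (h.sq i i₀ h1) (hc2 i h1)
        · have h2 : i = i₀ := Fin.ext h1
          rw [h2]
          refine odd_mul (hb.two _ (h.out i₀)) (mem_US.1 (h.unit i₀) _ (h.out i₀)) ?_ (h.nsq i₀) h0
          rw [Units.val_mul, map_mul, mem_US.1 hc _ (h.out i₀), hx i₀, one_mul]
  obtain ⟨c, hc, h1⟩ := key r le_rfl
  exact ⟨c, hc, fun i => h1 i i.2⟩

end HN83
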