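import Pool.Agent.H.MP_83e36b_nt.hn.LocE

/-! Local norm groups, places not above two. -/

set_option autoImplicit false

open NumberField IsDedekindDomain

namespace HN83

section
variable {k : Type} [Field k] [NumberField k] {v : HeightOneSpectrum (𝓞 k)}

private lemma val_coe (x : k) :
    Valued.v (algebraMap k (v.adicCompletion k) x) = v.valuation k x :=
  HeightOneSpectrum.valuedAdicCompletion_eq_valuation' v x

private lemma approx (z : v.adicCompletion k) :
    ∃ y : k, Valued.v (z - algebraMap k (v.adicCompletion k) y) < 1 := by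
  have h1 : IsOpen {w : v.adicCompletion k | Valued.v (z - w) < 1} := by
    have h2 : IsOpen {w : v.adicCompletion k | Valued.v w < 1} := by
      have h3 := Valued.isOpen_ball (R := v.adicCompletion k) 1
      convert h3 using 3
      simp
    exact h2.preimage (continuous_const.sub continuous_id)
  have h4 : z ∈ {w : v.adicCompletion k | Valued.v (z - w) < 1} := by simp
  obtain ⟨y, hy⟩ := (HeightOneSpectrum.denseRange_algebraMap (K := k) v).exists_mem_open h1 ⟨z, h4⟩
  exact ⟨y, hy⟩

/-- a unit which is not a square is not close to a square -/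
private lemma unit_val (h2 : v.valuation k (2 : k) = 1) {u : kˣ} (hu : v.valuation k (u : k) = 1)
    (hn : u ∉ sqG (Sum.inr v : Pla k)) {c : v.adicCompletion k} (hc : Valued.v c = 1) :
    Valued.v (c ^ 2 - algebraMap k (v.adicCompletion k) (u : k)) = 1 := by
  have hle : Valued.v (c ^ 2 - algebraMap k (v.adicCompletion k) (u : k)) ≤ 1 := by
    refine Valuation.map_sub_le _ ?_ ?_
    · rw [map_pow, hc, one_pow]
    · rw [val_coe, hu]
  refine le_antisymm hle ?_
  by_contra hlt
  rw [not_le] at hlt
  apply hn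
  obtain ⟨y, hy⟩ := approx c
  apply odd_sq h2 hu (y := y)
  have hy1 : Valued.v (algebraMap k (v.adicCompletion k) y) ≤ 1 := by
    have e : algebraMap k (v.adicCompletion k) y = c - (c - algebraMap k (v.adicCompletion k) y) := by
      ring
    rw [e]
    exact Valuation.map_sub_le _ hc.le hy.le
  have h3 : Valued.v (c ^ 2 - (algebraMap k (v.adicCompletion k) y) ^ 2) < 1 := by
    have e : c ^ 2 - (algebraMap k (v.adicCompletion k) y) ^ 2 =
        (c - algebraMap k (v.adicCompletion k) y) * (c + algebraMap k (v.adicCompletion k) y) := by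
      ring
    rw [e, map_mul]
    refine mul_lt_one_of_nonneg_of_lt_one_left zero_le hy ?_
    exact (Valuation.map_add _ _ _).trans (max_le hc.le hy1)
  have h4 : Valued.v (algebraMap k (v.adicCompletion k) ((u : k) - y ^ 2)) < 1 := by
    have e : algebraMap k (v.adicCompletion k) ((u : k) - y ^ 2) =
        (c ^ 2 - (algebraMap k (v.adicCompletion k) y) ^ 2) -
          (c ^ 2 - algebraMap k (v.adicCompletion k) (u : k)) := by
      rw [map_sub, map_pow]
      ring
    rw [e]
    exact Valuation.map_sub_lt _ h3 hlt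
  rwa [val_coe] at h4

/-- the valuations of the norms from an unramified extension are even -/
private lemma even_val (h2 : v.valuation k (2 : k) = 1) {u : kˣ} (hu : v.valuation k (u : k) = 1)
    (hn : u ∉ sqG (Sum.inr v : Pla k)) (s t : v.adicCompletion k) :
    ∃ g, Valued.v (s ^ 2 - algebraMap k (v.adicCompletion k) (u : k) * t ^ 2) = g ^ 2 := by
  have hu' : Valued.v (algebraMap k (v.adicCompletion k) (u : k)) = 1 := by rw [val_coe, hu]
  rcases lt_trichotomy (Valued.v s) (Valued.v t) with h | h | h
  · refine ⟨Valued.v t, ?_⟩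
    rw [Valuation.map_sub_eq_of_lt_right]
    · rw [map_mul, hu', one_mul, map_pow]
    · rw [map_mul, hu', one_mul, map_pow, map_pow]
      exact pow_lt_pow_left₀ h zero_le two_ne_zero
  · by_cases ht : t = 0
    · refine ⟨0, ?_⟩
      rw [ht, map_zero, map_eq_zero] at h
      rw [ht, h]
      simp
    · refine ⟨Valued.v t, ?_⟩
      have ht' : Valued.v t ≠ 0 := (map_ne_zero _).2 ht
      have hc : Valued.v (s / t) = 1 := by
        rw [map_div₀, h, div_self ht']
      have h5 := unit_val h2 hu hn hc
      have e : s ^ 2 - algebraMap k (v.adicCompletion k) (u : k) * t ^ 2 =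
          ((s / t) ^ 2 - algebraMap k (v.adicCompletion k) (u : k)) * t ^ 2 := by
        field_simp
      rw [e, map_mul, h5, one_mul, map_pow]
  · refine ⟨Valued.v s, ?_⟩
    rw [Valuation.map_sub_eq_of_lt_left]
    · rw [map_pow]
    · rw [map_mul, hu', one_mul, map_pow, map_pow]
      exact pow_lt_pow_left₀ h zero_le two_ne_zero

/-- there are units which are not local squares -/
private lemma exists_nonsq (h2 : v.valuation k (2 : k) = 1) :
    ∃ d : kˣ, v.valuation k (d : k) = 1 ∧ d ∉ sqG (Sum.inr v : Pla k) := by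
  classical
  have hmax : v.asIdeal.IsMaximal := v.isMaximal
  let κ := 𝓞 k ⧸ v.asIdeal
  let _ : Field κ := Ideal.Quotient.field v.asIdeal
  have : Finite κ := v.asIdeal.finiteQuotientOfFreeOfNeBot v.ne_bot
  have h2' : (2 : 𝓞 k) ∉ v.asIdeal := by
    rw [← HeightOneSpectrum.valuation_eq_one_iff_notMem (K := k)]
    have e : algebraMap (𝓞 k) k 2 = 2 := map_ofNat _ 2
    rw [e]
    exact h2
  have hchar : ringChar κ ≠ 2 := by
    intro h
    apply h2'
    rw [← Ideal.Quotient.eq_zero_iff_mem, map_ofNat]
    have h3 := ringChar.Nat.cast_ringChar (R := κ)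
    rw [h] at h3
    exact_mod_cast h3
  obtain ⟨a, ha⟩ := FiniteField.exists_nonsquare hchar
  obtain ⟨d₀, rfl⟩ := Ideal.Quotient.mk_surjective a
  have hd : d₀ ∉ v.asIdeal := by
    intro h
    apply ha
    rw [Ideal.Quotient.eq_zero_iff_mem.2 h]
    exact IsSquare.zero
  have hd1 : v.valuation k (algebraMap (𝓞 k) k d₀) = 1 :=
    (HeightOneSpectrum.valuation_eq_one_iff_notMem (K := k) v).2 hd
  have hd0 : algebraMap (𝓞 k) k d₀ ≠ 0 := by
    intro h
    rw [h, map_zero] at hd1
    exact zero_ne_one hd1
  refine ⟨Units.mk0 _ hd0, hd1, ?_⟩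
  intro hs
  obtain ⟨y, hy⟩ := odd_sq_conv (v := v) (x := Units.mk0 _ hd0) hd1 hs
  rw [Units.val_mk0] at hy
  have hy1 : v.valuation k y ≤ 1 := by
    have e : y ^ 2 = algebraMap (𝓞 k) k d₀ - (algebraMap (𝓞 k) k d₀ - y ^ 2) := by ring
    have h3 : v.valuation k (y ^ 2) ≤ 1 := by
      rw [e]
      exact Valuation.map_sub_le _ hd1.le hy.le
    rw [map_pow] at h3
    exact (pow_le_one_iff two_ne_zero).1 h3
  obtain ⟨c, hc⟩ := HeightOneSpectrum.exists_valuation_sub_lt_of_integer v hy1 1
  rw [Units.val_one] at hc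
  have hc1 : v.valuation k (algebraMap (𝓞 k) k c) ≤ 1 := HeightOneSpectrum.valuation_le_one v c
  have h4 : v.valuation k (algebraMap (𝓞 k) k (d₀ - c ^ 2)) < 1 := by
    have e : algebraMap (𝓞 k) k (d₀ - c ^ 2) = (algebraMap (𝓞 k) k d₀ - y ^ 2) -
        (algebraMap (𝓞 k) k c - y) * (algebraMap (𝓞 k) k c + y) := by
      rw [map_sub, map_pow]
      ring
    rw [e]
    refine Valuation.map_sub_lt _ hy ?_
    rw [map_mul]
    refine mul_lt_one_of_nonneg_of_lt_one_left zero_le hc ?_
    exact (Valuation.map_add _ _ _).trans (max_le hc1 hy1)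
  rw [HeightOneSpectrum.valuation_lt_one_iff_mem] at h4
  apply ha
  refine ⟨Ideal.Quotient.mk v.asIdeal c, ?_⟩
  rw [← map_mul, Ideal.Quotient.mk_eq_mk_iff_sub_mem, ← sq]
  exact h4

private lemma exp_sq {n : ℤ} {g : WithZero (Multiplicative ℤ)} (h : WithZero.exp n = g ^ 2) :
    Even n := by
  have hg : g ≠ 0 := by
    rintro rfl
    rw [zero_pow two_ne_zero] at h
    exact WithZero.exp_ne_zero h
  have h1 : g = WithZero.exp (WithZero.log g) := (WithZero.exp_log hg).symm
  rw [h1, sq, ← WithZero.exp_add, WithZero.exp_inj] at h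
  exact ⟨_, h⟩

end

/-- Proof.  Multiply `a` by a square: `v a = 1` or `v a = exp (-1)` (the statement depends only on `a` modulo
`sqG`: if `a' = a r²` in the completion then `s² - a' t² = s² - a (r t)²`).
Case `v a = 1`, `a` not a local square: then `s² - a t²` has even valuation (exponent) for all `s, t` in the
completion, not both zero: if `v s ≠ v t` clear; if `v s = v t`, divide by `t²`: `v(s² - a) < 1` with `s` a unit
would make `a` a square (`odd_sq` with an approximation of `s` in `k`).  So a `π : kˣ` with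
`v π = exp (-1)` is not in `nmG`.
Case `v a = exp (-1)`: let `d : kˣ`, `v d = 1`, not a local square (a nonsquare of the finite residue field of odd
characteristic, lifted to `𝓞 k`; it is not a local square by `odd_sq_conv`).  If `d = s² - a t²`, then
`s² - d = a t²` has odd valuation (`t ≠ 0` since `d` is not a square), but `s² - d * 1²` has even valuation by
the first case (applied to `d`). -/
theorem odd_ne_top {k : Type} [Field k] [NumberField k] {v : HeightOneSpectrum (𝓞 k)}
    (h2 : v.valuation k (2 : k) = 1) {a : kˣ} (ha : a ∉ sqG (Sum.inr v : Pla k)) :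
    nmG (Sum.inr v : Pla k) (a : k) ≠ ⊤ := by
  intro htop
  have hmem : ∀ x : kˣ, ∃ s t : v.adicCompletion k,
      algebraMap k (v.adicCompletion k) (x : k) =
        s ^ 2 - algebraMap k (v.adicCompletion k) (a : k) * t ^ 2 := by
    intro x
    have hx : x ∈ nmG (Sum.inr v : Pla k) (a : k) := by rw [htop]; exact Subgroup.mem_top x
    exact hx
  have hva0 : v.valuation k (a : k) ≠ 0 := (map_ne_zero _).2 a.ne_zero
  obtain ⟨π, hπ⟩ := v.valuation_exists_uniformizer k
  have hπ0 : π ≠ 0 := by
    rintro rfl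
    rw [map_zero] at hπ
    exact WithZero.exp_ne_zero hπ.symm
  set n : ℤ := WithZero.log (v.valuation k (a : k)) with hn
  have hva : v.valuation k (a : k) = WithZero.exp n := (WithZero.exp_log hva0).symm
  rcases Int.even_or_odd n with ⟨j, hj⟩ | hodd
  · -- even valuation
    have hcv : v.valuation k (π ^ j) = WithZero.exp (-j) := by
      rw [map_zpow₀, hπ, ← WithZero.exp_zsmul]
      congr 1
      ring
    let c : kˣ := Units.mk0 (π ^ j) (zpow_ne_zero j hπ0)
    have hc : v.valuation k (c : k) = WithZero.exp (-j) := hcv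
    have hu : v.valuation k ((a * c ^ 2 : kˣ) : k) = 1 := by
      rw [Units.val_mul, Units.val_pow_eq_pow_val, map_mul, map_pow, hva, hc, sq,
        ← WithZero.exp_add, ← WithZero.exp_add, hj]
      rw [show j + j + (-j + -j) = 0 by ring, WithZero.exp_zero]
    have hu' : a * c ^ 2 ∉ sqG (Sum.inr v : Pla k) := by
      intro h
      apply ha
      have h3 : (c⁻¹) ^ 2 ∈ sqG (Sum.inr v : Pla k) := by
        refine ⟨ev (Sum.inr v) ((c⁻¹ : kˣ) : k), ?_⟩
        rw [Units.val_pow_eq_pow_val, map_pow, sq]
      have h4 := mul_mem h h3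
      have e : a * c ^ 2 * (c⁻¹) ^ 2 = a := by
        rw [mul_assoc, ← mul_pow, mul_inv_cancel, one_pow, mul_one]
      rwa [e] at h4
    obtain ⟨s, t, hst⟩ := hmem (Units.mk0 π hπ0)
    have hc0 : algebraMap k (v.adicCompletion k) (c : k) ≠ 0 := (map_ne_zero _).2 c.ne_zero
    obtain ⟨g, hg⟩ := even_val h2 hu hu' s (t / algebraMap k (v.adicCompletion k) (c : k))
    have e : s ^ 2 - algebraMap k (v.adicCompletion k) ((a * c ^ 2 : kˣ) : k) *
        (t / algebraMap k (v.adicCompletion k) (c : k)) ^ 2 =
        s ^ 2 - algebraMap k (v.adicCompletion k) (a : k) * t ^ 2 := by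
      rw [Units.val_mul, Units.val_pow_eq_pow_val, map_mul, map_pow]
      field_simp
    rw [e, ← hst, val_coe, Units.val_mk0, hπ] at hg
    have h5 := exp_sq hg
    revert h5
    decide
  · -- odd valuation
    obtain ⟨d, hd, hd'⟩ := exists_nonsq h2
    obtain ⟨s, t, hst⟩ := hmem d
    have ht : t ≠ 0 := by
      rintro rfl
      apply hd'
      refine ⟨s, ?_⟩
      have h3 : ev (Sum.inr v) (d : k) = s ^ 2 := by
        have h4 : algebraMap k (v.adicCompletion k) (d : k) = s ^ 2 := by
          rw [hst]; ring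
        exact h4
      rw [h3]
      exact sq s
    obtain ⟨g, hg⟩ := even_val h2 hd hd' s 1
    have e : s ^ 2 - algebraMap k (v.adicCompletion k) (d : k) * 1 ^ 2 =
        algebraMap k (v.adicCompletion k) (a : k) * t ^ 2 := by
      rw [hst]; ring
    rw [e, map_mul, val_coe, hva, map_pow] at hg
    have ht' : Valued.v t ≠ 0 := (map_ne_zero _).2 ht
    have h6 : WithZero.exp n = (g / Valued.v t) ^ 2 := by
      rw [div_pow, ← hg, mul_div_assoc, div_self (pow_ne_zero 2 ht'), mul_one]
    exact (Int.not_even_iff_odd.2 hodd) (exp_sq h6)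

end HN83
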