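import Pool.Agent.H.MP_83e36b_nt.hn.SqI

/-! Local norm groups, places above two. -/

set_option autoImplicit false

open NumberField IsDedekindDomain

namespace HN83


section abstr

private theorem NmTwo_exp {m : WithZero (Multiplicative ℤ)} (h : m ≠ 0) :
    ∃ n : ℤ, m = WithZero.exp n :=
  ⟨WithZero.log m, (WithZero.exp_log h).symm⟩

private theorem NmTwo_even {n : ℤ} (h : IsSquare (WithZero.exp n : WithZero (Multiplicative ℤ))) :
    Even n := by
  obtain ⟨y, hy⟩ := h
  have hy0 : y ≠ 0 := by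
    rintro rfl
    rw [mul_zero] at hy
    exact WithZero.exp_ne_zero hy
  obtain ⟨m, rfl⟩ := NmTwo_exp hy0
  rw [← WithZero.exp_add, WithZero.exp_inj] at hy
  exact ⟨m, hy⟩

/-- the data of a complete dyadic field -/
structure NmTwo_D {F : Type*} [Field F] (V : Valuation F (WithZero (Multiplicative ℤ)))
    (π ρ : F) (e : ℤ) : Prop where
  pi : V π = WithZero.exp (-1)
  two : V 2 = WithZero.exp (-e)
  e1 : 1 ≤ e
  sq : ∀ x : F, V (x - 1) < V 4 → IsSquare x
  perf : ∀ u : F, V u ≤ 1 → ∃ w : F, V w ≤ 1 ∧ V (u - w ^ 2) < 1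
  rho : ∀ x : F, V x ≤ 1 → V (x ^ 2 + x + ρ) = 1

variable {F : Type*} [Field F] {V : Valuation F (WithZero (Multiplicative ℤ))} {π ρ : F} {e : ℤ}

private theorem NmTwo_form {r : F} (hρ : ∀ x : F, V x ≤ 1 → V (x ^ 2 + x + r) = 1) (s t : F) :
    V (s ^ 2 + s * t + r * t ^ 2) = max (V s) (V t) ^ 2 := by
  rcases le_or_gt (V s) (V t) with h | h
  · by_cases ht : t = 0
    · subst ht
      rw [map_zero] at h
      have hs : V s = 0 := le_antisymm h zero_le
      have hs' : s = 0 := (map_eq_zero V).1 hs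
      rw [hs']
      simp
    · have h1 : V (s / t) ≤ 1 := by
        rw [map_div₀]
        exact div_le_one_of_le₀ h zero_le
      have h2 := hρ _ h1
      have h3 : s ^ 2 + s * t + r * t ^ 2 = ((s / t) ^ 2 + s / t + r) * t ^ 2 := by field_simp
      rw [h3, map_mul, h2, one_mul, map_pow, max_eq_right h]
  · have hρ1 : V r ≤ 1 := by
      have := hρ 0 (by rw [map_zero]; exact zero_le)
      rw [show (0 : F) ^ 2 + 0 + r = r by ring] at this
      exact this.le
    rw [max_eq_left h.le]
    have hs0 : 0 < V s := lt_of_le_of_lt zero_le h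
    have h1 : V (s * t + r * t ^ 2) < V (s ^ 2) := by
      refine V.map_add_lt ?_ ?_
      · rw [map_mul, map_pow, sq]
        exact mul_lt_mul_of_pos_left h hs0
      · rw [map_mul, map_pow, map_pow]
        calc V r * V t ^ 2 ≤ 1 * V t ^ 2 := mul_le_mul_left hρ1 _
          _ = V t ^ 2 := one_mul _
          _ < V s ^ 2 := pow_lt_pow_left₀ h zero_le two_ne_zero
    rw [show s ^ 2 + s * t + r * t ^ 2 = s ^ 2 + (s * t + r * t ^ 2) by ring,
      V.map_add_eq_of_lt_left h1, map_pow]

private theorem NmTwo_delta {r : F} (hρ : ∀ x : F, V x ≤ 1 → V (x ^ 2 + x + r) = 1) (s t : F) :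
    V (s ^ 2 - (1 - 4 * r) * t ^ 2) = max (V (s - t)) (V (2 * t)) ^ 2 := by
  rw [← NmTwo_form hρ (s - t) (2 * t)]
  congr 1
  ring

private theorem NmTwo_max0 {x y : WithZero (Multiplicative ℤ)} (h : max x y ^ 2 = 0) : y = 0 := by
  have h1 : max x y = 0 := by
    by_contra h2
    exact pow_ne_zero 2 h2 h
  exact le_antisymm ((le_max_right x y).trans h1.le) zero_le

private theorem NmTwo_quot {x y : WithZero (Multiplicative ℤ)} {m : WithZero (Multiplicative ℤ)}
    (hy : y ≠ 0) (h : x * y ^ 2 = m ^ 2) : IsSquare x := by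
  refine ⟨m / y, ?_⟩
  rw [← sq, div_pow, ← h, mul_div_assoc, div_self (pow_ne_zero 2 hy), mul_one]

private theorem NmTwo_odd {r : F} (hρ : ∀ x : F, V x ≤ 1 → V (x ^ 2 + x + r) = 1) (h20 : V 2 ≠ 0)
    {a : F} (ha : ¬ IsSquare (V a)) (s t : F) : 1 - 4 * r ≠ s ^ 2 - a * t ^ 2 := by
  intro h
  have h1 := NmTwo_delta hρ s 1
  have h2 : s ^ 2 - (1 - 4 * r) * 1 ^ 2 = a * t ^ 2 := by rw [h]; ring
  rw [h2] at h1
  by_cases ht : t = 0
  · rw [ht] at h1
    have h3 : V (a * 0 ^ 2) = 0 := by
      rw [zero_pow two_ne_zero, mul_zero, map_zero]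
    rw [h3] at h1
    have h4 := NmTwo_max0 h1.symm
    rw [mul_one] at h4
    exact h20 h4
  · apply ha
    rw [map_mul, map_pow] at h1
    exact NmTwo_quot ((map_ne_zero V).2 ht) h1

private theorem NmTwo_zpow (hπ : V π = WithZero.exp (-1)) (n : ℤ) :
    V (π ^ n) = WithZero.exp (-n) := by
  rw [map_zpow₀, hπ, ← WithZero.exp_zsmul]
  congr 1
  simp

private theorem NmTwo_close (H : NmTwo_D V π ρ e) {a c : F} (ha : ¬ IsSquare a) {n : ℤ}
    (hn : V (a - 1) = WithZero.exp n) (hc : V c = 1) (h : V (a - c ^ 2) < V (a - 1)) :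
    ¬ IsSquare (a / c ^ 2) ∧ ∃ N' : ℕ, (N' : ℤ) < n + 2 * e ∧
      V (a / c ^ 2 - 1) = WithZero.exp (N' - 2 * e) := by
  have hc0 : c ≠ 0 := by
    intro h0
    rw [h0, map_zero] at hc
    exact zero_ne_one hc
  have h1 : ¬ IsSquare (a / c ^ 2) := by
    rintro ⟨y, hy⟩
    apply ha
    refine ⟨y * c, ?_⟩
    have : a = a / c ^ 2 * c ^ 2 := by field_simp
    rw [this, hy]; ring
  refine ⟨h1, ?_⟩
  have h2 : V (a / c ^ 2 - 1) = V (a - c ^ 2) := by
    have : a / c ^ 2 - 1 = (a - c ^ 2) / c ^ 2 := by field_simp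
    rw [this, map_div₀, map_pow, hc, one_pow, div_one]
  have h3 : V (a / c ^ 2 - 1) ≠ 0 := by
    intro h0
    apply h1
    have h4 : a / c ^ 2 = 1 := by
      have := (map_eq_zero V).1 h0
      exact sub_eq_zero.1 this
    rw [h4]
    exact IsSquare.one
  obtain ⟨n', hn'⟩ := NmTwo_exp h3
  have h4 : n' < n := by
    have h5 := h
    rw [← h2, hn', hn, WithZero.exp_lt_exp] at h5
    exact h5
  have h44 : V 4 = WithZero.exp (-(2 * e)) := by
    rw [show (4 : F) = 2 * 2 by norm_num, map_mul, H.two, ← WithZero.exp_add]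
    congr 1
    ring
  have h5 : -(2 * e) ≤ n' := by
    by_contra h6
    apply h1
    apply H.sq
    rw [hn', h44, WithZero.exp_lt_exp]
    omega
  refine ⟨(n' + 2 * e).toNat, ?_, ?_⟩
  · rw [Int.toNat_of_nonneg (by omega)]
    omega
  · rw [Int.toNat_of_nonneg (by omega), hn']
    congr 1
    ring

private theorem NmTwo_mul {a c : F} (hc : c ≠ 0)
    (h : ∃ b : F, b ≠ 0 ∧ ∀ s t : F, b ≠ s ^ 2 - a / c ^ 2 * t ^ 2) :
    ∃ b : F, b ≠ 0 ∧ ∀ s t : F, b ≠ s ^ 2 - a * t ^ 2 := by
  obtain ⟨b, hb, h⟩ := h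
  refine ⟨b, hb, fun s t hst => h s (c * t) ?_⟩
  rw [hst]
  field_simp

private theorem NmTwo_unit (H : NmTwo_D V π ρ e) (N : ℕ) : ∀ a : F, ¬ IsSquare a →
    V (a - 1) = WithZero.exp (N - 2 * e) → (N : ℤ) < 2 * e →
    ∃ b : F, b ≠ 0 ∧ ∀ s t : F, b ≠ s ^ 2 - a * t ^ 2 := by
  induction N using Nat.strong_induction_on with
  | _ N ih =>
  intro a ha hN hNe
  have h20 : V 2 ≠ 0 := by rw [H.two]; exact WithZero.exp_ne_zero
  have h2F : (2 : F) ≠ 0 := (map_ne_zero V).1 h20
  have h44 : V 4 = WithZero.exp (-(2 * e)) := by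
    rw [show (4 : F) = 2 * 2 by norm_num, map_mul, H.two, ← WithZero.exp_add]
    congr 1
    ring
  have h4F : (4 : F) ≠ 0 := by
    rw [show (4 : F) = 2 * 2 by norm_num]
    exact mul_ne_zero h2F h2F
  have hπ0 : π ≠ 0 := by
    intro h0
    have := H.pi
    rw [h0, map_zero] at this
    exact WithZero.exp_ne_zero this.symm
  have hlt1 : V (a - 1) < 1 := by
    rw [hN, ← WithZero.exp_zero, WithZero.exp_lt_exp]
    omega
  have hVa : V a = 1 := by
    have : a = 1 + (a - 1) := by ring
    rw [this, V.map_add_eq_of_lt_left (by rw [map_one]; exact hlt1), map_one]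
  have hρ1 : V ρ = 1 := by
    have := H.rho 0 (by rw [map_zero]; exact zero_le)
    rwa [show (0 : F) ^ 2 + 0 + ρ = ρ by ring] at this
  have step : ∀ c : F, V c = 1 → V (a - c ^ 2) < V (a - 1) →
      ∃ b : F, b ≠ 0 ∧ ∀ s t : F, b ≠ s ^ 2 - a * t ^ 2 := by
    intro c hc hlt
    obtain ⟨h1, N', hN', h2⟩ := NmTwo_close H ha hN hc hlt
    have hc0 : c ≠ 0 := by
      intro h0
      rw [h0, map_zero] at hc
      exact zero_ne_one hc
    exact NmTwo_mul hc0 (ih N' (by omega) _ h1 h2 (by omega))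
  rcases Nat.even_or_odd N with hev | hodd
  · rcases Nat.eq_zero_or_pos N with h0 | hpos
    · -- `N = 0`
      have h1 : V (a - 1) = V 4 := by
        rw [hN, h44, h0]
        congr 1
        push_cast
        ring
      obtain ⟨z, hz⟩ : ∃ z : F, z = (a - 1) / 4 := ⟨_, rfl⟩
      have haz : a = 1 + 4 * z := by rw [hz]; field_simp; ring
      have hVz : V z = 1 := by
        rw [hz, map_div₀, h1, div_self]
        rw [h44]; exact WithZero.exp_ne_zero
      by_cases hr : ∃ r : F, V r ≤ 1 ∧ V (r ^ 2 + r - z) < 1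
      · obtain ⟨r, hr1, hr2⟩ := hr
        apply step (1 + 2 * r)
        · rw [V.map_add_eq_of_lt_left, map_one]
          rw [map_one, map_mul, H.two]
          calc WithZero.exp (-e) * V r ≤ WithZero.exp (-e) * 1 := mul_le_mul_right hr1 _
            _ = WithZero.exp (-e) := mul_one _
            _ < 1 := by
              rw [← WithZero.exp_zero, WithZero.exp_lt_exp]
              have := H.e1
              omega
        · have h2 : a - (1 + 2 * r) ^ 2 = 4 * -(r ^ 2 + r - z) := by rw [haz]; ring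
          rw [h2, map_mul, V.map_neg, h1]
          calc V 4 * V (r ^ 2 + r - z) < V 4 * 1 := by
                apply mul_lt_mul_of_pos_left hr2
                rw [h44]
                exact WithZero.exp_pos
            _ = V 4 := mul_one _
      · push Not at hr
        have h2 : ∀ x : F, V x ≤ 1 → V (x ^ 2 + x + -z) = 1 := by
          intro x hx
          apply le_antisymm
          · refine V.map_add_le (V.map_add_le ?_ hx) ?_
            · rw [map_pow]; exact pow_le_one₀ zero_le hx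
            · rw [V.map_neg]; exact hVz.le
          · rw [← sub_eq_add_neg]
            exact hr x hx
        refine ⟨π, hπ0, fun s t hst => ?_⟩
        have h3 := NmTwo_delta h2 s t
        rw [show (1 : F) - 4 * -z = a by rw [haz]; ring, ← hst, H.pi] at h3
        have h4 : IsSquare (WithZero.exp (-1) : WithZero (Multiplicative ℤ)) := ⟨_, h3.trans (sq _)⟩
        have h5 := NmTwo_even h4
        revert h5
        decide
    · -- `N > 0` even
      obtain ⟨j, hj⟩ := hev
      obtain ⟨i, hi⟩ : ∃ i : ℤ, i = e - j := ⟨_, rfl⟩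
      have hi1 : 1 ≤ i := by omega
      have hie : i < e := by omega
      have hNi : V (a - 1) = WithZero.exp (-(2 * i)) := by
        rw [hN]
        congr 1
        omega
      have hpi0 : π ^ i ≠ 0 := zpow_ne_zero _ hπ0
      have hVpi := NmTwo_zpow H.pi i
      obtain ⟨u, hu⟩ : ∃ u : F, u = (a - 1) / (π ^ i) ^ 2 := ⟨_, rfl⟩
      have hau : a - 1 = (π ^ i) ^ 2 * u := by rw [hu]; field_simp
      have hVu : V u = 1 := by
        rw [hu, map_div₀, map_pow, hVpi, hNi, ← WithZero.exp_nsmul, ← WithZero.exp_sub,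
          ← WithZero.exp_zero]
        congr 1
        simp
      obtain ⟨w, hw1, hw2⟩ := H.perf u hVu.le
      apply step (1 + π ^ i * w)
      · rw [V.map_add_eq_of_lt_left, map_one]
        rw [map_one, map_mul, hVpi]
        calc WithZero.exp (-i) * V w ≤ WithZero.exp (-i) * 1 := mul_le_mul_right hw1 _
          _ = WithZero.exp (-i) := mul_one _
          _ < 1 := by
            rw [← WithZero.exp_zero, WithZero.exp_lt_exp]
            omega
      · have h2 : a - (1 + π ^ i * w) ^ 2 = (π ^ i) ^ 2 * (u - w ^ 2) - 2 * (π ^ i * w) := by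
          have : a = 1 + (π ^ i) ^ 2 * u := by rw [← hau]; ring
          rw [this]; ring
        rw [h2, hNi]
        refine (V.map_sub _ _).trans_lt (max_lt ?_ ?_)
        · rw [map_mul, map_pow, hVpi]
          have h3 : (WithZero.exp (-i) : WithZero (Multiplicative ℤ)) ^ 2 =
              WithZero.exp (-(2 * i)) := by
            rw [← WithZero.exp_nsmul]
            congr 1
            simp
          rw [h3]
          calc WithZero.exp (-(2 * i)) * V (u - w ^ 2) < WithZero.exp (-(2 * i)) * 1 :=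
                mul_lt_mul_of_pos_left hw2 WithZero.exp_pos
            _ = WithZero.exp (-(2 * i)) := mul_one _
        · rw [map_mul, map_mul, H.two, hVpi]
          calc WithZero.exp (-e) * (WithZero.exp (-i) * V w)
              ≤ WithZero.exp (-e) * (WithZero.exp (-i) * 1) :=
                mul_le_mul_right (mul_le_mul_right hw1 _) _
            _ = WithZero.exp (-e + -i) := by rw [mul_one, ← WithZero.exp_add]
            _ < WithZero.exp (-(2 * i)) := by
                rw [WithZero.exp_lt_exp]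
                omega
  · -- `N` odd
    have hnsq : ¬ IsSquare (WithZero.exp (N - 2 * e) : WithZero (Multiplicative ℤ)) := by
      intro h
      have h1 := NmTwo_even h
      obtain ⟨m, hm⟩ := h1
      obtain ⟨l, hl⟩ := hodd
      omega
    obtain ⟨x, hx⟩ : ∃ x : F, x = 1 - a := ⟨_, rfl⟩
    have hVx : V x = WithZero.exp (N - 2 * e) := by
      rw [hx, ← hN, ← V.map_neg]
      congr 1
      ring
    have hx0 : x ≠ 0 := by
      intro h0
      rw [h0, map_zero] at hVx
      exact WithZero.exp_ne_zero hVx.symm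
    have hVB : V (1 - 4 * ρ / x) = 1 := by
      rw [sub_eq_add_neg, V.map_add_eq_of_lt_left, map_one]
      rw [V.map_neg, map_one, map_div₀, map_mul, h44, hρ1, hVx, mul_one, ← WithZero.exp_sub,
        ← WithZero.exp_zero, WithZero.exp_lt_exp]
      obtain ⟨l, hl⟩ := hodd
      omega
    refine ⟨1 - 4 * ρ / x, ?_, fun s t hst => ?_⟩
    · intro h0
      rw [h0, map_zero] at hVB
      exact zero_ne_one hVB
    obtain ⟨P, hP⟩ : ∃ P : F, P = x * (1 - 4 * ρ / x) := ⟨_, rfl⟩
    have hVP : V P = WithZero.exp (N - 2 * e) := by rw [hP, map_mul, hVB, mul_one, hVx]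
    have hP1 : P = x - 4 * ρ := by rw [hP]; field_simp
    have hP2 : P = (s + a * t) ^ 2 - a * (s + t) ^ 2 := by
      rw [hP, hst, hx]; ring
    have hkey : (a * (s + t) + P) ^ 2 - (1 - 4 * ρ) * (s + a * t) ^ 2 =
        -(a * P * (s + t - 1) ^ 2) := by
      have h1 : 1 - 4 * ρ = a + P := by rw [hP1, hx]; ring
      have h2 : (s + a * t) ^ 2 = P + a * (s + t) ^ 2 := by rw [hP2]; ring
      rw [h1, h2]; ring
    have h3 := NmTwo_delta H.rho (a * (s + t) + P) (s + a * t)
    rw [hkey, V.map_neg, map_mul, map_mul, hVa, one_mul, map_pow] at h3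
    by_cases hT : s + t - 1 = 0
    · rw [hT, map_zero, zero_pow two_ne_zero, mul_zero] at h3
      have h4 := NmTwo_max0 h3.symm
      rw [map_mul] at h4
      have h5 : s + a * t = 0 := by
        rcases mul_eq_zero.1 h4 with h | h
        · exact absurd h h20
        · exact (map_eq_zero V).1 h
      have h6 : P = -(a * (s + t) ^ 2) := by rw [hP2, h5]; ring
      apply hnsq
      rw [← hVP, h6, V.map_neg, map_mul, hVa, one_mul, map_pow]
      exact ⟨_, sq _⟩
    · apply hnsq
      rw [← hVP]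
      exact NmTwo_quot ((map_ne_zero V).2 hT) h3

/-- the abstract theorem -/
private theorem NmTwo_main (H : NmTwo_D V π ρ e) {a : F} (ha0 : a ≠ 0) (ha : ¬ IsSquare a) :
    ∃ b : F, b ≠ 0 ∧ ∀ s t : F, b ≠ s ^ 2 - a * t ^ 2 := by
  have h20 : V 2 ≠ 0 := by rw [H.two]; exact WithZero.exp_ne_zero
  have h44 : V 4 = WithZero.exp (-(2 * e)) := by
    rw [show (4 : F) = 2 * 2 by norm_num, map_mul, H.two, ← WithZero.exp_add]
    congr 1
    ring
  have hρ1 : V ρ = 1 := by
    have := H.rho 0 (by rw [map_zero]; exact zero_le)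
    rwa [show (0 : F) ^ 2 + 0 + ρ = ρ by ring] at this
  have hπ0 : π ≠ 0 := by
    intro h0
    have := H.pi
    rw [h0, map_zero] at this
    exact WithZero.exp_ne_zero this.symm
  by_cases hsq : IsSquare (V a)
  · obtain ⟨n, hn⟩ := NmTwo_exp ((map_ne_zero V).2 ha0)
    rw [hn] at hsq
    obtain ⟨m, hm⟩ := NmTwo_even hsq
    have hpm0 : π ^ (-m) ≠ 0 := zpow_ne_zero _ hπ0
    apply NmTwo_mul hpm0
    obtain ⟨a₁, ha₁⟩ : ∃ a₁ : F, a₁ = a / (π ^ (-m)) ^ 2 := ⟨_, rfl⟩
    rw [← ha₁]
    have hV₁ : V a₁ = 1 := by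
      rw [ha₁, map_div₀, map_pow, NmTwo_zpow H.pi, hn, ← WithZero.exp_nsmul, ← WithZero.exp_sub,
        ← WithZero.exp_zero]
      congr 1
      simp
      omega
    have hns₁ : ¬ IsSquare a₁ := by
      rintro ⟨y, hy⟩
      apply ha
      refine ⟨y * π ^ (-m), ?_⟩
      have : a = a₁ * (π ^ (-m)) ^ 2 := by rw [ha₁]; field_simp
      rw [this, hy]; ring
    obtain ⟨w, hw1, hw2⟩ := H.perf a₁ hV₁.le
    have hVw : V w = 1 := by
      have h1 : V (w ^ 2) = 1 := by
        have h2 : w ^ 2 = a₁ + -(a₁ - w ^ 2) := by ring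
        rw [h2, V.map_add_eq_of_lt_left (by rw [V.map_neg, hV₁]; exact hw2), hV₁]
      rw [map_pow] at h1
      exact (pow_eq_one_iff_of_nonneg zero_le two_ne_zero).1 h1
    have hw0 : w ≠ 0 := by
      intro h0
      rw [h0, map_zero] at hVw
      exact zero_ne_one hVw
    apply NmTwo_mul hw0
    obtain ⟨a₂, ha₂⟩ : ∃ a₂ : F, a₂ = a₁ / w ^ 2 := ⟨_, rfl⟩
    rw [← ha₂]
    have hns₂ : ¬ IsSquare a₂ := by
      rintro ⟨y, hy⟩
      apply hns₁
      refine ⟨y * w, ?_⟩
      have : a₁ = a₂ * w ^ 2 := by rw [ha₂]; field_simp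
      rw [this, hy]; ring
    have hV₂ : V (a₂ - 1) < 1 := by
      have : a₂ - 1 = (a₁ - w ^ 2) / w ^ 2 := by rw [ha₂]; field_simp
      rw [this, map_div₀, map_pow, hVw, one_pow, div_one]
      exact hw2
    have hne : V (a₂ - 1) ≠ 0 := by
      intro h0
      apply hns₂
      have h4 : a₂ = 1 := sub_eq_zero.1 ((map_eq_zero V).1 h0)
      rw [h4]
      exact IsSquare.one
    obtain ⟨n', hn'⟩ := NmTwo_exp hne
    have h5 : n' < 0 := by
      rw [hn', ← WithZero.exp_zero, WithZero.exp_lt_exp] at hV₂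
      exact hV₂
    have h6 : -(2 * e) ≤ n' := by
      by_contra h6
      apply hns₂
      apply H.sq
      rw [hn', h44, WithZero.exp_lt_exp]
      omega
    refine NmTwo_unit H (n' + 2 * e).toNat a₂ hns₂ ?_ ?_
    · rw [Int.toNat_of_nonneg (by omega), hn']
      congr 1
      ring
    · rw [Int.toNat_of_nonneg (by omega)]
      omega
  · refine ⟨1 - 4 * ρ, ?_, fun s t => NmTwo_odd H.rho h20 hsq s t⟩
    intro h0
    have h1 : V (1 - 4 * ρ) = 1 := by
      rw [sub_eq_add_neg, V.map_add_eq_of_lt_left, map_one]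
      rw [V.map_neg, map_one, map_mul, h44, hρ1, mul_one, ← WithZero.exp_zero,
        WithZero.exp_lt_exp]
      have := H.e1
      omega
    rw [h0, map_zero] at h1
    exact zero_ne_one h1

end abstr


section conc

open IsDedekindDomain.HeightOneSpectrum NumberField.HeightOneSpectrum

private theorem NmTwo_w {K : Type*} [NormedField K] [CompleteSpace K]
    (hu : ∀ x y : K, ‖x + y‖ ≤ max ‖x‖ ‖y‖) {z : K}
    (hz : ‖z‖ < 1) : ∃ w : K, w ^ 2 + w = z := by
  have hneg : ∀ x y : K, ‖x - y‖ ≤ max ‖x‖ ‖y‖ := fun x y => by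
    rw [sub_eq_add_neg]
    exact (hu _ _).trans (by rw [norm_neg])
  obtain ⟨f, hf⟩ : ∃ f : K → K, f = fun w => z - w ^ 2 := ⟨_, rfl⟩
  have hs : IsComplete (Metric.closedBall (0 : K) ‖z‖) := Metric.isClosed_closedBall.isComplete
  have hmaps : Set.MapsTo f (Metric.closedBall (0 : K) ‖z‖) (Metric.closedBall (0 : K) ‖z‖) := by
    intro w hw
    rw [mem_closedBall_zero_iff] at hw ⊢
    rw [hf]
    refine (hneg _ _).trans (max_le le_rfl ?_)
    rw [norm_pow, sq]
    calc ‖w‖ * ‖w‖ ≤ ‖z‖ * 1 := mul_le_mul hw (hw.trans hz.le) (norm_nonneg _) (norm_nonneg _)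
      _ = ‖z‖ := mul_one _
  have hc : ContractingWith ⟨‖z‖, norm_nonneg z⟩ (hmaps.restrict f _ _) := by
    refine ⟨by exact_mod_cast hz, LipschitzWith.of_dist_le_mul fun a b => ?_⟩
    rw [Subtype.dist_eq, Subtype.dist_eq, dist_eq_norm, dist_eq_norm]
    show ‖f a.1 - f b.1‖ ≤ ‖z‖ * ‖a.1 - b.1‖
    rw [hf]
    have e : z - a.1 ^ 2 - (z - b.1 ^ 2) = -((a.1 + b.1) * (a.1 - b.1)) := by ring
    show ‖z - a.1 ^ 2 - (z - b.1 ^ 2)‖ ≤ _
    rw [e, norm_neg, norm_mul]
    refine mul_le_mul_of_nonneg_right ?_ (norm_nonneg _)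
    exact (hu _ _).trans (max_le (mem_closedBall_zero_iff.1 a.2) (mem_closedBall_zero_iff.1 b.2))
  obtain ⟨w, -, hw, -⟩ := hc.exists_fixedPoint' hs hmaps
    (x := 0) (mem_closedBall_zero_iff.2 (by rw [norm_zero]; exact norm_nonneg z)) (edist_ne_top _ _)
  refine ⟨w, ?_⟩
  have h1 : f w = w := hw
  rw [hf] at h1
  have h2 : z - w ^ 2 = w := h1
  linear_combination -h2

variable {k : Type} [Field k] [NumberField k]

private theorem NmTwo_norm (v : HeightOneSpectrum (𝓞 k)) (x : v.adicCompletion k) :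
    ‖x‖ = WithZeroMulInt.toNNReal (absNorm_ne_zero v) (Valued.v x) :=
  FinitePlace.norm_def (v := v) x

private theorem NmTwo_nlt (v : HeightOneSpectrum (𝓞 k)) {x y : v.adicCompletion k} :
    ‖x‖ < ‖y‖ ↔ Valued.v x < Valued.v y := by
  rw [NmTwo_norm, NmTwo_norm]
  rw [← (WithZeroMulInt.toNNReal_strictMono (one_lt_absNorm_nnreal v)).lt_iff_lt]
  exact_mod_cast Iff.rfl

private theorem NmTwo_mono (v : HeightOneSpectrum (𝓞 k)) {x y : v.adicCompletion k}
    (h : Valued.v x ≤ Valued.v y) : ‖x‖ ≤ ‖y‖ := by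
  rw [NmTwo_norm, NmTwo_norm]
  exact_mod_cast (WithZeroMulInt.toNNReal_strictMono (one_lt_absNorm_nnreal v)).monotone h

private theorem NmTwo_val (v : HeightOneSpectrum (𝓞 k)) (y : k) :
    Valued.v (algebraMap k (v.adicCompletion k) y) = v.valuation k y :=
  valuedAdicCompletion_eq_valuation' v y

private theorem NmTwo_four (v : HeightOneSpectrum (𝓞 k)) : (4 : v.adicCompletion k) ≠ 0 := by
  have e : algebraMap k (v.adicCompletion k) 4 = 4 := map_ofNat _ 4
  have h4 : (4 : k) ≠ 0 := by norm_num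
  rw [← e]
  exact (map_ne_zero (algebraMap k (v.adicCompletion k))).2 h4

/-- density of `k` -/
private theorem NmTwo_dens (v : HeightOneSpectrum (𝓞 k)) (x c : v.adicCompletion k) (hc : c ≠ 0) :
    ∃ y : k, Valued.v (x - algebraMap k (v.adicCompletion k) y) < Valued.v c := by
  obtain ⟨y, hy⟩ := (v.denseRange_algebraMap k).exists_dist_lt x (norm_pos_iff.2 hc)
  rw [dist_eq_norm, NmTwo_nlt] at hy
  exact ⟨y, hy⟩

/-- integral elements are congruent to elements of the ring of integers -/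
private theorem NmTwo_int (v : HeightOneSpectrum (𝓞 k)) {x : v.adicCompletion k}
    (hx : Valued.v x ≤ 1) :
    ∃ r : 𝓞 k, Valued.v (x - algebraMap k (v.adicCompletion k) (r : k)) < 1 := by
  obtain ⟨y, hy⟩ := NmTwo_dens v x 1 one_ne_zero
  rw [map_one] at hy
  have h1 : Valued.v (algebraMap k (v.adicCompletion k) y) ≤ 1 := by
    have e : algebraMap k (v.adicCompletion k) y =
        x - (x - algebraMap k (v.adicCompletion k) y) := by ring
    rw [e]
    exact (Valuation.map_sub _ _ _).trans (max_le hx hy.le)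
  rw [NmTwo_val] at h1
  obtain ⟨r, hr⟩ := exists_valuation_sub_lt_of_integer v h1 1
  refine ⟨r, ?_⟩
  have e : x - algebraMap k (v.adicCompletion k) (r : k) =
      (x - algebraMap k (v.adicCompletion k) y) -
        algebraMap k (v.adicCompletion k) ((r : k) - y) := by
    rw [map_sub]
    ring
  rw [e]
  refine (Valuation.map_sub _ _ _).trans_lt (max_lt hy ?_)
  rw [NmTwo_val]
  exact hr

private theorem NmTwo_adic (v : HeightOneSpectrum (𝓞 k)) (h2 : v.valuation k (2 : k) ≠ 1) :
    ∃ (π ρ : v.adicCompletion k) (e : ℤ),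
      NmTwo_D (Valued.v : Valuation (v.adicCompletion k) (WithZero (Multiplicative ℤ))) π ρ e := by
  classical
  let _ : Field (𝓞 k ⧸ v.asIdeal) := Ideal.Quotient.field v.asIdeal
  have hfin : Finite (𝓞 k ⧸ v.asIdeal) := v.asIdeal.finiteQuotientOfFreeOfNeBot v.ne_bot
  have hchar : CharZero (v.adicCompletion k) :=
    charZero_of_injective_ringHom (algebraMap k (v.adicCompletion k)).injective
  obtain ⟨π, hπ⟩ := v.valuation_exists_uniformizer k
  -- two
  have h2le : v.valuation k (2 : k) ≤ 1 := by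
    have h : v.valuation k (algebraMap (𝓞 k) k 2) ≤ 1 := v.valuation_le_one (K := k) (2 : 𝓞 k)
    have e2 : algebraMap (𝓞 k) k 2 = 2 := map_ofNat (algebraMap (𝓞 k) k) 2
    rwa [e2] at h
  have h2lt : v.valuation k (2 : k) < 1 := lt_of_le_of_ne h2le h2
  have h2ne : v.valuation k (2 : k) ≠ 0 := (map_ne_zero _).2 two_ne_zero
  obtain ⟨n, hn⟩ := NmTwo_exp h2ne
  have hn0 : n < 0 := by
    rw [hn, ← WithZero.exp_zero, WithZero.exp_lt_exp] at h2lt
    exact h2lt
  have hV2 : Valued.v (2 : v.adicCompletion k) = WithZero.exp (-(-n)) := by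
    have e2 : algebraMap k (v.adicCompletion k) 2 = 2 := map_ofNat _ 2
    rw [neg_neg, ← hn, ← NmTwo_val v, e2]
  -- the residue field
  have hmem : ∀ r : 𝓞 k, (Ideal.Quotient.mk v.asIdeal r = 0) ↔
      Valued.v (algebraMap k (v.adicCompletion k) (r : k)) < 1 := by
    intro r
    rw [Ideal.Quotient.eq_zero_iff_mem, NmTwo_val]
    exact (v.valuation_lt_one_iff_mem (K := k) r).symm
  have hint : ∀ r : 𝓞 k, Valued.v (algebraMap k (v.adicCompletion k) (r : k)) ≤ 1 := by
    intro r
    rw [NmTwo_val]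
    exact v.valuation_le_one r
  have h2q : (2 : 𝓞 k ⧸ v.asIdeal) = 0 := by
    have h : (Ideal.Quotient.mk v.asIdeal (2 : 𝓞 k)) = 0 := by
      rw [hmem, NmTwo_val]
      have : ((2 : 𝓞 k) : k) = 2 := map_ofNat _ 2
      rw [this]
      exact h2lt
    rwa [map_ofNat] at h
  have hchar2 : CharP (𝓞 k ⧸ v.asIdeal) 2 := by
    refine CharTwo.of_one_ne_zero_of_two_eq_zero one_ne_zero h2q
  have hsurj : ∀ y : 𝓞 k ⧸ v.asIdeal, ∃ x, x ^ 2 = y := by
    have hinj : Function.Injective (fun x : 𝓞 k ⧸ v.asIdeal => x ^ 2) := by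
      intro x y hxy
      have h : x ^ 2 = y ^ 2 := hxy
      have h3 : (x - y) ^ 2 = 0 := by
        have e : (x - y) ^ 2 = x ^ 2 - y ^ 2 + 2 * (y ^ 2 - x * y) := by ring
        rw [e, h, h2q]; ring
      exact sub_eq_zero.1 ((pow_eq_zero_iff two_ne_zero).1 h3)
    exact Finite.surjective_of_injective hinj
  have hnsurj : ∃ c : 𝓞 k ⧸ v.asIdeal, ∀ x, x ^ 2 + x ≠ c := by
    by_contra hcon
    push Not at hcon
    have hs : Function.Surjective (fun x : 𝓞 k ⧸ v.asIdeal => x ^ 2 + x) := hcon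
    have hi := Finite.injective_iff_surjective.2 hs
    have h01 : (0 : 𝓞 k ⧸ v.asIdeal) = 1 := by
      apply hi
      show (0 : 𝓞 k ⧸ v.asIdeal) ^ 2 + 0 = 1 ^ 2 + 1
      have : (1 : 𝓞 k ⧸ v.asIdeal) ^ 2 + 1 = 2 := by ring
      rw [this, h2q]; ring
    exact zero_ne_one h01
  obtain ⟨c, hc⟩ := hnsurj
  obtain ⟨ρ, hρ⟩ := Ideal.Quotient.mk_surjective c
  refine ⟨algebraMap k _ π, algebraMap k _ (ρ : k), -n, ?_⟩
  refine ⟨by rw [NmTwo_val, hπ], hV2, by omega, ?_, ?_, ?_⟩
  · -- squares
    intro x hx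
    have h4 : (4 : v.adicCompletion k) ≠ 0 := NmTwo_four v
    obtain ⟨z, hz⟩ : ∃ z : v.adicCompletion k, z = (x - 1) / 4 := ⟨_, rfl⟩
    have hzn : ‖z‖ < 1 := by
      rw [← norm_one (α := v.adicCompletion k), NmTwo_nlt, map_one, hz, map_div₀]
      rw [div_lt_one₀ (zero_lt_iff.2 ((map_ne_zero _).2 h4))]
      exact hx
    obtain ⟨w, hw⟩ := NmTwo_w (K := v.adicCompletion k) (by
      intro x y
      rcases le_total (Valued.v x) (Valued.v y) with h | h
      · refine le_max_of_le_right (NmTwo_mono v ?_)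
        exact (Valuation.map_add _ x y).trans (max_le h le_rfl)
      · refine le_max_of_le_left (NmTwo_mono v ?_)
        exact (Valuation.map_add _ x y).trans (max_le le_rfl h)) hzn
    refine ⟨1 + 2 * w, ?_⟩
    have hxz : x = 1 + 4 * z := by rw [hz]; field_simp; ring
    rw [hxz, ← hw]; ring
  · -- perfect
    intro u hu
    obtain ⟨r, hr⟩ := NmTwo_int v hu
    obtain ⟨x, hx⟩ := hsurj (Ideal.Quotient.mk v.asIdeal r)
    obtain ⟨w, rfl⟩ := Ideal.Quotient.mk_surjective x
    refine ⟨algebraMap k _ (w : k), hint w, ?_⟩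
    have h1 : Ideal.Quotient.mk v.asIdeal (r - w ^ 2) = 0 := by
      rw [map_sub, map_pow, hx, sub_self]
    rw [hmem] at h1
    have e : u - (algebraMap k (v.adicCompletion k) (w : k)) ^ 2 =
        (u - algebraMap k (v.adicCompletion k) (r : k)) +
          algebraMap k (v.adicCompletion k) (((r - w ^ 2 : 𝓞 k)) : k) := by
      have e1 : (((r - w ^ 2 : 𝓞 k)) : k) = (r : k) - (w : k) ^ 2 := by
        have h := map_sub (algebraMap (𝓞 k) k) r (w ^ 2)
        rw [map_pow] at h
        exact h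
      rw [e1]
      rw [map_sub (algebraMap k (v.adicCompletion k)), map_pow]
      ring
    rw [e]
    exact Valuation.map_add_lt _ hr h1
  · -- rho
    intro x hx
    obtain ⟨r, hr⟩ := NmTwo_int v hx
    have h1 : ¬ (Ideal.Quotient.mk v.asIdeal (r ^ 2 + r + ρ) = 0) := by
      rw [map_add, map_add, map_pow, hρ]
      intro h0
      apply hc (Ideal.Quotient.mk v.asIdeal r)
      have h5 : c = -c := by
        have : 2 * c = 0 := by rw [h2q, zero_mul]
        linear_combination this
      rw [h5]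
      exact eq_neg_of_add_eq_zero_left h0
    rw [hmem, not_lt] at h1
    have h2 : Valued.v (algebraMap k (v.adicCompletion k) (((r ^ 2 + r + ρ : 𝓞 k)) : k)) = 1 :=
      le_antisymm (hint _) h1
    have hr1 := hint r
    have e : x ^ 2 + x + algebraMap k (v.adicCompletion k) (ρ : k) =
        algebraMap k (v.adicCompletion k) (((r ^ 2 + r + ρ : 𝓞 k)) : k) +
          (x - algebraMap k (v.adicCompletion k) (r : k)) *
            (x + algebraMap k (v.adicCompletion k) (r : k) + 1) := by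
      have e1 : (((r ^ 2 + r + ρ : 𝓞 k)) : k) = (r : k) ^ 2 + (r : k) + (ρ : k) := by
        have h := map_add (algebraMap (𝓞 k) k) (r ^ 2 + r) ρ
        have h' := map_add (algebraMap (𝓞 k) k) (r ^ 2) r
        rw [h', map_pow] at h
        exact h
      rw [e1]
      rw [map_add (algebraMap k (v.adicCompletion k)), map_add (algebraMap k (v.adicCompletion k)),
        map_pow]
      ring
    rw [e, Valuation.map_add_eq_of_lt_left, h2]
    rw [h2, map_mul]
    have h3 : Valued.v (x + algebraMap k (v.adicCompletion k) (r : k) + 1) ≤ 1 := by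
      refine Valuation.map_add_le _ (Valuation.map_add_le _ hx hr1) ?_
      rw [map_one]
    calc Valued.v (x - algebraMap k (v.adicCompletion k) (r : k)) *
          Valued.v (x + algebraMap k (v.adicCompletion k) (r : k) + 1)
        ≤ Valued.v (x - algebraMap k (v.adicCompletion k) (r : k)) * 1 := mul_le_mul_right h3 _
      _ = Valued.v (x - algebraMap k (v.adicCompletion k) (r : k)) := mul_one _
      _ < 1 := hr

end conc

/-- Let `F` be the completion at `v`, `O` its ring of integers, `κ` the residue field (finite, characteristic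
two), `π` a prime element, `e = v(2)` (exponents from now on, `v(π) = 1`).
(0) There is `ρ ∈ O` with `X² + X + ρ` irreducible over `κ` (`x ↦ x² + x` is not injective on the finite set `κ`, so not
surjective).  Let `δ = 1 - 4ρ`.  For `s, t ∈ F` not both zero `v(s² + s t + ρ t²) = 2 min(v s, v t)` is even.  Since
`s² - δ t² = (s - t)² + (s - t)(2 t) + ρ (2 t)²`, all nonzero values of `s² - δ t²` have even valuation,
and `s² - δ t² = 0` only for `s = t = 0`.
(1) If `v(a)` is odd: `δ` is not of the form `s² - a t²`: otherwise `s² - δ·1² = a t²` would have odd valuation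
(`t ≠ 0` by (0)).
(2) If `v(a)` is even, `a` a unit after multiplication by a square.  `κ` is perfect, so `a ≡ c²`; after
multiplication by a square `v(a - 1) ≥ 1`.  Among the multiples `a c²` by squares of units choose one with
`d = v(a c² - 1)` maximal; it exists since `d > 2e` would make `a` a square (`local_sq`/`exists_w`); so
`1 ≤ d ≤ 2e`; rename `a = 1 + α`, `v(α) = d`.  `d` is not even `< 2e`: if `d = 2i < 2e`, `α = π^(2i) u`,
`u ≡ w² (mod π)`, then `(1 + π^i w)² = 1 + π^(2i) w² + 2 π^i w`, `v(2 π^i w) = e + i > 2i`, so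
`a (1 + π^i w)⁻²` is closer to one.
(2a) `d = 2e`: `a = 1 + 4 z`, `z` a unit; `X² + X - z` has no root modulo `π` (a root `r ∈ O` of the congruence would
make `a (1 + 2 r)⁻²` closer to one: `(1 + 2r)² = 1 + 4 (r² + r)`); so, as in (0) with `ρ = -z`, the nonzero
values of `s² - a t²` have even valuation: `π` is not one.
(2b) `d < 2e` odd.  Let `β = 4ρ / α` (`v(β) = 2e - d ≥ 1`), `b = 1 - β'` where the signs are as follows: put
`x = -α`, `y = 4ρ / x`, `A = 1 - x = a`, `B = 1 - y`, `C = 1 - x y = 1 - 4ρ = δ`.  Claim: `B` is not of the form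
`s² - A t²`.  Suppose it is.  `x = 1 - A` is `1² - A·1²`, so `P = x B = s² - A t²` too (products of norms).
`A + P = 1 - x + x (1 - y) = 1 - x y = C`.  The form `A X² + P Y²` represents `1` (`P = s² - A t²`: if `s ≠ 0` then
`1 = P (1/s)² + A (t/s)²`; if `s = 0`, `P = -A t²`, the form is isotropic (a hyperbolic plane) and represents everything) and
`C`; explicitly, with `1 = A m² + P n²`:  `C·1 = (A + P)(A m² + P n²) = (A m + P n)² + A P (m - n)²`, so
`C = r² + A P w²`, `r = A m + P n`, `w = m - n`.  If `w ≠ 0`: `-A P = (r² - C·1²) / w²` has even valuation by (0); if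
`w = 0`, `C = r²`, impossible by (0).  But `v(-A P) = v(A) + v(x) + v(B) = v(x) = d` is odd.  Contradiction. -/
theorem two_ne_top {k : Type} [Field k] [NumberField k] {v : HeightOneSpectrum (𝓞 k)}
    (h2 : v.valuation k (2 : k) ≠ 1) {a : kˣ} (ha : a ∉ sqG (Sum.inr v : Pla k)) :
    nmG (Sum.inr v : Pla k) (a : k) ≠ ⊤ := by
  have hchar : CharZero (v.adicCompletion k) :=
    charZero_of_injective_ringHom (algebraMap k (v.adicCompletion k)).injective
  obtain ⟨π, ρ, e, H⟩ := NmTwo_adic v h2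
  have ha0 : algebraMap k (v.adicCompletion k) (a : k) ≠ 0 := (map_ne_zero _).2 a.ne_zero
  have hans : ¬ IsSquare (algebraMap k (v.adicCompletion k) (a : k)) := ha
  obtain ⟨b, hb0, hb⟩ := NmTwo_main H ha0 hans
  have h4 : (4 : v.adicCompletion k) ≠ 0 := NmTwo_four v
  obtain ⟨y, hy⟩ := NmTwo_dens v b (b * 4) (mul_ne_zero hb0 h4)
  obtain ⟨q, hq⟩ : ∃ q : v.adicCompletion k, q = algebraMap k (v.adicCompletion k) y / b :=
    ⟨_, rfl⟩
  have hyq : algebraMap k (v.adicCompletion k) y = b * q := by rw [hq]; field_simp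
  have hq1 : Valued.v (q - 1) < Valued.v (4 : v.adicCompletion k) := by
    have h5 : b - algebraMap k (v.adicCompletion k) y = b * -(q - 1) := by rw [hyq]; ring
    rw [h5, map_mul, map_mul, Valuation.map_neg] at hy
    exact lt_of_mul_lt_mul_left hy zero_le
  obtain ⟨r, hr⟩ := H.sq q hq1
  have hq0 : q ≠ 0 := by
    intro h0
    rw [h0, zero_sub, Valuation.map_neg, map_one] at hq1
    have h6 : Valued.v (4 : v.adicCompletion k) ≤ 1 := by
      rw [show (4 : v.adicCompletion k) = 2 * 2 by norm_num, map_mul, H.two, ← WithZero.exp_add,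
        ← WithZero.exp_zero, WithZero.exp_le_exp]
      have := H.e1
      omega
    exact absurd hq1 (not_lt.2 h6)
  have hr0 : r ≠ 0 := by
    intro h0
    rw [h0, mul_zero] at hr
    exact hq0 hr
  have hy0 : y ≠ 0 := by
    intro h0
    rw [h0, map_zero] at hyq
    exact mul_ne_zero hb0 hq0 hyq.symm
  intro htop
  have hmem : Units.mk0 y hy0 ∈ nmG (Sum.inr v : Pla k) (a : k) := by rw [htop]; trivial
  obtain ⟨s, t, hst⟩ := hmem
  have hst' : ∃ s t : v.adicCompletion k, algebraMap k (v.adicCompletion k) y =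
      s ^ 2 - algebraMap k (v.adicCompletion k) (a : k) * t ^ 2 := ⟨s, t, hst⟩
  obtain ⟨s', t', h7⟩ := hst'
  apply hb (s' / r) (t' / r)
  have h8 : b * (r * r) = s' ^ 2 - algebraMap k (v.adicCompletion k) (a : k) * t' ^ 2 := by
    rw [← h7, hyq, hr]
  field_simp
  linear_combination h8

end HN83
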