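import Pool.Agent.H.MP_83e36b_nt.hn.HDef

/-! Infinite places. -/

set_option autoImplicit false

open NumberField IsDedekindDomain

namespace HN83

variable {k : Type} [Field k] [NumberField k]

/-- Proof: `v.Completion` is isomorphic to `ℂ` (`InfinitePlace.Completion.ringEquivComplexOfIsComplex`). -/
theorem inf_complex {v : InfinitePlace k} (hv : v.IsComplex) : sqG (Sum.inl v : Pla k) = ⊤ := by
  rw [eq_top_iff]
  intro x _
  show IsSquare (algebraMap k v.Completion (x : k))
  obtain ⟨r, hr⟩ := IsAlgClosed.exists_pow_nat_eq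
    (InfinitePlace.Completion.ringEquivComplexOfIsComplex hv (algebraMap k v.Completion (x : k)))
    (n := 2) (by norm_num)
  refine ⟨(InfinitePlace.Completion.ringEquivComplexOfIsComplex hv).symm r, ?_⟩
  apply (InfinitePlace.Completion.ringEquivComplexOfIsComplex hv).injective
  rw [map_mul, RingEquiv.apply_symm_apply, ← hr, pow_two]

private theorem infi_sq {v : InfinitePlace k} (hv : v.IsReal) (x : kˣ) :
    x ∈ sqG (Sum.inl v : Pla k) ↔
      0 ≤ InfinitePlace.Completion.ringEquivRealOfIsReal hv (algebraMap k v.Completion (x : k)) := by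
  have h0 : x ∈ sqG (Sum.inl v : Pla k) ↔ IsSquare (algebraMap k v.Completion (x : k)) := Iff.rfl
  rw [h0]
  constructor
  · rintro ⟨r, hr⟩
    rw [hr, map_mul]
    exact mul_self_nonneg _
  · intro h
    refine ⟨(InfinitePlace.Completion.ringEquivRealOfIsReal hv).symm (Real.sqrt
      (InfinitePlace.Completion.ringEquivRealOfIsReal hv (algebraMap k v.Completion (x : k)))), ?_⟩
    apply (InfinitePlace.Completion.ringEquivRealOfIsReal hv).injective
    rw [map_mul, RingEquiv.apply_symm_apply, Real.mul_self_sqrt h]

omit [NumberField k] in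
private theorem infi_ne {v : InfinitePlace k} (hv : v.IsReal) (x : kˣ) :
    InfinitePlace.Completion.ringEquivRealOfIsReal hv (algebraMap k v.Completion (x : k)) ≠ 0 := by
  have h1 : algebraMap k v.Completion (x : k) ≠ 0 :=
    (map_ne_zero (algebraMap k v.Completion)).2 x.ne_zero
  exact (map_ne_zero (InfinitePlace.Completion.ringEquivRealOfIsReal hv)).2 h1

/-- Proof: `v.Completion` is isomorphic to `ℝ` (`InfinitePlace.Completion.ringEquivRealOfIsReal`); the
squares are the nonnegative elements; `-1` is not a square; the product of two nonsquares is a square. -/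
theorem inf_real {v : InfinitePlace k} (hv : v.IsReal) : (sqG (Sum.inl v : Pla k)).index = 2 := by
  rw [Subgroup.index_eq_two_iff]
  refine ⟨-1, fun b => ?_⟩
  rw [infi_sq hv, infi_sq hv]
  have h := infi_ne hv b
  have h1 : InfinitePlace.Completion.ringEquivRealOfIsReal hv
      (algebraMap k v.Completion ((b * -1 : kˣ) : k)) =
      - InfinitePlace.Completion.ringEquivRealOfIsReal hv (algebraMap k v.Completion (b : k)) := by
    rw [mul_neg, mul_one, Units.val_neg, map_neg, map_neg]
  rw [h1]
  rcases lt_or_gt_of_ne h with h2 | h2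
  · exact Or.inl ⟨by linarith, by linarith⟩
  · exact Or.inr ⟨by linarith, by linarith⟩

omit [NumberField k] in
private theorem infi_neg {v : InfinitePlace k} (hv : v.IsReal) {a : v.Completion}
    (ha : InfinitePlace.Completion.ringEquivRealOfIsReal hv a < 0) (s t : v.Completion) :
    algebraMap k v.Completion (-1 : k) ≠ s ^ 2 - a * t ^ 2 := by
  intro hst
  have h2 := congrArg (InfinitePlace.Completion.ringEquivRealOfIsReal hv) hst
  rw [map_neg, map_neg, map_one, map_one, map_sub, map_mul, map_pow, map_pow] at h2
  have h3 := sq_nonneg (InfinitePlace.Completion.ringEquivRealOfIsReal hv s)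
  have h4 := mul_nonneg (neg_pos.2 ha).le (sq_nonneg (InfinitePlace.Completion.ringEquivRealOfIsReal hv t))
  linarith

/-- Proof: by `inf_complex` the place is real, `a` is negative in `ℝ`, `-1` is not of the form
`s² - a t²`. -/
theorem inf_nm {v : InfinitePlace k} {a : kˣ} (ha : a ∉ sqG (Sum.inl v : Pla k)) :
    nmG (Sum.inl v : Pla k) (a : k) ≠ ⊤ := by
  intro htop
  rcases v.isReal_or_isComplex with hv | hv
  · rw [infi_sq hv, not_le] at ha
    have h1 : (-1 : kˣ) ∈ nmG (Sum.inl v : Pla k) (a : k) := by
      rw [htop]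
      exact Subgroup.mem_top _
    obtain ⟨s, t, hst⟩ := h1
    rw [Units.val_neg, Units.val_one] at hst
    exact infi_neg hv ha s t hst
  · rw [inf_complex hv] at ha
    exact ha (Subgroup.mem_top _)

end HN83
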