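import Pool.Agent.H.MP_83e36b_nt.hn.SqI
import Pool.Agent.H.MP_83e36b_nt.hn.Infi

/-! The product of the numbers of classes of squares. -/

set_option autoImplicit false

open NumberField IsDedekindDomain

namespace HN83

/-- the finite set of the places of `S` and the infinite places -/
noncomputable def Sig {k : Type} [Field k] [NumberField k] {S : Set (HeightOneSpectrum (𝓞 k))}
    (hS : S.Finite) : Finset (Pla k) :=
  (Finset.univ : Finset (InfinitePlace k)).disjSum hS.toFinset

/-- Proof: `Sig` contains the places of `S` and all infinite places. -/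
theorem mem_Sig {k : Type} [Field k] [NumberField k] {S : Set (HeightOneSpectrum (𝓞 k))}
    (hS : S.Finite) (v : Pla k) : v ∈ Sig hS ↔ (∃ w, v = Sum.inl w) ∨ ∃ w ∈ S, v = Sum.inr w := by
  unfold Sig
  rw [Finset.mem_disjSum]
  constructor
  · rintro (⟨w, -, h⟩ | ⟨w, hw, h⟩)
    · exact Or.inl ⟨w, h.symm⟩
    · exact Or.inr ⟨w, hS.mem_toFinset.1 hw, h.symm⟩
  · rintro (⟨w, h⟩ | ⟨w, hw, h⟩)
    · exact Or.inl ⟨w, Finset.mem_univ _, h.symm⟩
    · exact Or.inr ⟨w, hS.mem_toFinset.2 hw, h.symm⟩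

private noncomputable def sqP_e {k : Type} [Field k] [NumberField k]
    (v : HeightOneSpectrum (𝓞 k)) : ℕ :=
  (Associates.mk v.asIdeal).count (Associates.mk (Ideal.span {(2 : 𝓞 k)} : Ideal (𝓞 k))).factors

private theorem sqP_val {k : Type} [Field k] [NumberField k] (v : HeightOneSpectrum (𝓞 k)) :
    v.valuation k (2 : k) = WithZero.exp (-(sqP_e v : ℤ)) := by
  have h : (2 : k) = algebraMap (𝓞 k) k 2 := by rw [map_ofNat]
  rw [h, HeightOneSpectrum.valuation_of_algebraMap]
  exact HeightOneSpectrum.intValuation_if_neg v two_ne_zero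

/-- Proof: `sq_index`, `inf_real`, `inf_complex` (`v.valuation k 2` is `exp (-e)` for some `e : ℕ`). -/
theorem sqG_index_ne {k : Type} [Field k] [NumberField k] (v : Pla k) : (sqG v).index ≠ 0 := by
  rcases v with v | v
  · rcases v.isReal_or_isComplex with hv | hv
    · rw [inf_real hv]
      norm_num
    · rw [inf_complex hv, Subgroup.index_top]
      norm_num
  · exact (sq_index v (sqP_e v) (sqP_val v)).1

private theorem sqP_prod {k : Type} [Field k] [NumberField k]
    {S : Set (HeightOneSpectrum (𝓞 k))} (hb : Big S) :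
    ∏ v ∈ hb.fin.toFinset, Ideal.absNorm v.asIdeal ^ sqP_e v = 2 ^ Module.finrank ℚ k := by
  have hI : (Ideal.span {(2 : 𝓞 k)} : Ideal (𝓞 k)) ≠ 0 := by
    rw [Ne, Ideal.zero_eq_bot, Ideal.span_singleton_eq_bot]
    exact two_ne_zero
  have h0 : ∀ v, v ∉ S → sqP_e v = 0 := by
    intro v hv
    have h1 := hb.two v hv
    rw [sqP_val, ← WithZero.exp_zero, WithZero.exp_inj] at h1
    omega
  have h2 : ∏ v ∈ hb.fin.toFinset, v.asIdeal ^ sqP_e v = Ideal.span {(2 : 𝓞 k)} := by
    rw [← Ideal.finprod_heightOneSpectrum_factorization hI]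
    symm
    apply finprod_eq_prod_of_mulSupport_subset
    intro v hv
    rw [Function.mem_mulSupport] at hv
    rw [Finset.mem_coe, Set.Finite.mem_toFinset]
    by_contra hvS
    apply hv
    show v.asIdeal ^ sqP_e v = 1
    rw [h0 v hvS, pow_zero]
  have h3 : Ideal.absNorm (Ideal.span {(2 : 𝓞 k)}) = 2 ^ Module.finrank ℚ k := by
    rw [Ideal.absNorm_span_singleton]
    have h4 : (2 : 𝓞 k) = algebraMap ℤ (𝓞 k) 2 := by rw [map_ofNat]
    rw [h4, Algebra.norm_algebraMap, Int.natAbs_pow, RingOfIntegers.rank]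
    rfl
  rw [← h3, ← h2, map_prod]
  exact Finset.prod_congr rfl (fun v _ => by rw [map_pow])

private theorem sqP_inf {k : Type} [Field k] [NumberField k] :
    ∏ v : InfinitePlace k, (sqG (Sum.inl v : Pla k)).index =
      2 ^ InfinitePlace.nrRealPlaces k := by
  classical
  have h : ∀ v : InfinitePlace k, (sqG (Sum.inl v : Pla k)).index =
      if v.IsReal then 2 else 1 := by
    intro v
    by_cases hv : v.IsReal
    · rw [inf_real hv, if_pos hv]
    · rw [inf_complex (InfinitePlace.not_isReal_iff_isComplex.1 hv), Subgroup.index_top,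
        if_neg hv]
  rw [Finset.prod_congr rfl (fun v _ => h v), Finset.prod_ite, Finset.prod_const_one, mul_one,
    Finset.prod_const, InfinitePlace.nrRealPlaces, Fintype.card_subtype]

/-- Proof: for `v ∈ S` let `e v : ℕ` be with `v.valuation k 2 = exp (-(e v))`; `e v = 0` for `v ∉ S`
(`hb.two`); `∏_{v ∈ S} absNorm v ^ (e v) = absNorm (span {2}) = 2 ^ finrank ℚ k`
(factorization of the ideal `(2)`, `Ideal.finprod_heightOneSpectrum_factorization...`, `Ideal.absNorm_span_singleton`,
`Algebra.norm_algebraMap`), `finrank ℚ k = r₁ + 2 r₂` (`InfinitePlace.card_add_two_mul_card_eq_rank`).  The product of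
the indices is at most `∏_{v ∈ S} 4 q^(e v) * 2^r₁ = 4^(card S) * 2^(r₁ + 2 r₂) * 2^r₁ =
4^(card S + r₁ + r₂)`. -/
theorem sq_prod {k : Type} [Field k] [NumberField k] {S : Set (HeightOneSpectrum (𝓞 k))}
    (hb : Big S) : ∏ v ∈ Sig hb.fin, (sqG v).index ≤
      4 ^ (S.ncard + Fintype.card (InfinitePlace k)) := by
  unfold Sig
  rw [Finset.prod_disjSum, sqP_inf]
  have h1 : ∏ v ∈ hb.fin.toFinset, (sqG (Sum.inr v : Pla k)).index ≤
      4 ^ S.ncard * 2 ^ Module.finrank ℚ k := by
    calc ∏ v ∈ hb.fin.toFinset, (sqG (Sum.inr v : Pla k)).index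
        ≤ ∏ v ∈ hb.fin.toFinset, 4 * Ideal.absNorm v.asIdeal ^ sqP_e v :=
          Finset.prod_le_prod' (fun v _ => (sq_index v (sqP_e v) (sqP_val v)).2)
      _ = 4 ^ S.ncard * 2 ^ Module.finrank ℚ k := by
          rw [Finset.prod_mul_distrib, Finset.prod_const, sqP_prod hb,
            Set.ncard_eq_toFinset_card S hb.fin]
  refine (Nat.mul_le_mul_left _ h1).trans (le_of_eq ?_)
  rw [InfinitePlace.card_eq_nrRealPlaces_add_nrComplexPlaces,
    ← InfinitePlace.card_add_two_mul_card_eq_rank]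
  have h4 : (4 : ℕ) = 2 ^ 2 := by norm_num
  rw [h4, ← pow_mul, ← pow_mul, ← pow_add, ← pow_add]
  congr 1
  ring

end HN83
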