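import Pool.Agent.H.MP_83e36b_nt.hn.HDef
import Pool.Agent.H.MP_83e36b_nt.nf.Fin

/-! Weak approximation for the classes modulo squares. -/

set_option autoImplicit false

open NumberField IsDedekindDomain

namespace HN83

open AnWA Topology in
/-- numbers near `a` are `a` times a nonzero square, in the completions -/
private theorem WAs_nhds {k : Type} [Field k] [NumberField k]
    (T : Finset (HeightOneSpectrum (𝓞 k))) (i) (a : Compl T i) (ha : a ≠ 0) :
    ∃ ε : ℝ, 0 < ε ∧ ∀ b : Compl T i, ‖b - a‖ < ε → ∃ r : Compl T i, r ≠ 0 ∧ b = a * r ^ 2 := by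
  let iN : NontriviallyNormedField (Compl T i) :=
    { (inferInstance : NormedField (Compl T i)) with
      non_trivial := WA83.exists_one_lt_norm T i }
  have iC : CompleteSpace (Compl T i) := WA83.complete_compl T i
  have h2 : (2 : Compl T i) ≠ 0 := two_ne_zero
  have hU : ({0}ᶜ : Set (Compl T i)) ∈ 𝓝 (1 : Compl T i) := by
    apply isOpen_compl_singleton.mem_nhds
    simp
  have h1 := SpinWA.sqrt_nhds h2 hU
  have hc : Filter.Tendsto (fun b : Compl T i => b * a⁻¹) (𝓝 a) (𝓝 1) := by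
    have h3 : Filter.Tendsto (fun b : Compl T i => b * a⁻¹) (𝓝 a) (𝓝 (a * a⁻¹)) :=
      Filter.Tendsto.mul_const _ Filter.tendsto_id
    rwa [mul_inv_cancel₀ ha] at h3
  have h3 := hc.eventually h1
  rw [Metric.eventually_nhds_iff] at h3
  obtain ⟨ε, hε, h4⟩ := h3
  refine ⟨ε, hε, fun b hb => ?_⟩
  obtain ⟨r, hr, hrb⟩ := h4 (y := b) (by rw [dist_eq_norm]; exact hb)
  refine ⟨r, hr, ?_⟩
  rw [hrb]
  field_simp

open AnWA in
/-- approximation at the infinite places and at the places of `T` -/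
private theorem WAs_app {k : Type} [Field k] [NumberField k]
    (T : Finset (HeightOneSpectrum (𝓞 k))) (x : InfinitePlace k ⊕ {v // v ∈ T} → kˣ) :
    ∃ y : kˣ, ∀ i, ∃ r : Compl T i, r ≠ 0 ∧
      complEmb T i (y : k) = complEmb T i (x i : k) * r ^ 2 := by
  have hx : ∀ i, complEmb T i (x i : k) ≠ 0 := fun i =>
    (map_ne_zero (complEmb T i)).2 (x i).ne_zero
  choose ε hε hεr using fun i => WAs_nhds T i (complEmb T i (x i : k)) (hx i)
  have hex : ∃ δ : ℝ, 0 < δ ∧ ∀ i, δ ≤ ε i := by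
    have h1 : ∀ᶠ δ in nhdsWithin (0 : ℝ) (Set.Ioi 0), ∀ i, δ ≤ ε i := by
      rw [Filter.eventually_all]
      intro i
      exact Filter.Eventually.filter_mono nhdsWithin_le_nhds
        ((eventually_lt_nhds (hε i)).mono fun _ h => h.le)
    obtain ⟨δ, h2, h3⟩ := (h1.and self_mem_nhdsWithin).exists
    exact ⟨δ, h3, h2⟩
  obtain ⟨δ, hδ, hδε⟩ := hex
  obtain ⟨r, hr⟩ := fieldWA_numberField T (fun i => complEmb T i (x i : k)) δ hδ
  have hr0 : r ≠ 0 := by
    rintro rfl
    obtain ⟨s, hs, h1⟩ := hεr (Sum.inl (Classical.arbitrary (InfinitePlace k))) _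
      ((hr _).trans_le (hδε _))
    rw [map_zero] at h1
    exact mul_ne_zero (hx _) (pow_ne_zero 2 hs) h1.symm
  exact ⟨Units.mk0 r hr0, fun i => hεr i _ ((hr i).trans_le (hδε i))⟩

open AnWA in
/-- Proof: `k` is dense in the completion and the nonzero squares are open (for finite `v` and infinite `v`:
an element close to one is a square; `cl_nhds` in sp/ or `isOpen_sq..`; for finite places the norm on
`v.adicCompletion k` is used in wa/All.lean, nf/Fin.lean). -/
theorem exists_rep {k : Type} [Field k] [NumberField k] (v : Pla k) {x : Cv v} (hx : x ≠ 0) :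
    ∃ (y : kˣ) (r : Cv v), r ≠ 0 ∧ ev v (y : k) = x * r ^ 2 := by
  classical
  have key : ∀ (T : Finset (HeightOneSpectrum (𝓞 k))) (i) (a : Compl T i), a ≠ 0 →
      ∃ (y : kˣ) (r : Compl T i), r ≠ 0 ∧ complEmb T i (y : k) = a * r ^ 2 := by
    intro T i a ha
    obtain ⟨ε, hε, h1⟩ := WAs_nhds T i a ha
    obtain ⟨y, hy⟩ := complEmb_dense T i a ε hε
    obtain ⟨r, hr, h2⟩ := h1 _ hy
    have hy0 : y ≠ 0 := by
      rintro rfl
      rw [map_zero] at h2
      exact mul_ne_zero ha (pow_ne_zero 2 hr) h2.symm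
    exact ⟨Units.mk0 y hy0, r, hr, h2⟩
  rcases v with v | v
  · exact key ∅ (Sum.inl v) x hx
  · exact key {v} (Sum.inr ⟨v, Finset.mem_singleton_self v⟩) x hx

open AnWA in
/-- Proof: weak approximation (`fieldWA_numberField`, used for `plSys` in nf/Fin.lean) at the infinite places
and the finite places of `P`: `y` close to `x v` at `v ∈ P`, so `y * (x v)⁻¹` is close to one, a square. -/
theorem wa_sq {k : Type} [Field k] [NumberField k] (P : Finset (Pla k)) (x : Pla k → kˣ) :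
    ∃ y : kˣ, ∀ v ∈ P, y * (x v)⁻¹ ∈ sqG v := by
  classical
  obtain ⟨y, hy⟩ := WAs_app P.toRight
    (fun i => match i with
      | Sum.inl v => x (Sum.inl v)
      | Sum.inr w => x (Sum.inr w.1))
  refine ⟨y, fun v hv => ?_⟩
  have h0 : ev v (x v : k) ≠ 0 := (map_ne_zero (ev v)).2 (x v).ne_zero
  have h1 : ∃ r : Cv v, ev v (y : k) = ev v (x v : k) * r ^ 2 := by
    rcases v with v | v
    · obtain ⟨r, -, hr⟩ := hy (Sum.inl v)
      exact ⟨r, hr⟩
    · obtain ⟨r, -, hr⟩ := hy (Sum.inr ⟨v, Finset.mem_toRight.2 hv⟩)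
      exact ⟨r, hr⟩
  obtain ⟨r, hr⟩ := h1
  rw [mem_sqG, Units.val_mul, Units.val_inv_eq_inv_val, map_mul, map_inv₀, hr]
  refine ⟨r, ?_⟩
  field_simp

/-- Proof: by `wa_sq` the homomorphism `kˣ → ∏ v : P, kˣ ⧸ H v` is surjective, its kernel is
`⨅ v ∈ P, H v`. -/
theorem index_inf {k : Type} [Field k] [NumberField k] (P : Finset (Pla k))
    (H : Pla k → Subgroup kˣ) (hH : ∀ v ∈ P, sqG v ≤ H v) :
    (⨅ v ∈ P, H v).index = ∏ v ∈ P, (H v).index := by
  classical
  let φ : kˣ →* (∀ v : P, kˣ ⧸ H v) := MonoidHom.pi fun v => QuotientGroup.mk' (H v)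
  have hker : φ.ker = ⨅ v ∈ P, H v := by
    ext y
    rw [MonoidHom.mem_ker]
    simp only [Subgroup.mem_iInf]
    constructor
    · intro h v hv
      have h1 := congrFun h ⟨v, hv⟩
      exact (QuotientGroup.eq_one_iff y).1 h1
    · intro h
      funext v
      exact (QuotientGroup.eq_one_iff y).2 (h v.1 v.2)
  have hsurj : Function.Surjective φ := by
    intro q
    obtain ⟨y, hy⟩ := wa_sq P (fun v => if h : v ∈ P then (q ⟨v, h⟩).out else 1)
    refine ⟨y, ?_⟩
    funext v
    have h1 := hH v.1 v.2 (hy v.1 v.2)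
    rw [dif_pos v.2] at h1
    have h2 : (QuotientGroup.mk y : kˣ ⧸ H v.1) = QuotientGroup.mk (q v).out := by
      rw [eq_comm, QuotientGroup.eq, mul_comm]
      exact h1
    show (QuotientGroup.mk y : kˣ ⧸ H v.1) = q v
    rw [h2]
    exact Quotient.out_eq _
  have hidx : φ.ker.index = Nat.card (∀ v : P, kˣ ⧸ H v) := by
    have h1 := Subgroup.index_ker (G := kˣ) (G' := ∀ v : P, kˣ ⧸ H v.1) φ
    rw [h1, MonoidHom.range_eq_top.2 hsurj]
    exact Nat.card_congr Subgroup.topEquiv.toEquiv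
  rw [← hker, hidx, Nat.card_pi]
  exact Finset.prod_coe_sort P (fun v => (H v).index)

end HN83
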