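import Pool.Agent.H.MP_83e36b_nt.hn.NIdx
import Pool.Agent.H.MP_83e36b_nt.hn.WAs
import Pool.Agent.H.MP_83e36b_nt.hn.SqP
import Pool.Agent.H.MP_83e36b_nt.hn.NmOdd
import Pool.Agent.H.MP_83e36b_nt.hn.NmTwo

/-! The first inequality, counting. -/

set_option autoImplicit false

open NumberField IsDedekindDomain

namespace HN83

variable {k : Type} [Field k] [NumberField k]

/-- Proof: `odd_ne_top`, `two_ne_top`, `inf_nm`. -/
theorem nm_ne_top {v : Pla k} {a : kˣ} (ha : a ∉ sqG v) : nmG v (a : k) ≠ ⊤ := by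
  rcases v with v | v
  · exact inf_nm ha
  · by_cases h2 : v.valuation k (2 : k) = 1
    · exact odd_ne_top h2 ha
    · exact two_ne_top h2 ha

private theorem Cnt_index_ne (v : Pla k) (a : kˣ) : (nmG v (a : k)).index ≠ 0 := fun h =>
  sqG_index_ne v (Nat.eq_zero_of_zero_dvd (h ▸ Subgroup.index_dvd_of_le (sqG_le_nmG v (a : k))))

private theorem Cnt_index_ge (v : Pla k) (a : kˣ) [Decidable (a ∉ sqG v)] :
    (if a ∉ sqG v then 2 else 1) ≤ (nmG v (a : k)).index := by
  have h0 := Cnt_index_ne v a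
  by_cases h : a ∈ sqG v
  · rw [if_neg (not_not_intro h)]
    exact Nat.one_le_iff_ne_zero.2 h0
  · rw [if_pos h]
    have h1 : (nmG v (a : k)).index ≠ 1 := fun h1 => nm_ne_top h (Subgroup.index_eq_one.1 h1)
    exact (Nat.two_le_iff _).2 ⟨h0, h1⟩

/-- Proof: `index_inf` with `H v = nmG v a`; the factors are not zero (`sqG_le_nmG`, `sqG_index_ne`,
`Subgroup.index_ne_zero_of_le..`), and at least two for the `nsp a S` places of `Sig` with
`a ∉ sqG v` (`nm_ne_top`: index not one). -/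
theorem nm_prod {S : Set (HeightOneSpectrum (𝓞 k))} (hS : S.Finite) (a : kˣ) :
    (⨅ v ∈ Sig hS, nmG v (a : k)).index ≠ 0 ∧
      2 ^ nsp a S ≤ (⨅ v ∈ Sig hS, nmG v (a : k)).index := by
  classical
  rw [index_inf (Sig hS) (fun v => nmG v (a : k)) fun v _ => sqG_le_nmG v (a : k)]
  refine ⟨Finset.prod_ne_zero_iff.2 fun v _ => Cnt_index_ne v a, ?_⟩
  refine le_trans (le_of_eq ?_) (Finset.prod_le_prod' fun v _ => Cnt_index_ge v a)
  rw [Sig, Finset.prod_disjSum, Finset.prod_ite, Finset.prod_ite]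
  simp only [Finset.prod_const, Finset.prod_const_one, mul_one, one_pow]
  rw [nsp, pow_add, mul_comm]
  congr 2
  · rw [← Set.ncard_coe_finset]
    congr 1
    ext v
    simp
  · rw [← Set.ncard_coe_finset]
    congr 1
    ext v
    simp

/-- Proof: let `H = ⨅ v ∈ Sig, nmG v a`.  `NU K S ≤ H` (`NU_le_nmG`) and `NU K S ≤ US k S` (`NU_le_US`).  By `hsur`
`US k S ⊔ H = ⊤`, so `H.relIndex (US k S) = H.index ≥ 2 ^ nsp` (`nm_prod`); and
`H.relIndex (US k S) ≤ (NU K S).relIndex (US k S)` (`NU ≤ H`, finite), whose double is `≤ 2 ^ nsp`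
(`norm_index`). -/
theorem count_contra {K : Type} [Field K] [NumberField K] [Algebra k K] {a : kˣ} {α : K}
    (hK : Quad a K α) {S : Set (HeightOneSpectrum (𝓞 k))} (hb : Big S) (hu : Unram K S)
    (ha : a ∈ US k S)
    (hsur : ∀ x : kˣ, ∃ u ∈ US k S, ∀ v ∈ Sig hb.fin, u * x ∈ nmG v (a : k)) : False := by
  obtain ⟨h1, h2⟩ := nm_prod hb.fin a
  obtain ⟨h3, h4⟩ := norm_index hK hb hu ha
  obtain ⟨H, hH⟩ : ∃ H : Subgroup kˣ, H = ⨅ v ∈ Sig hb.fin, nmG v (a : k) := ⟨_, rfl⟩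
  rw [← hH] at h1 h2
  have h5 : US k S ⊔ H = ⊤ := by
    rw [eq_top_iff]
    intro x _
    obtain ⟨u, hu1, hu2⟩ := hsur x
    have hm : u * x ∈ H := by
      rw [hH]
      simp only [Subgroup.mem_iInf]
      exact hu2
    have h6 : x = u⁻¹ * (u * x) := by group
    rw [h6]
    exact Subgroup.mul_mem_sup (inv_mem hu1) hm
  have h7 : H.relIndex (US k S) = H.index := by
    rw [← Subgroup.relIndex_sup_right, h5, Subgroup.relIndex_top_right]
  have h8 : NU K S ≤ H := by
    rw [hH]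
    exact le_iInf fun v => le_iInf fun _ => NU_le_nmG hK S v
  have h9 : H.relIndex (US k S) ≤ (NU K S).relIndex (US k S) :=
    Subgroup.relIndex_le_of_le_left h8 h3
  have h10 : 0 < 2 ^ nsp a S := by positivity
  omega

end HN83
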