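import Pool.Agent.H.MP_83e36b_nt.hn.HDef

/-! Local squares and norms at the places not above two. -/

set_option autoImplicit false

open NumberField IsDedekindDomain

namespace HN83

private theorem LocE_nat_le {K : Type*} [NormedField K] (hu : ∀ x y : K, ‖x + y‖ ≤ max ‖x‖ ‖y‖)
    (n : ℕ) : ‖(n : K)‖ ≤ 1 := by
  induction n with
  | zero => simp
  | succ n ih =>
    rw [Nat.cast_succ]
    exact (hu _ _).trans (max_le ih (by rw [norm_one]))

private theorem LocE_exists_w {K : Type*} [NormedField K] [CompleteSpace K]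
    (hu : ∀ x y : K, ‖x + y‖ ≤ max ‖x‖ ‖y‖) {z : K} (hz : ‖z‖ < 1) : ∃ w : K, w ^ 2 + w = z := by
  have hneg : ∀ x y : K, ‖x - y‖ ≤ max ‖x‖ ‖y‖ := fun x y => by
    rw [sub_eq_add_neg]
    exact (hu _ _).trans (by rw [norm_neg])
  obtain ⟨f, hf⟩ : ∃ f : K → K, f = fun w => z - w ^ 2 := ⟨_, rfl⟩
  have hs : IsComplete (Metric.closedBall (0 : K) ‖z‖) := Metric.isClosed_closedBall.isComplete
  have hmaps : Set.MapsTo f (Metric.closedBall (0 : K) ‖z‖) (Metric.closedBall (0 : K) ‖z‖) := by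
    intro w hw
    rw [mem_closedBall_zero_iff] at hw ⊢
    rw [hf]
    refine (hneg _ _).trans (max_le le_rfl ?_)
    rw [norm_pow, sq]
    calc ‖w‖ * ‖w‖ ≤ ‖z‖ * 1 := mul_le_mul hw (hw.trans hz.le) (norm_nonneg _) (norm_nonneg _)
      _ = ‖z‖ := mul_one _
  have hc : ContractingWith ⟨‖z‖, norm_nonneg z⟩ (hmaps.restrict f _ _) := by
    refine ⟨by exact_mod_cast hz, LipschitzWith.of_dist_le_mul fun a b => ?_⟩
    rw [Subtype.dist_eq, Subtype.dist_eq, dist_eq_norm, dist_eq_norm]
    show ‖f a.1 - f b.1‖ ≤ ‖z‖ * ‖a.1 - b.1‖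
    rw [hf]
    have e : z - a.1 ^ 2 - (z - b.1 ^ 2) = -((a.1 + b.1) * (a.1 - b.1)) := by ring
    show ‖z - a.1 ^ 2 - (z - b.1 ^ 2)‖ ≤ _
    rw [e, norm_neg, norm_mul]
    refine mul_le_mul_of_nonneg_right ?_ (norm_nonneg _)
    exact (hu _ _).trans (max_le (mem_closedBall_zero_iff.1 a.2) (mem_closedBall_zero_iff.1 b.2))
  obtain ⟨w, -, hw, -⟩ := hc.exists_fixedPoint' hs hmaps
    (x := 0) (mem_closedBall_zero_iff.2 (by rw [norm_zero]; exact norm_nonneg z)) (edist_ne_top _ _)
  refine ⟨w, ?_⟩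
  have h1 : f w = w := hw
  rw [hf] at h1
  have h2 : z - w ^ 2 = w := h1
  linear_combination -h2

private theorem LocE_fin_mul {F : Type*} [Field F] [Finite F] {a b : F} (ha : ¬ IsSquare a)
    (hb : ¬ IsSquare b) : IsSquare (a * b) := by
  have : Fintype F := Fintype.ofFinite F
  by_cases h2 : ringChar F = 2
  · exact FiniteField.isSquare_of_char_two h2 _
  · have ha0 : a ≠ 0 := by
      rintro rfl
      exact ha IsSquare.zero
    have hb0 : b ≠ 0 := by
      rintro rfl
      exact hb IsSquare.zero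
    rw [FiniteField.isSquare_iff h2 ha0] at ha
    rw [FiniteField.isSquare_iff h2 hb0] at hb
    rw [FiniteField.isSquare_iff h2 (mul_ne_zero ha0 hb0), mul_pow,
      (FiniteField.pow_dichotomy h2 ha0).resolve_left ha,
      (FiniteField.pow_dichotomy h2 hb0).resolve_left hb]
    ring

private theorem LocE_fin_nm {F : Type*} [Field F] [Finite F] {a b : F} (ha : a ≠ 0) :
    ∃ s t : F, s ^ 2 - a * t ^ 2 = b := by
  have : Fintype F := Fintype.ofFinite F
  by_cases h2 : ringChar F = 2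
  · obtain ⟨s, hs⟩ := FiniteField.isSquare_of_char_two h2 b
    exact ⟨s, 0, by rw [hs]; ring⟩
  · obtain ⟨s, t, h⟩ := FiniteField.exists_root_sum_quadratic
      (f := Polynomial.X ^ 2 - Polynomial.C b) (g := Polynomial.C (-a) * Polynomial.X ^ 2)
      (Polynomial.degree_X_pow_sub_C two_pos _)
      (Polynomial.degree_C_mul_X_pow 2 (neg_ne_zero.2 ha))
      (FiniteField.odd_card_of_char_ne_two h2)
    refine ⟨s, t, ?_⟩
    simp only [Polynomial.eval_sub, Polynomial.eval_pow, Polynomial.eval_X, Polynomial.eval_C,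
      Polynomial.eval_mul] at h
    linear_combination h

variable {k : Type} [Field k] [NumberField k]

private theorem LocE_norm (v : HeightOneSpectrum (𝓞 k)) (x : v.adicCompletion k) :
    ‖x‖ = WithZeroMulInt.toNNReal (NumberField.HeightOneSpectrum.absNorm_ne_zero v) (Valued.v x) :=
  FinitePlace.norm_def (v := v) x

private theorem LocE_mono (v : HeightOneSpectrum (𝓞 k)) {x y : v.adicCompletion k}
    (h : Valued.v x ≤ Valued.v y) : ‖x‖ ≤ ‖y‖ := by
  rw [LocE_norm, LocE_norm]
  exact_mod_cast (WithZeroMulInt.toNNReal_strictMono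
    (NumberField.HeightOneSpectrum.one_lt_absNorm_nnreal v)).monotone h

private theorem LocE_lt (v : HeightOneSpectrum (𝓞 k)) (x : v.adicCompletion k) :
    ‖x‖ < 1 ↔ Valued.v x < 1 := by
  rw [LocE_norm, ← WithZeroMulInt.toNNReal_lt_one_iff
    (NumberField.HeightOneSpectrum.one_lt_absNorm_nnreal v)]
  exact_mod_cast Iff.rfl

private theorem LocE_val (v : HeightOneSpectrum (𝓞 k)) (y : k) :
    Valued.v (algebraMap k (v.adicCompletion k) y) = v.valuation k y :=
  IsDedekindDomain.HeightOneSpectrum.valuedAdicCompletion_eq_valuation' v y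

private theorem LocE_ultra (v : HeightOneSpectrum (𝓞 k)) (x y : v.adicCompletion k) :
    ‖x + y‖ ≤ max ‖x‖ ‖y‖ := by
  rcases le_total (Valued.v x) (Valued.v y) with h | h
  · refine le_max_of_le_right (LocE_mono v ?_)
    exact (Valuation.map_add _ x y).trans (max_le h le_rfl)
  · refine le_max_of_le_left (LocE_mono v ?_)
    exact (Valuation.map_add _ x y).trans (max_le le_rfl h)

private theorem LocE_sq1 (v : HeightOneSpectrum (𝓞 k)) {x y : k}
    (hx : v.valuation k x = 1) (h : v.valuation k (x - y ^ 2) < 1) : v.valuation k (y ^ 2) = 1 := by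
  have e : y ^ 2 = x - (x - y ^ 2) := by ring
  rw [e]
  rw [Valuation.map_sub_eq_of_lt_left]
  · exact hx
  · rw [hx]
    exact h

private theorem LocE_sq (v : HeightOneSpectrum (𝓞 k)) (h2 : v.valuation k (2 : k) = 1) {x y : k}
    (hx : v.valuation k x = 1) (h : v.valuation k (x - y ^ 2) < 1) :
    IsSquare (algebraMap k (v.adicCompletion k) x) := by
  have hy := LocE_sq1 v hx h
  have hy0 : y ≠ 0 := by
    rintro rfl
    simp at hy
  have h4 : v.valuation k (4 : k) = 1 := by
    rw [show (4 : k) = 2 * 2 by norm_num, map_mul, h2, mul_one]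
  have hz : v.valuation k ((x - y ^ 2) / (4 * y ^ 2)) < 1 := by
    rw [map_div₀, map_mul, h4, hy, mul_one, div_one]
    exact h
  obtain ⟨w, hw⟩ := LocE_exists_w (LocE_ultra v)
    (z := algebraMap k (v.adicCompletion k) ((x - y ^ 2) / (4 * y ^ 2)))
    (by rw [LocE_lt, LocE_val]; exact hz)
  refine ⟨algebraMap k (v.adicCompletion k) y * (1 + 2 * w), ?_⟩
  have e : x = y ^ 2 * (1 + 4 * ((x - y ^ 2) / (4 * y ^ 2))) := by
    have : (4 : k) ≠ 0 := by norm_num
    field_simp
    ring
  have e2 : algebraMap k (v.adicCompletion k) x = algebraMap k (v.adicCompletion k) y ^ 2 *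
      (1 + 4 * (w ^ 2 + w)) := by
    rw [hw]
    conv_lhs => rw [e]
    rw [map_mul, map_add, map_one, map_mul, map_pow, map_ofNat]
  rw [e2]
  ring

private theorem LocE_mk (v : HeightOneSpectrum (𝓞 k)) (r : 𝓞 k) :
    Ideal.Quotient.mk v.asIdeal r = 0 ↔ v.valuation k (algebraMap (𝓞 k) k r) < 1 := by
  rw [Ideal.Quotient.eq_zero_iff_mem, IsDedekindDomain.HeightOneSpectrum.valuation_lt_one_iff_mem]

/-- Proof: Hensel / completeness: `u = x / y²` has `v(u - 1) < 1`, `v 2 = 1`; the polynomial `X² - u` has a root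
near `1` in the complete ring of integers of `v.adicCompletion k` (`hensel`, or the contraction
`exists_w` in nf/U5a.lean: `w² + w = z` for `‖z‖ < 1`; `u = 1 + 4 z` with `z = (u - 1)/4`,
`u = (1 + 2 w)²`). -/
theorem odd_sq {v : HeightOneSpectrum (𝓞 k)} (h2 : v.valuation k (2 : k) = 1) {x : kˣ}
    (hx : v.valuation k (x : k) = 1) {y : k} (h : v.valuation k ((x : k) - y ^ 2) < 1) :
    x ∈ sqG (Sum.inr v : Pla k) :=
  LocE_sq v h2 hx h

/-- Proof: `x = c²` with `c` in the completion; approximate `c` by `y : k`. -/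
theorem odd_sq_conv {v : HeightOneSpectrum (𝓞 k)} {x : kˣ} (hx : v.valuation k (x : k) = 1)
    (h : x ∈ sqG (Sum.inr v : Pla k)) : ∃ y : k, v.valuation k ((x : k) - y ^ 2) < 1 := by
  obtain ⟨c, hc⟩ : IsSquare (algebraMap k (v.adicCompletion k) (x : k)) := h
  have h1 : Valued.v c = 1 := by
    have h3 : Valued.v c * Valued.v c = 1 := by
      rw [← map_mul, ← hc, LocE_val, hx]
    rw [← sq] at h3
    exact (pow_eq_one_iff.1 h3).resolve_right two_ne_zero
  obtain ⟨y, hy⟩ := (IsDedekindDomain.HeightOneSpectrum.denseRange_algebraMap k v).exists_dist_lt c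
    one_pos
  rw [dist_eq_norm, LocE_lt] at hy
  have h4 : Valued.v (algebraMap k (v.adicCompletion k) y) ≤ 1 := by
    have e : algebraMap k (v.adicCompletion k) y =
        c - (c - algebraMap k (v.adicCompletion k) y) := by ring
    rw [e]
    exact (Valuation.map_sub _ _ _).trans (max_le h1.le hy.le)
  refine ⟨y, ?_⟩
  rw [← LocE_val]
  have e : algebraMap k (v.adicCompletion k) ((x : k) - y ^ 2) =
      (c - algebraMap k (v.adicCompletion k) y) * (c + algebraMap k (v.adicCompletion k) y) := by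
    rw [map_sub, hc, map_pow]
    ring
  rw [e, map_mul]
  have h5 : Valued.v (c + algebraMap k (v.adicCompletion k) y) ≤ 1 :=
    (Valuation.map_add _ _ _).trans (max_le h1.le h4)
  calc Valued.v (c - algebraMap k (v.adicCompletion k) y) *
        Valued.v (c + algebraMap k (v.adicCompletion k) y)
      ≤ Valued.v (c - algebraMap k (v.adicCompletion k) y) * 1 := mul_le_mul_right h5 _
    _ < 1 := by rw [mul_one]; exact hy

/-- Proof: the residue field `𝓞 k ⧸ v.asIdeal` is finite; in a finite field a product of two nonsquares is a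
square (`FiniteField`, the squares have index at most two in the units).  `x, y` are units at `v`; choose
`x₀, y₀ : 𝓞 k` (or elements of `k`) with `v(x - x₀) < 1`, `v(y - y₀) < 1`
(`HeightOneSpectrum.exists_valuation_sub_lt_of_integer`); their residue classes are not squares by `odd_sq`; so
`x₀ y₀` is congruent to a square, `odd_sq`. -/
theorem odd_mul {v : HeightOneSpectrum (𝓞 k)} (h2 : v.valuation k (2 : k) = 1) {x y : kˣ}
    (hx : v.valuation k (x : k) = 1) (hy : v.valuation k (y : k) = 1)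
    (hx' : x ∉ sqG (Sum.inr v : Pla k)) (hy' : y ∉ sqG (Sum.inr v : Pla k)) :
    x * y ∈ sqG (Sum.inr v : Pla k) := by
  let _ : Field (𝓞 k ⧸ v.asIdeal) := Ideal.Quotient.field v.asIdeal
  have hfin : Finite (𝓞 k ⧸ v.asIdeal) := v.asIdeal.finiteQuotientOfFreeOfNeBot v.ne_bot
  obtain ⟨x₀, hx₀⟩ := IsDedekindDomain.HeightOneSpectrum.exists_valuation_sub_lt_of_integer v
    hx.le 1
  obtain ⟨y₀, hy₀⟩ := IsDedekindDomain.HeightOneSpectrum.exists_valuation_sub_lt_of_integer v
    hy.le 1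
  have key : ∀ {z : kˣ} {z₀ : 𝓞 k}, v.valuation k (z : k) = 1 → z ∉ sqG (Sum.inr v : Pla k) →
      v.valuation k (algebraMap (𝓞 k) k z₀ - z) < 1 →
      ¬ IsSquare (Ideal.Quotient.mk v.asIdeal z₀) := by
    rintro z z₀ hz hz' hz₀ ⟨s, hs⟩
    obtain ⟨s, rfl⟩ := Ideal.Quotient.mk_surjective s
    apply hz'
    refine odd_sq h2 (y := algebraMap (𝓞 k) k s) hz ?_
    have h3 := (LocE_mk v (z₀ - s * s)).1 (by rw [map_sub, map_mul, hs, sub_self])
    have e : (z : k) - algebraMap (𝓞 k) k s ^ 2 = algebraMap (𝓞 k) k (z₀ - s * s) -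
        (algebraMap (𝓞 k) k z₀ - z) := by
      rw [map_sub, map_mul]
      ring
    rw [e]
    exact (Valuation.map_sub _ _ _).trans_lt (max_lt h3 hz₀)
  obtain ⟨t, ht⟩ := LocE_fin_mul (key hx hx' hx₀) (key hy hy' hy₀)
  obtain ⟨t, rfl⟩ := Ideal.Quotient.mk_surjective t
  refine odd_sq h2 (y := algebraMap (𝓞 k) k t) ?_ ?_
  · rw [Units.val_mul, map_mul, hx, hy, mul_one]
  · have h3 := (LocE_mk v (x₀ * y₀ - t * t)).1 (by rw [map_sub, map_mul, map_mul, ht, sub_self])
    have e : ((x * y : kˣ) : k) - algebraMap (𝓞 k) k t ^ 2 =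
        algebraMap (𝓞 k) k (x₀ * y₀ - t * t) -
        ((algebraMap (𝓞 k) k x₀ - x) * algebraMap (𝓞 k) k y₀ +
          (x : k) * (algebraMap (𝓞 k) k y₀ - y)) := by
      rw [map_sub, map_mul, map_mul, Units.val_mul]
      ring
    rw [e]
    refine (Valuation.map_sub _ _ _).trans_lt (max_lt h3 ?_)
    refine (Valuation.map_add _ _ _).trans_lt (max_lt ?_ ?_)
    · rw [map_mul]
      calc _ ≤ v.valuation k (algebraMap (𝓞 k) k x₀ - x) * 1 :=
            mul_le_mul_right (v.valuation_le_one y₀) _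
        _ < 1 := by rw [mul_one]; exact hx₀
    · rw [map_mul, hx, one_mul]
      exact hy₀

/-- Proof: if `a` is a local square: `nmG_eq_top`.  Otherwise: over the finite residue field `κ` there are
`s, t` with `s² - a t² = b` (`FiniteField.exists_root_sum_quadratic`, or counting); lift `s, t` to `k`
(integral at `v`): `x = s² - a t²` is a unit at `v` with `v(x - b) < 1`, so `b / x` is a local square by
`odd_sq`, and `x ∈ nmG`, `sqG_le_nmG`. -/
theorem odd_nm {v : HeightOneSpectrum (𝓞 k)} (h2 : v.valuation k (2 : k) = 1) {a b : kˣ}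
    (ha : v.valuation k (a : k) = 1) (hb : v.valuation k (b : k) = 1) :
    b ∈ nmG (Sum.inr v : Pla k) (a : k) := by
  let _ : Field (𝓞 k ⧸ v.asIdeal) := Ideal.Quotient.field v.asIdeal
  have hfin : Finite (𝓞 k ⧸ v.asIdeal) := v.asIdeal.finiteQuotientOfFreeOfNeBot v.ne_bot
  obtain ⟨a₀, ha₀⟩ := IsDedekindDomain.HeightOneSpectrum.exists_valuation_sub_lt_of_integer v
    ha.le 1
  obtain ⟨b₀, hb₀⟩ := IsDedekindDomain.HeightOneSpectrum.exists_valuation_sub_lt_of_integer v
    hb.le 1
  have ha1 : Ideal.Quotient.mk v.asIdeal a₀ ≠ 0 := by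
    intro h
    have h3 := (LocE_mk v a₀).1 h
    have e : (a : k) = algebraMap (𝓞 k) k a₀ - (algebraMap (𝓞 k) k a₀ - a) := by ring
    rw [e] at ha
    exact absurd ha ((Valuation.map_sub _ _ _).trans_lt (max_lt h3 ha₀)).ne
  obtain ⟨s, t, hst⟩ := LocE_fin_nm (b := Ideal.Quotient.mk v.asIdeal b₀) ha1
  obtain ⟨s, rfl⟩ := Ideal.Quotient.mk_surjective s
  obtain ⟨t, rfl⟩ := Ideal.Quotient.mk_surjective t
  have h3 := (LocE_mk v (s ^ 2 - a₀ * t ^ 2 - b₀)).1 (by
    rw [map_sub, map_sub, map_mul, map_pow, map_pow, hst, sub_self])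
  obtain ⟨X, hX⟩ : ∃ X : k, X = algebraMap (𝓞 k) k s ^ 2 - a * algebraMap (𝓞 k) k t ^ 2 :=
    ⟨_, rfl⟩
  have h4 : v.valuation k ((b : k) - X) < 1 := by
    have e : (b : k) - X = (algebraMap (𝓞 k) k a₀ - a) * (-algebraMap (𝓞 k) k (t ^ 2)) -
        ((algebraMap (𝓞 k) k b₀ - b) + algebraMap (𝓞 k) k (s ^ 2 - a₀ * t ^ 2 - b₀)) := by
      rw [hX, map_sub, map_sub, map_mul, map_pow, map_pow]
      ring
    rw [e]
    refine (Valuation.map_sub _ _ _).trans_lt (max_lt ?_ ?_)
    · rw [map_mul, Valuation.map_neg]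
      calc _ ≤ v.valuation k (algebraMap (𝓞 k) k a₀ - a) * 1 :=
            mul_le_mul_right (v.valuation_le_one (t ^ 2)) _
        _ < 1 := by rw [mul_one]; exact ha₀
    · exact (Valuation.map_add _ _ _).trans_lt (max_lt hb₀ h3)
  have hX1 : v.valuation k X = 1 := by
    have e : X = b - ((b : k) - X) := by ring
    rw [e]
    rw [Valuation.map_sub_eq_of_lt_left]
    · exact hb
    · rw [hb]
      exact h4
  have hX0 : X ≠ 0 := by
    rintro h
    rw [h, map_zero] at hX1
    exact zero_ne_one hX1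
  obtain ⟨r, hr⟩ := LocE_sq v h2 (x := (b : k) / X) (y := 1) (by rw [map_div₀, hb, hX1, div_one]) (by
    have e : (b : k) / X - 1 ^ 2 = (b - X) / X := by
      field_simp
    rw [e, map_div₀, hX1, div_one]
    exact h4)
  have e : algebraMap k (v.adicCompletion k) (b : k) =
      algebraMap k (v.adicCompletion k) X * algebraMap k (v.adicCompletion k) ((b : k) / X) := by
    rw [← map_mul, mul_div_cancel₀ _ hX0]
  have e2 : algebraMap k (v.adicCompletion k) (b : k) =
      (algebraMap k (v.adicCompletion k) (algebraMap (𝓞 k) k s) * r) ^ 2 -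
      algebraMap k (v.adicCompletion k) (a : k) *
        (algebraMap k (v.adicCompletion k) (algebraMap (𝓞 k) k t) * r) ^ 2 := by
    rw [e, hr, hX, map_sub, map_mul, map_pow, map_pow]
    ring
  exact ⟨_, _, e2⟩

/-- squares go up.  Proof: `odd_sq_conv` gives `y : k`, `v(x - y²) < 1`; `w(x - y²) = v(x - y²)^e < 1`
(`HeightOneSpectrum.valuation_liesOver`); `odd_sq` for `K`. -/
theorem odd_up {K : Type} [Field K] [NumberField K] [Algebra k K] (w : HeightOneSpectrum (𝓞 K))
    {x : kˣ} (h2 : (w.under (𝓞 k)).valuation k (2 : k) = 1)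
    (hx : (w.under (𝓞 k)).valuation k (x : k) = 1)
    (h : x ∈ sqG (Sum.inr (w.under (𝓞 k)) : Pla k)) :
    Units.map (algebraMap k K : k →* K) x ∈ sqG (Sum.inr w : Pla K) := by
  obtain ⟨y, hy⟩ := odd_sq_conv hx h
  have hlo : w.asIdeal.LiesOver (w.under (𝓞 k)).asIdeal := ⟨rfl⟩
  have hval : ∀ z : k, w.valuation K (algebraMap k K z) =
      (w.under (𝓞 k)).valuation k z ^ (w.under (𝓞 k)).asIdeal.ramificationIdx' w.asIdeal :=
    fun z => (IsDedekindDomain.HeightOneSpectrum.valuation_liesOver K (w.under (𝓞 k)) w z).symm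
  have he : (w.under (𝓞 k)).asIdeal.ramificationIdx' w.asIdeal ≠ 0 :=
    Ideal.IsDedekindDomain.ramificationIdx'_ne_zero_of_liesOver w.asIdeal (w.under (𝓞 k)).ne_bot
  refine odd_sq (y := algebraMap k K y) ?_ ?_ ?_
  · have := hval 2
    rw [map_ofNat, h2, one_pow] at this
    exact this
  · show w.valuation K (algebraMap k K (x : k)) = 1
    rw [hval, hx, one_pow]
  · show w.valuation K (algebraMap k K (x : k) - algebraMap k K y ^ 2) < 1
    rw [← map_pow, ← map_sub, hval]
    exact pow_lt_one' hy he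

end HN83
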