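import Pool.Agent.H.MP_83e36b_nt.hn.HDef

/-! Unramified places. -/

set_option autoImplicit false

open NumberField IsDedekindDomain

namespace HN83

/-- the valuations agree if the index is one -/
private theorem Unr_aux {k : Type} [Field k] [NumberField k] {K : Type} [Field K] [NumberField K]
    [Algebra k K] (w : HeightOneSpectrum (𝓞 K))
    (h : ¬ w.asIdeal ∣ differentIdeal (𝓞 k) (𝓞 K)) (x : k) :
    w.valuation K (algebraMap k K x) = (w.under (𝓞 k)).valuation k x := by
  have hl : w.asIdeal.LiesOver (w.under (𝓞 k)).asIdeal := ⟨rfl⟩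
  have h1 := HeightOneSpectrum.valuation_liesOver K (w.under (𝓞 k)) w x
  have hle : Ideal.map (algebraMap (𝓞 k) (𝓞 K)) (w.under (𝓞 k)).asIdeal ≤ w.asIdeal :=
    Ideal.map_le_iff_le_comap.2 (le_of_eq hl.over)
  have he : (w.under (𝓞 k)).asIdeal.ramificationIdx' w.asIdeal = 1 := by
    by_contra hne
    have h2 := (Ideal.ramificationIdx'_ne_one_iff hle).1 hne
    have hm : (w.under (𝓞 k)).asIdeal.IsMaximal := (w.under (𝓞 k)).isMaximal
    have h3 := pow_sub_one_dvd_differentIdeal (A := 𝓞 k) (B := 𝓞 K) (p := (w.under (𝓞 k)).asIdeal)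
      w.asIdeal 2 (w.under (𝓞 k)).ne_bot (Ideal.dvd_iff_le.2 h2)
    rw [show 2 - 1 = 1 from rfl, pow_one] at h3
    exact h h3
  rw [he, pow_one] at h1
  exact h1.symm

/-- Proof: only finitely many primes of `𝓞 k` are ramified in `𝓞 K`; for the others
`Ideal.ramificationIdx' = 1` and `HeightOneSpectrum.valuation_liesOver` (Mathlib.NumberTheory.
RamificationInertia.Valuation) gives the claim.  -/
theorem exists_unram {k : Type} [Field k] [NumberField k] {K : Type} [Field K] [NumberField K]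
    [Algebra k K] {a : kˣ} {α : K} (hK : Quad a K α) :
    ∃ S0 : Set (HeightOneSpectrum (𝓞 k)), S0.Finite ∧ ∀ S, S0 ⊆ S → Unram K S := by
  have _hK := hK
  have hd : differentIdeal (𝓞 k) (𝓞 K) ≠ ⊥ := differentIdeal_ne_bot
  refine ⟨(fun w : HeightOneSpectrum (𝓞 K) => w.under (𝓞 k)) ''
    {w | w.asIdeal ∣ differentIdeal (𝓞 k) (𝓞 K)}, (Ideal.finite_factors hd).image _, ?_⟩
  intro S hS w hw x
  refine Unr_aux w (fun hdvd => hw (hS ⟨w, hdvd, rfl⟩)) x

end HN83
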