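import Pool.Agent.H.MP_83e36b_nt.hn.Cnt
import Pool.Agent.H.MP_83e36b_nt.hn.Bg
import Pool.Agent.H.MP_83e36b_nt.hn.Unr
import Pool.Agent.H.MP_83e36b_nt.hn.LocE

/-! The first inequality: places which do not split. -/

set_option autoImplicit false

open NumberField IsDedekindDomain

namespace HN83

/-- Proof.  `K`, `α` by `exists_quad`.  Suppose `a ∈ sqG (inr v)` for all `v ∉ S`.  Let `S1 ⊇ S` be finite, containing the
sets of `exists_big`, `exists_unram` and the support of `a` (`supp_finite`).  `H = ⨅ v ∈ Sig S1, nmG v a` has finite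
index (`nm_prod`); let `b_1, ..., b_r` represent the cosets, `S2 = S1 ∪` the supports of the `b_j`.  `S2` is
`Big`, `Unram`, `a ∈ US k S2`.  For `x : kˣ` there is `j` with `b_j⁻¹`... i.e. `u = b_j ^ ±1 ∈ US k S2` with
`u * x ∈ H`; for `v ∈ Sig S2 ∖ Sig S1`, `a ∈ sqG v`, so `nmG v a = ⊤` (`nmG_eq_top`).  `count_contra`. -/
theorem first_ineq {k : Type} [Field k] [NumberField k] (a : kˣ) (ha : ¬ IsSquare (a : k))
    (S : Set (HeightOneSpectrum (𝓞 k))) (hS : S.Finite) :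
    ∃ v, v ∉ S ∧ a ∉ sqG (Sum.inr v : Pla k) := by
  by_contra hcon
  push Not at hcon
  obtain ⟨K, iK1, iK2, iK3, α, hK⟩ := exists_quad a ha
  obtain ⟨Sb, hSb, hbig⟩ := exists_big k
  obtain ⟨Su, hSu, hunr⟩ := exists_unram hK
  set S1 : Set (HeightOneSpectrum (𝓞 k)) :=
    S ∪ Sb ∪ Su ∪ {v : HeightOneSpectrum (𝓞 k) | v.valuation k (a : k) ≠ 1} with hS1def
  have hS1 : S1.Finite := ((hS.union hSb).union hSu).union (supp_finite a)
  set H : Subgroup kˣ := ⨅ v ∈ Sig hS1, nmG v (a : k) with hHdef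
  have hH : H.index ≠ 0 := (nm_prod hS1 a).1
  haveI : H.FiniteIndex := ⟨hH⟩
  haveI : Finite (kˣ ⧸ H) := inferInstance
  set S2 : Set (HeightOneSpectrum (𝓞 k)) := S1 ∪ ⋃ c : kˣ ⧸ H,
    {v : HeightOneSpectrum (𝓞 k) | v.valuation k ((Quotient.out c : kˣ) : k) ≠ 1} with hS2def
  have hS2 : S2.Finite := hS1.union (Set.finite_iUnion fun c => supp_finite _)
  have hS12 : S1 ⊆ S2 := Set.subset_union_left
  have hb : Big S2 := hbig S2 hS2 (fun v hv => hS12 (Or.inl (Or.inl (Or.inr hv))))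
  have hu : Unram K S2 := hunr S2 (fun v hv => hS12 (Or.inl (Or.inr hv)))
  have haS : a ∈ US k S2 := by
    rw [mem_US]
    intro v hv
    by_contra h
    exact hv (hS12 (Or.inr h))
  refine count_contra hK hb hu haS ?_
  intro x
  have hc : ((Quotient.out ((x⁻¹ : kˣ) : kˣ ⧸ H) : kˣ) : kˣ ⧸ H) = ((x⁻¹ : kˣ) : kˣ ⧸ H) :=
    QuotientGroup.out_eq' _
  have hmem : (Quotient.out ((x⁻¹ : kˣ) : kˣ ⧸ H) : kˣ) * x ∈ H := by
    have h1 := QuotientGroup.eq.1 hc.symm
    rw [inv_inv, mul_comm] at h1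
    exact h1
  refine ⟨Quotient.out ((x⁻¹ : kˣ) : kˣ ⧸ H), ?_, ?_⟩
  · rw [mem_US]
    intro v hv
    by_contra h
    exact hv (Or.inr (Set.mem_iUnion.2 ⟨_, h⟩))
  · intro v hv
    have key : ∀ w ∈ Sig hS1, (Quotient.out ((x⁻¹ : kˣ) : kˣ ⧸ H) : kˣ) * x ∈ nmG w (a : k) := by
      intro w hw
      rw [hHdef, Subgroup.mem_iInf] at hmem
      exact Subgroup.mem_iInf.1 (hmem w) hw
    rcases (mem_Sig hb.fin v).1 hv with ⟨w, rfl⟩ | ⟨w, hw, rfl⟩
    · exact key _ ((mem_Sig hS1 _).2 (Or.inl ⟨w, rfl⟩))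
    · by_cases hw1 : w ∈ S1
      · exact key _ ((mem_Sig hS1 _).2 (Or.inr ⟨w, hw1, rfl⟩))
      · have hwS : w ∉ S := fun h => hw1 (Or.inl (Or.inl (Or.inl h)))
        rw [nmG_eq_top (hcon w hwS)]
        exact Subgroup.mem_top _

/-- `u` stays a nonsquare in `k(√a)` if `u` and `a u` are nonsquares in `k` -/
private theorem FIn_nonsq {k : Type} [Field k] [NumberField k] {K : Type} [Field K] [NumberField K]
    [Algebra k K] {a : kˣ} {α : K} (hK : Quad a K α) (u : kˣ)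
    (hu : ¬ IsSquare (u : k)) (hau : ¬ IsSquare ((a : k) * u)) :
    ¬ IsSquare ((Units.map (algebraMap k K : k →* K) u : Kˣ) : K) := by
  rintro ⟨z, hz⟩
  have hz' : algebraMap k K (u : k) = z * z := by
    have : ((Units.map (algebraMap k K : k →* K) u : Kˣ) : K) = algebraMap k K (u : k) := rfl
    rw [← this]; exact hz
  obtain ⟨σ, hσ, -, -, -, hrep⟩ := hK.exists_conj
  obtain ⟨s, t, hst⟩ := hrep z
  have hα0 : α ≠ 0 := by
    intro h
    have h1 := hK.sq
    rw [h, zero_pow two_ne_zero] at h1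
    exact a.ne_zero ((map_eq_zero (algebraMap k K)).1 h1.symm)
  have h1 : algebraMap k K (u : k) = (algebraMap k K s + algebraMap k K t * α) *
      (algebraMap k K s + algebraMap k K t * α) := by rw [hz', hst]
  have h2 : algebraMap k K (u : k) = (algebraMap k K s - algebraMap k K t * α) *
      (algebraMap k K s - algebraMap k K t * α) := by
    have h3 := congrArg σ h1
    rw [map_mul, map_add, map_mul, AlgEquiv.commutes, AlgEquiv.commutes, AlgEquiv.commutes, hσ] at h3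
    rw [h3]; ring
  have h4 : algebraMap k K s * algebraMap k K t = 0 := by
    have h5 : (4 : K) * (algebraMap k K s * algebraMap k K t) * α = 0 := by
      linear_combination h2 - h1
    have h6 := (mul_eq_zero.1 h5).resolve_right hα0
    exact (mul_eq_zero.1 h6).resolve_left (by norm_num)
  rcases mul_eq_zero.1 h4 with hs | ht
  · -- `s = 0`
    apply hau
    refine ⟨(a : k) * t, ?_⟩
    apply (algebraMap k K).injective
    rw [map_mul, h1, hs, map_mul, map_mul, ← hK.sq]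
    ring
  · apply hu
    refine ⟨s, ?_⟩
    apply (algebraMap k K).injective
    rw [h1, ht, map_mul]
    ring

/-- Proof.  Let `S1 = S ∪ {v | v 2 ≠ 1} ∪ supp a ∪ supp u`, `K = k(α)` (`exists_quad`).  `u` is not a square in `K`:
`(s + t α)² = u` means `s² + a t² = u`, `2 s t = 0`, so `u = s²` or `u = a t²`, `a u = (a t)²`.  `first_ineq` for `K`,
`u` and `Above K S1` (finite): `w` with `v = w.under ∉ S1` and `u ∉ sqG (inr w)`.  By `odd_up`
`u ∉ sqG (inr v)`.  If `a ∉ sqG (inr v)`, then `a u ∈ sqG (inr v)` (`odd_mul`), `a u ∈ sqG (inr w)` (`odd_up`), and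
`a = α²` in `K`, so `u ∈ sqG (inr w)`: contradiction.  So `a ∈ sqG (inr v)`.  (`(Above K S1).Finite`: `above_fin`
in hn/PlA.lean.) -/
theorem exists_aux {k : Type} [Field k] [NumberField k] (a u : kˣ) (ha : ¬ IsSquare (a : k))
    (hu : ¬ IsSquare (u : k)) (hau : ¬ IsSquare ((a : k) * u))
    (S : Set (HeightOneSpectrum (𝓞 k))) (hS : S.Finite) :
    ∃ v, v ∉ S ∧ a ∈ sqG (Sum.inr v : Pla k) ∧ u ∉ sqG (Sum.inr v : Pla k) := by
  obtain ⟨K, iK1, iK2, iK3, α, hK⟩ := exists_quad a ha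
  set S1 : Set (HeightOneSpectrum (𝓞 k)) :=
    S ∪ {v : HeightOneSpectrum (𝓞 k) | v.valuation k (2 : k) ≠ 1} ∪
      {v : HeightOneSpectrum (𝓞 k) | v.valuation k (a : k) ≠ 1} ∪
      {v : HeightOneSpectrum (𝓞 k) | v.valuation k (u : k) ≠ 1} with hS1def
  have h2fin : {v : HeightOneSpectrum (𝓞 k) | v.valuation k (2 : k) ≠ 1}.Finite :=
    supp_finite (Units.mk0 (2 : k) two_ne_zero)
  have hS1 : S1.Finite := ((hS.union h2fin).union (supp_finite a)).union (supp_finite u)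
  have huK := FIn_nonsq hK u hu hau
  obtain ⟨w, hw, huw⟩ := first_ineq (Units.map (algebraMap k K : k →* K) u) huK (Above K S1)
    (above_fin hK S1 hS1).1
  have hv : w.under (𝓞 k) ∉ S1 := hw
  have hvS : w.under (𝓞 k) ∉ S := fun h => hv (Or.inl (Or.inl (Or.inl h)))
  have hv2 : (w.under (𝓞 k)).valuation k (2 : k) = 1 := by
    by_contra h; exact hv (Or.inl (Or.inl (Or.inr h)))
  have hva : (w.under (𝓞 k)).valuation k (a : k) = 1 := by
    by_contra h; exact hv (Or.inl (Or.inr h))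
  have hvu : (w.under (𝓞 k)).valuation k (u : k) = 1 := by
    by_contra h; exact hv (Or.inr h)
  have huv : u ∉ sqG (Sum.inr (w.under (𝓞 k)) : Pla k) := fun h => huw (odd_up w hv2 hvu h)
  refine ⟨w.under (𝓞 k), hvS, ?_, huv⟩
  by_contra hav
  have hauv := odd_mul hv2 hva hvu hav huv
  have hau1 : (w.under (𝓞 k)).valuation k ((a * u : kˣ) : k) = 1 := by
    rw [Units.val_mul, map_mul, hva, hvu, one_mul]
  have hauw := odd_up w hv2 hau1 hauv
  rw [map_mul] at hauw
  have haw : Units.map (algebraMap k K : k →* K) a ∈ sqG (Sum.inr w : Pla K) := by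
    rw [mem_sqG]
    refine ⟨ev (Sum.inr w : Pla K) α, ?_⟩
    have : ((Units.map (algebraMap k K : k →* K) a : Kˣ) : K) = algebraMap k K (a : k) := rfl
    rw [this, ← map_mul, ← hK.sq, sq]
  exact huw ((Subgroup.mul_mem_cancel_left _ haw).1 hauw)

end HN83
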