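import Mathlib

/-! Index computation for a commutative group with an involution. -/

set_option autoImplicit false

namespace HN83

/-- Proof.  `N x = x * σ x`, `D x = x / σ x`, `Q = ker N`; `P = {x | σ x = x}` is the kernel of `D` and
`Q = range D` (`hH`; `D x ∈ Q` always).  `N p = p²` for `p ∈ P`, `D q = q²` for `q ∈ Q`.  `range N ≤ P`.
(1) `D` maps `M` onto `Q` and `M² · P` onto `D(M²) = (D M)² = Q²`; so `[M : P M²] = [Q : Q²]`, and
`[P M² : M²] = [P : P ∩ M²]`: `2^t = [M : M²] = [Q : Q²] [P : P ∩ M²]`.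
(2) `N` maps `M` onto `N M`, `P Q` onto `P²` (`N q = 1`), and `N⁻¹(P²) = P Q`: `[N M : P²] = [M : P Q]`; `D`
maps `M` onto `Q`, `P Q` onto `Q²`, `ker D = P ≤ P Q`: `[M : P Q] = [Q : Q²]`.  So
`2^s = [P : P²] = [P : N M] [N M : P²] = [P : N M] [Q : Q²]`.
(3) `a ∈ P ∩ M²`, `a ∉ P²`, so `[P ∩ M² : P²] ≥ 2`, `[P : P ∩ M²] ≤ 2^(s-1)`, i.e.
`2 [P : P ∩ M²] ≤ 2^s`.
So `[P : N M] * 2^(t+1) = [P : N M] [Q : Q²] [P : P ∩ M²] * 2 = 2^s [P : P ∩ M²] * 2 ≤ 2^s * 2^s`.
(`Subgroup.relIndex_mul_relIndex`, `Subgroup.index_map`, `Subgroup.relIndex_map_map`,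
`Subgroup.index_comap`, `Subgroup.relIndex_comap`, `Subgroup.relIndex_sup_right` ...) -/
theorem grp_index {M : Type} [CommGroup M] (σ : M ≃* M) (hσ : ∀ x, σ (σ x) = x)
    (hH : ∀ x, x * σ x = 1 → ∃ z, x = z / σ z) {s t : ℕ}
    (hM : (powMonoidHom 2 : M →* M).range.index = 2 ^ t) (P : Subgroup M)
    (hP : ∀ x, x ∈ P ↔ σ x = x) (hPi : (P.map (powMonoidHom 2)).relIndex P = 2 ^ s) {a : M}
    (ha : a ∈ P) (ha2 : ∃ y, a = y ^ 2) (han : ¬ ∃ y ∈ P, a = y ^ 2) :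
    (MonoidHom.id M * σ.toMonoidHom).range.relIndex P ≠ 0 ∧
      (MonoidHom.id M * σ.toMonoidHom).range.relIndex P * 2 ^ (t + 1) ≤ 2 ^ (2 * s) := by
  obtain ⟨N, hN⟩ : ∃ N : M →* M, N = MonoidHom.id M * σ.toMonoidHom := ⟨_, rfl⟩
  rw [← hN]
  have hNx : ∀ x, N x = x * σ x := fun x => by rw [hN]; rfl
  obtain ⟨D, hD⟩ : ∃ D : M →* M, D = MonoidHom.id M / σ.toMonoidHom := ⟨_, rfl⟩
  have hDx : ∀ x, D x = x / σ x := fun x => by rw [hD]; rfl
  have hkD : D.ker = P := by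
    ext x
    rw [MonoidHom.mem_ker, hDx, div_eq_one, hP]
    exact eq_comm
  have hDN : ∀ x, D x ∈ N.ker := fun x => by
    rw [MonoidHom.mem_ker, hNx, hDx, map_div, hσ]
    rw [div_mul_div_comm, mul_comm (σ x) x, div_self']
  have hrD : D.range = N.ker := by
    ext x
    constructor
    · rintro ⟨y, rfl⟩
      exact hDN y
    · intro hx
      rw [MonoidHom.mem_ker, hNx] at hx
      obtain ⟨z, hz⟩ := hH x hx
      exact ⟨z, by rw [hDx, hz]⟩
  have hNP : N.range ≤ P := by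
    rintro _ ⟨y, rfl⟩
    rw [hP, hNx, map_mul, hσ, mul_comm]
  have hNp : ∀ x ∈ P, N x = x ^ 2 := fun x hx => by rw [hNx, (hP x).1 hx, pow_two]
  have hDq : ∀ x ∈ N.ker, D x = x ^ 2 := fun x hx => by
    rw [MonoidHom.mem_ker, hNx] at hx
    rw [hDx, (inv_eq_of_mul_eq_one_right hx).symm, div_inv_eq_mul, pow_two]
  have hP2 : P.map (powMonoidHom 2) = P.map N := by
    ext x
    simp only [Subgroup.mem_map, powMonoidHom_apply]
    constructor
    · rintro ⟨y, hy, rfl⟩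
      exact ⟨y, hy, hNp y hy⟩
    · rintro ⟨y, hy, rfl⟩
      exact ⟨y, hy, (hNp y hy).symm⟩
  have hQ2 : N.ker.map (powMonoidHom 2) = N.ker.map D := by
    ext x
    simp only [Subgroup.mem_map, powMonoidHom_apply]
    constructor
    · rintro ⟨y, hy, rfl⟩
      exact ⟨y, hy, hDq y hy⟩
    · rintro ⟨y, hy, rfl⟩
      exact ⟨y, hy, (hDq y hy).symm⟩
  have hM2 : (powMonoidHom 2 : M →* M).range.map D = N.ker.map (powMonoidHom 2) := by
    rw [← hrD]
    ext x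
    simp only [Subgroup.mem_map, MonoidHom.mem_range, powMonoidHom_apply]
    constructor
    · rintro ⟨_, ⟨y, rfl⟩, rfl⟩
      exact ⟨D y, ⟨y, rfl⟩, (map_pow D y 2).symm⟩
    · rintro ⟨_, ⟨y, rfl⟩, rfl⟩
      exact ⟨y ^ 2, ⟨y, rfl⟩, map_pow D y 2⟩
  -- (1)
  have h1 : ((powMonoidHom 2 : M →* M).range ⊔ P).index =
      (N.ker.map (powMonoidHom 2)).relIndex N.ker := by
    have h := Subgroup.relIndex_map_map D (powMonoidHom 2 : M →* M).range ⊤
    rw [hM2, ← MonoidHom.range_eq_map, hrD, hkD, top_sup_eq, Subgroup.relIndex_top_right] at h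
    exact h.symm
  have hA : (powMonoidHom 2 : M →* M).range.relIndex P *
      (N.ker.map (powMonoidHom 2)).relIndex N.ker = 2 ^ t := by
    rw [← h1, ← hM, ← Subgroup.relIndex_mul_index
      (le_sup_left : (powMonoidHom 2 : M →* M).range ≤ (powMonoidHom 2 : M →* M).range ⊔ P),
      sup_comm, Subgroup.relIndex_sup_right]
  -- (2)
  have h2 : (P ⊔ N.ker).index = (P.map (powMonoidHom 2)).relIndex N.range := by
    have h := Subgroup.relIndex_map_map N P ⊤
    rw [← hP2, ← MonoidHom.range_eq_map, top_sup_eq, Subgroup.relIndex_top_right] at h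
    exact h.symm
  have h3 : (P ⊔ N.ker).index = (N.ker.map (powMonoidHom 2)).relIndex N.ker := by
    have h := Subgroup.relIndex_map_map D N.ker ⊤
    rw [← hQ2, ← MonoidHom.range_eq_map, hrD, hkD, top_sup_eq, Subgroup.relIndex_top_right,
      sup_comm] at h
    exact h.symm
  have hB : (N.ker.map (powMonoidHom 2)).relIndex N.ker * N.range.relIndex P = 2 ^ s := by
    rw [← h3, h2, ← hPi]
    refine Subgroup.relIndex_mul_relIndex _ _ _ ?_ hNP
    rw [hP2]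
    rintro _ ⟨y, _, rfl⟩
    exact ⟨y, rfl⟩
  -- (3)
  have hle : P.map (powMonoidHom 2) ≤ (powMonoidHom 2 : M →* M).range ⊓ P := by
    rintro _ ⟨y, hy, rfl⟩
    exact ⟨⟨y, rfl⟩, P.pow_mem hy 2⟩
  have hC : (P.map (powMonoidHom 2)).relIndex ((powMonoidHom 2 : M →* M).range ⊓ P) *
      (powMonoidHom 2 : M →* M).range.relIndex P = 2 ^ s := by
    rw [← hPi, ← Subgroup.relIndex_mul_relIndex _ _ _ hle inf_le_right,
      Subgroup.inf_relIndex_right]
  have hv1 : (P.map (powMonoidHom 2)).relIndex ((powMonoidHom 2 : M →* M).range ⊓ P) ≠ 1 := by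
    intro h
    rw [Subgroup.relIndex_eq_one] at h
    obtain ⟨y, hy⟩ := ha2
    have h4 : a ∈ P.map (powMonoidHom 2) := h ⟨⟨y, hy.symm⟩, ha⟩
    obtain ⟨z, hz, hz2⟩ := h4
    exact han ⟨z, hz, hz2.symm⟩
  generalize (P.map (powMonoidHom 2)).relIndex ((powMonoidHom 2 : M →* M).range ⊓ P) = v
    at hC hv1
  generalize (powMonoidHom 2 : M →* M).range.relIndex P = w at hA hC
  generalize (N.ker.map (powMonoidHom 2)).relIndex N.ker = q at hA hB
  generalize N.range.relIndex P = x at hB ⊢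
  have hs : 0 < 2 ^ s := by positivity
  have hv0 : v ≠ 0 := by
    rintro rfl
    rw [zero_mul] at hC
    omega
  have hx0 : x ≠ 0 := by
    rintro rfl
    rw [mul_zero] at hB
    omega
  refine ⟨hx0, ?_⟩
  have hv2 : 2 ≤ v := by omega
  calc x * 2 ^ (t + 1) = (q * x) * (2 * w) := by rw [pow_succ, ← hA]; ring
    _ ≤ (q * x) * (v * w) := by gcongr
    _ = 2 ^ (2 * s) := by rw [hB, hC, two_mul, pow_add]

end HN83
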