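import Pool.Agent.H.MP_83e36b_nt.hn.HDef

/-! Hilbert 90 for the units above `S`. -/

set_option autoImplicit false

open NumberField IsDedekindDomain

namespace HN83

private theorem H1v_span {k : Type} [Field k] [NumberField k] {K : Type} [Field K]
    [NumberField K] [Algebra k K] {a : kˣ} {α : K} (hK : Quad a K α) (y : K) :
    ∃ s t : k, y = algebraMap k K s + algebraMap k K t * α := by
  have hli : LinearIndependent k ![(1 : K), α] := by
    rw [LinearIndependent.pair_iff]
    intro s t h
    rw [Algebra.smul_def, Algebra.smul_def, mul_one] at h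
    have ht : t = 0 := by
      by_contra ht
      apply hK.nsq
      have ht' : algebraMap k K t ≠ 0 := (map_ne_zero _).2 ht
      have h1 : α = algebraMap k K (-s / t) := by
        rw [map_div₀, map_neg, eq_div_iff ht', mul_comm]
        exact eq_neg_of_add_eq_zero_right h
      have h2 : algebraMap k K (a : k) = algebraMap k K ((-s / t) * (-s / t)) := by
        rw [← hK.sq, map_mul, ← h1, sq]
      exact ⟨-s / t, (algebraMap k K).injective h2⟩
    rw [ht, map_zero, zero_mul, add_zero] at h
    exact ⟨(map_eq_zero _).1 h, ht⟩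
  have : Module.Finite k K := Module.finite_of_finrank_pos (by rw [hK.rank]; norm_num)
  have hsp := hli.span_eq_top_of_card_eq_finrank' (by rw [hK.rank]; rfl)
  have hy : y ∈ Submodule.span k (Set.range ![(1 : K), α]) := by
    rw [hsp]
    exact Submodule.mem_top
  rw [Matrix.range_cons, Matrix.range_cons, Matrix.range_empty, Set.union_empty,
    Set.singleton_union, Submodule.mem_span_pair] at hy
  obtain ⟨s, t, h⟩ := hy
  exact ⟨s, t, by rw [← h, Algebra.smul_def, Algebra.smul_def, mul_one]⟩

private theorem H1v_fin {k : Type} [Field k] [NumberField k] (c : kˣ) :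
    {v : HeightOneSpectrum (𝓞 k) | v.valuation k (c : k) ≠ 1}.Finite := by
  refine ((HeightOneSpectrum.Support.finite (𝓞 k) (c : k)).union
    (HeightOneSpectrum.Support.finite (𝓞 k) (c⁻¹ : k))).subset ?_
  intro v hv
  rcases lt_or_gt_of_ne (show v.valuation k (c : k) ≠ 1 from hv) with h | h
  · right
    show 1 < v.valuation k ((c : k)⁻¹)
    rw [map_inv₀]
    exact one_lt_inv_iff₀.2 ⟨zero_lt_iff.2 ((v.valuation k).ne_zero_iff.2 c.ne_zero), h⟩
  · left
    exact h

/-- An element with prescribed valuations outside of `S`. -/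
private theorem H1v_elt {k : Type} [Field k] [NumberField k] {S : Set (HeightOneSpectrum (𝓞 k))}
    (hb : Big S) (e : HeightOneSpectrum (𝓞 k) → ℤ) (he : {v | e v ≠ 0}.Finite) :
    ∃ b : kˣ, ∀ v, v ∉ S → v.valuation k (b : k) = WithZero.exp (e v) := by
  classical
  choose y hy1 hy2 using hb.prim
  let Y : HeightOneSpectrum (𝓞 k) → kˣ := fun v => if h : v ∉ S then y v h else 1
  refine ⟨∏ v ∈ he.toFinset, Y v ^ (-e v), fun v hv => ?_⟩
  have hterm : ∀ w ∈ he.toFinset, w ≠ v →
      v.valuation k (((Y w ^ (-e w) : kˣ)) : k) = 1 := by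
    intro w _ hw
    rw [Units.val_zpow_eq_zpow_val, map_zpow₀]
    have h1 : v.valuation k ((Y w : kˣ) : k) = 1 := by
      by_cases h : w ∉ S
      · have e1 : Y w = y w h := dif_pos h
        rw [e1]
        exact hy2 w h v hv (Ne.symm hw)
      · have e1 : Y w = 1 := dif_neg h
        rw [e1, Units.val_one, map_one]
    rw [h1, one_zpow]
  have hval : v.valuation k (((Y v ^ (-e v) : kˣ)) : k) = WithZero.exp (e v) := by
    rw [Units.val_zpow_eq_zpow_val, map_zpow₀]
    have e1 : Y v = y v hv := dif_pos hv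
    rw [e1, hy1 v hv, ← WithZero.exp_zsmul]
    congr 1
    rw [smul_eq_mul]
    ring
  rw [Units.coe_prod, map_prod]
  by_cases hmem : v ∈ he.toFinset
  · rw [Finset.prod_eq_single v hterm (fun h => absurd hmem h), hval]
  · rw [Finset.prod_eq_one fun w hw => hterm w hw (fun h => hmem (h ▸ hw))]
    have h0 : e v = 0 := by
      by_contra h
      exact hmem (he.mem_toFinset.2 h)
    rw [h0, WithZero.exp_zero]

/-- Proof.  Hilbert 90: `x = z / σ z` for some `z : Kˣ` (e.g. `z = 1 + x` if `x ≠ -1`: `x σ(1 + x) = x + 1`; and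
`z = α` if `x = -1`).  For `w` over a place `v ∉ S`: `w x = 1`, so `w z = w (σ z)`; the places over `v` are
`w` and its conjugate (the Galois group acts transitively on the primes over `v`; `w ∘ σ` is the valuation of the
conjugate), so `w z =: n v` is the same for all `w` over `v`.  It is `1` for almost all `v`.  Let
`b = ∏ y_v ^ (exponent)` over the finitely many `v ∉ S` with `n v ≠ 1`, `y_v` from `hb.prim v`: then
`v.valuation k b = n v` for all `v ∉ S`, and by `hu` `w (b) = n v = w z` for all `w` over `v ∉ S`.  So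
`z / b ∈ US K (Above K S)` and `x = (z / b) / σ (z / b)`. -/
theorem h1_units {k : Type} [Field k] [NumberField k] {K : Type} [Field K] [NumberField K]
    [Algebra k K] {a : kˣ} {α : K} (hK : Quad a K α) {S : Set (HeightOneSpectrum (𝓞 k))}
    (hb : Big S) (hu : Unram K S) (σ : K ≃ₐ[k] K) (hσ : σ α = -α) (hσ2 : ∀ x, σ (σ x) = x)
    (x : Kˣ) (hx : x ∈ US K (Above K S)) (hx1 : (x : K) * σ x = 1) :
    ∃ z ∈ US K (Above K S), (x : K) = (z : K) / σ (z : K) := by
  have hα : α ≠ 0 := by
    intro h
    have h1 := hK.sq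
    rw [h, zero_pow two_ne_zero] at h1
    exact a.ne_zero ((map_eq_zero _).1 h1.symm)
  -- Hilbert 90
  obtain ⟨z, hz⟩ : ∃ z : Kˣ, (x : K) * σ z = z := by
    by_cases h : (x : K) = -1
    · refine ⟨Units.mk0 α hα, ?_⟩
      rw [Units.val_mk0, hσ, h]
      ring
    · have h1 : 1 + (x : K) ≠ 0 := fun h' => h (eq_neg_of_add_eq_zero_right h')
      refine ⟨Units.mk0 _ h1, ?_⟩
      rw [Units.val_mk0, map_add, map_one, mul_add, mul_one, hx1, add_comm]
  -- the norm
  obtain ⟨c, hc⟩ : ∃ c : kˣ, (z : K) * σ z = algebraMap k K c := by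
    obtain ⟨s, t, hst⟩ := H1v_span hK (z : K)
    have h1 : (z : K) * σ z = algebraMap k K (s ^ 2 - t ^ 2 * a) := by
      rw [hst, map_add, map_mul, hσ, AlgEquiv.commutes, AlgEquiv.commutes, map_sub, map_pow,
        map_mul, map_pow, ← hK.sq]
      ring
    have h2 : s ^ 2 - t ^ 2 * (a : k) ≠ 0 := by
      intro h0
      rw [h0, map_zero] at h1
      rcases mul_eq_zero.1 h1 with h3 | h3
      · exact z.ne_zero h3
      · exact z.ne_zero ((map_eq_zero σ).1 h3)
    exact ⟨Units.mk0 _ h2, h1⟩
  obtain ⟨b, hbv⟩ := H1v_elt hb (fun v => WithZero.log (v.valuation k (c : k)) / 2)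
    ((H1v_fin c).subset fun v hv h => hv (by
      show WithZero.log (v.valuation k (c : k)) / 2 = 0
      rw [h]
      rfl))
  -- the valuations of `z`
  have hwz : ∀ w : HeightOneSpectrum (𝓞 K), w.under (𝓞 k) ∉ S →
      w.valuation K (algebraMap k K (b : k)) = w.valuation K (z : K) := by
    intro w hw
    have h1 : w.valuation K (x : K) = 1 := hx w hw
    have h2 : w.valuation K (z : K) = w.valuation K (σ z) := by
      conv_lhs => rw [← hz]
      rw [map_mul, h1, one_mul]
    have h3 : (w.under (𝓞 k)).valuation k (c : k) =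
        w.valuation K (z : K) * w.valuation K (z : K) := by
      rw [← hu w hw, ← hc, map_mul, ← h2]
    have h4 : w.valuation K (z : K) ≠ 0 := (w.valuation K).ne_zero_iff.2 z.ne_zero
    rw [hu w hw, hbv _ hw, h3, WithZero.log_mul h4 h4]
    have h5 : (WithZero.log (w.valuation K (z : K)) + WithZero.log (w.valuation K (z : K))) / 2 =
        WithZero.log (w.valuation K (z : K)) := by
      omega
    rw [h5, WithZero.exp_log h4]
  have hbK : algebraMap k K (b : k) ≠ 0 := (map_ne_zero _).2 b.ne_zero
  refine ⟨z / Units.map (algebraMap k K : k →* K) b, ?_, ?_⟩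
  · rw [mem_US]
    intro w hw
    have h1 := hwz w hw
    have h4 : w.valuation K (z : K) ≠ 0 := (w.valuation K).ne_zero_iff.2 z.ne_zero
    rw [Units.val_div_eq_div_val, Units.coe_map, map_div₀]
    show w.valuation K (z : K) / w.valuation K (algebraMap k K (b : k)) = 1
    rw [h1, div_self h4]
  · have hσz : σ (z : K) ≠ 0 := (map_ne_zero σ).2 z.ne_zero
    rw [Units.val_div_eq_div_val, Units.coe_map, map_div₀]
    show (x : K) = (z : K) / algebraMap k K (b : k) / (σ (z : K) / σ (algebraMap k K (b : k)))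
    rw [AlgEquiv.commutes, div_div_div_cancel_right₀ hbK, eq_div_iff hσz]
    exact hz

end HN83
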