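import Mathlib

/-! The places of a number field; local squares and local norms. -/

set_option autoImplicit false

open NumberField IsDedekindDomain

namespace HN83

/-- all places of a number field -/
abbrev Pla (k : Type) [Field k] [NumberField k] : Type := InfinitePlace k ⊕ HeightOneSpectrum (𝓞 k)

section
variable {k : Type} [Field k] [NumberField k]

/-- the completion at a place -/
def Cv : Pla k → Type
  | Sum.inl v => v.Completion
  | Sum.inr v => v.adicCompletion k

noncomputable instance instFieldCv : ∀ v : Pla k, Field (Cv v)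
  | Sum.inl v => inferInstanceAs (Field v.Completion)
  | Sum.inr v => inferInstanceAs (Field (v.adicCompletion k))

/-- the embedding in the completion -/
noncomputable def ev : ∀ v : Pla k, k →+* Cv v
  | Sum.inl v => algebraMap k v.Completion
  | Sum.inr v => algebraMap k (v.adicCompletion k)

/-- the elements of `k` which are squares in the completion at `v` -/
def sqG (v : Pla k) : Subgroup kˣ where
  carrier := {x | IsSquare (ev v (x : k))}
  mul_mem' := by
    intro x y hx hy
    show IsSquare (ev v ((x * y : kˣ) : k))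
    rw [Units.val_mul, map_mul]
    exact hx.mul hy
  one_mem' := by
    show IsSquare (ev v ((1 : kˣ) : k))
    rw [Units.val_one, map_one]
    exact IsSquare.one
  inv_mem' := by
    intro x hx
    show IsSquare (ev v ((x⁻¹ : kˣ) : k))
    rw [Units.val_inv_eq_inv_val, map_inv₀]
    exact IsSquare.inv hx

theorem mem_sqG {v : Pla k} {x : kˣ} : x ∈ sqG v ↔ IsSquare (ev v (x : k)) := Iff.rfl

/-- the elements of `k` which are norms from the extension of the completion at `v` by the square root
of `a` -/
def nmG (v : Pla k) (a : k) : Subgroup kˣ where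
  carrier := {x | ∃ s t : Cv v, ev v (x : k) = s ^ 2 - ev v a * t ^ 2}
  mul_mem' := by
    rintro x y ⟨s, t, h⟩ ⟨s', t', h'⟩
    refine ⟨s * s' + ev v a * t * t', s * t' + s' * t, ?_⟩
    rw [Units.val_mul, map_mul, h, h']
    ring
  one_mem' := ⟨1, 0, by rw [Units.val_one, map_one]; ring⟩
  inv_mem' := by
    rintro x ⟨s, t, h⟩
    have hx : ev v (x : k) ≠ 0 := (map_ne_zero (ev v)).2 x.ne_zero
    refine ⟨s / ev v (x : k), t / ev v (x : k), ?_⟩
    rw [Units.val_inv_eq_inv_val, map_inv₀]
    field_simp
    linear_combination h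

theorem mem_nmG {v : Pla k} {a : k} {x : kˣ} :
    x ∈ nmG v a ↔ ∃ s t : Cv v, ev v (x : k) = s ^ 2 - ev v a * t ^ 2 := Iff.rfl

theorem sqG_le_nmG (v : Pla k) (a : k) : sqG v ≤ nmG v a := by
  rintro x ⟨r, hr⟩
  exact ⟨r, 0, by rw [hr]; ring⟩

/-- if `a` is a local square then everything is a local norm -/
theorem nmG_eq_top {v : Pla k} {a : kˣ} (ha : a ∈ sqG v) : nmG v (a : k) = ⊤ := by
  obtain ⟨r, hr⟩ := ha
  rw [eq_top_iff]
  intro x _
  have h2 : (2 : Cv v) ≠ 0 := by
    have h := (map_ne_zero (ev v)).2 (two_ne_zero (α := k))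
    rwa [map_ofNat] at h
  have hr0 : r ≠ 0 := by
    intro h
    have h1 : ev v (a : k) ≠ 0 := (map_ne_zero (ev v)).2 a.ne_zero
    rw [hr, h, mul_zero] at h1
    exact h1 rfl
  refine ⟨(ev v (x : k) + 1) / 2, (ev v (x : k) - 1) / (2 * r), ?_⟩
  rw [hr]
  field_simp
  ring

end

section
variable (k : Type) [Field k] [NumberField k]

/-- the `S`-units -/
noncomputable def US (S : Set (HeightOneSpectrum (𝓞 k))) : Subgroup kˣ := S.unit k

variable {k}

theorem mem_US {S : Set (HeightOneSpectrum (𝓞 k))} {x : kˣ} :
    x ∈ US k S ↔ ∀ v, v ∉ S → v.valuation k (x : k) = 1 := Iff.rfl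

/-- the squares of the `S`-units -/
noncomputable def sqU (S : Set (HeightOneSpectrum (𝓞 k))) : Subgroup kˣ := (US k S).map (powMonoidHom 2)

/-- `S` contains the places above two and kills the class group -/
structure Big (S : Set (HeightOneSpectrum (𝓞 k))) : Prop where
  fin : S.Finite
  two : ∀ v, v ∉ S → v.valuation k (2 : k) = 1
  prim : ∀ v, v ∉ S → ∃ y : kˣ, v.valuation k (y : k) = WithZero.exp (-1) ∧
    ∀ w, w ∉ S → w ≠ v → w.valuation k (y : k) = 1

end

/-- a quadratic extension `K = k(α)`, `α² = a` -/
structure Quad {k : Type} [Field k] [NumberField k] (a : kˣ) (K : Type) [Field K] [NumberField K]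
    [Algebra k K] (α : K) : Prop where
  sq : α ^ 2 = algebraMap k K (a : k)
  rank : Module.finrank k K = 2
  nsq : ¬ IsSquare (a : k)

/-- the places of `K` above `S` -/
def Above {k : Type} [Field k] [NumberField k] (K : Type) [Field K] [NumberField K] [Algebra k K]
    (S : Set (HeightOneSpectrum (𝓞 k))) : Set (HeightOneSpectrum (𝓞 K)) :=
  {w | w.under (𝓞 k) ∈ S}

/-- `K/k` is unramified outside `S` (for the valuations) -/
def Unram {k : Type} [Field k] [NumberField k] (K : Type) [Field K] [NumberField K] [Algebra k K]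
    (S : Set (HeightOneSpectrum (𝓞 k))) : Prop :=
  ∀ w : HeightOneSpectrum (𝓞 K), w.under (𝓞 k) ∉ S → ∀ x : k,
    w.valuation K (algebraMap k K x) = (w.under (𝓞 k)).valuation k x

/-- the number of places of `S` and of infinite places which are not split in `k(√a)` -/
noncomputable def nsp {k : Type} [Field k] [NumberField k] (a : kˣ)
    (S : Set (HeightOneSpectrum (𝓞 k))) : ℕ :=
  {v | v ∈ S ∧ a ∉ sqG (Sum.inr v : Pla k)}.ncard +
    {v : InfinitePlace k | a ∉ sqG (Sum.inl v : Pla k)}.ncard

/-- the norms of the units above `S` -/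
noncomputable def NU {k : Type} [Field k] [NumberField k] (K : Type) [Field K] [NumberField K]
    [Algebra k K] (S : Set (HeightOneSpectrum (𝓞 k))) : Subgroup kˣ :=
  (US K (Above K S)).map (Units.map (Algebra.norm k : K →* k))

end HN83
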