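import Pool.Agent.H.MP_83e36b_nt.hn.Chn

/-! Elements which are local squares. -/

set_option autoImplicit false

open NumberField IsDedekindDomain

namespace HN83

/-- An element of `kˣ` with given valuations at the places of `T`, a unit at the other places outside `S`. -/
private theorem KerP_pick {k : Type} [Field k] [NumberField k] {S : Set (HeightOneSpectrum (𝓞 k))}
    (hb : Big S) (x : kˣ) (T : Finset (HeightOneSpectrum (𝓞 k))) (hT : ∀ w ∈ T, w ∉ S) :
    ∃ y : kˣ, (∀ w ∈ T, w.valuation k (y : k) = w.valuation k (x : k)) ∧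
      ∀ w, w ∉ S → w ∉ T → w.valuation k (y : k) = 1 := by
  classical
  induction T using Finset.induction_on with
  | empty => exact ⟨1, fun w hw => absurd hw (Finset.notMem_empty w), fun w _ _ => by
      rw [Units.val_one, map_one]⟩
  | insert w₀ T hw₀ ih =>
    obtain ⟨y, hy1, hy2⟩ := ih fun w hw => hT w (Finset.mem_insert_of_mem hw)
    have hw₀S : w₀ ∉ S := hT w₀ (Finset.mem_insert_self w₀ T)
    obtain ⟨p, hp1, hp2⟩ := hb.prim w₀ hw₀S
    have hx0 : w₀.valuation k (x : k) ≠ 0 := (map_ne_zero _).2 x.ne_zero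
    obtain ⟨m, hm⟩ : ∃ m : ℤ, w₀.valuation k (x : k) = WithZero.exp m :=
      ⟨WithZero.log (w₀.valuation k (x : k)), (WithZero.exp_log hx0).symm⟩
    have hy0 : w₀.valuation k (y : k) = 1 := hy2 w₀ hw₀S hw₀
    refine ⟨y * p ^ (-m), fun w hw => ?_, fun w hwS hw => ?_⟩
    · rcases Finset.mem_insert.1 hw with rfl | hw'
      · rw [Units.val_mul, Units.val_zpow_eq_zpow_val, map_mul, map_zpow₀, hy0, hp1, hm, one_mul,
          ← WithZero.exp_zsmul]
        congr 1
        simp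
      · have hne : w ≠ w₀ := fun h => hw₀ (h ▸ hw')
        rw [Units.val_mul, Units.val_zpow_eq_zpow_val, map_mul, map_zpow₀,
          hp2 w (hT w (Finset.mem_insert_of_mem hw')) hne, one_zpow, mul_one]
        exact hy1 w hw'
    · have hne : w ≠ w₀ := fun h => hw (h ▸ Finset.mem_insert_self w₀ T)
      rw [Units.val_mul, Units.val_zpow_eq_zpow_val, map_mul, map_zpow₀, hp2 w hwS hne, one_zpow,
        mul_one]
      exact hy2 w hwS fun h => hw (Finset.mem_insert_of_mem h)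

/-- Proof.  Suppose `b` is not a square; `K = k(√b)` (`exists_quad` for `b`).  `S1 = S ∪ Set.range v`; `S2 ⊇ S1` finite,
containing the sets of `exists_big`, `exists_unram` for `b` (so `b ∈ US k S2`, `Big S2`, `Unram K S2`).
`count_contra` for `b`, `S2`: given `x : kˣ`: with the `y_w` of `hb.prim w` for the `w ∈ S2 ∖ S` (finitely many) there is
`y : kˣ` with `w y = w x` for `w ∈ S2 ∖ S` and `w y = 1` for `w ∉ S2`, so `y ∈ US k S2`.  `x / y` is a unit at all
`w ∈ S2 ∖ S`, in particular at the `v i`: `Chain.solve` gives `c ∈ US k S` with `c * (x / y) ∈ sqG (v i)` for all `i`.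
`u = c / y ∈ US k S2`.  `u x` is in `nmG w b`: for `w` infinite or in `S`: `b ∈ sqG w`, `nmG_eq_top`; for `w = v i`:
`sqG_le_nmG`; for `w ∈ S2 ∖ S1`: `b` and `u x` are units at `w`, not above two (`hb.two`), `odd_nm`. -/
theorem ker_sq {k : Type} [Field k] [NumberField k] {a : kˣ} {S : Set (HeightOneSpectrum (𝓞 k))}
    (hb : Big S) {r : ℕ} {v : Fin r → HeightOneSpectrum (𝓞 k)} {u : Fin r → kˣ}
    (h : Chain a S r v u) (b : kˣ) (hbS : b ∈ US k (S ∪ Set.range v))
    (hsq : ∀ w ∈ Sig hb.fin, b ∈ sqG w) : IsSquare (b : k) := by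
  classical
  by_contra hns
  obtain ⟨K, iK1, iK2, iK3, β, hK⟩ := exists_quad b hns
  obtain ⟨S0, hS0f, hS0⟩ := exists_big k
  obtain ⟨S0', hS0'f, hS0'⟩ := exists_unram hK
  have hfin : ((S ∪ Set.range v) ∪ (S0 ∪ S0')).Finite :=
    (hb.fin.union (Set.finite_range v)).union (hS0f.union hS0'f)
  have hb2 : Big ((S ∪ Set.range v) ∪ (S0 ∪ S0')) :=
    hS0 _ hfin fun w hw => Or.inr (Or.inl hw)
  have hu2 : Unram K ((S ∪ Set.range v) ∪ (S0 ∪ S0')) := hS0' _ fun w hw => Or.inr (Or.inr hw)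
  have hbU : b ∈ US k ((S ∪ Set.range v) ∪ (S0 ∪ S0')) :=
    mem_US.2 fun w hw => mem_US.1 hbS w fun h' => hw (Or.inl h')
  refine count_contra hK hb2 hu2 hbU fun x => ?_
  obtain ⟨y, hy1, hy2⟩ := KerP_pick hb x (hfin.toFinset.filter fun w => w ∉ S)
    (fun w hw => (Finset.mem_filter.1 hw).2)
  have hxy : ∀ w, w ∈ (S ∪ Set.range v) ∪ (S0 ∪ S0') → w ∉ S →
      w.valuation k ((x / y : kˣ) : k) = 1 := by
    intro w hw hwS
    have h1 := hy1 w (Finset.mem_filter.2 ⟨hfin.mem_toFinset.2 hw, hwS⟩)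
    have hx0 : w.valuation k (x : k) ≠ 0 := (map_ne_zero _).2 x.ne_zero
    rw [Units.val_div_eq_div_val, map_div₀, h1, div_self hx0]
  obtain ⟨c, hcS, hc⟩ := h.solve hb (x / y) fun i =>
    hxy (v i) (Or.inl (Or.inr ⟨i, rfl⟩)) (h.out i)
  have hyU : ∀ w, w ∉ (S ∪ Set.range v) ∪ (S0 ∪ S0') → w.valuation k (y : k) = 1 := by
    intro w hw
    exact hy2 w (fun h' => hw (Or.inl (Or.inl h'))) fun h' =>
      hw (hfin.mem_toFinset.1 (Finset.mem_filter.1 h').1)
  have hux : c / y * x = c * (x / y) := by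
    rw [div_mul_eq_mul_div, mul_div_assoc]
  refine ⟨c / y, mem_US.2 fun w hw => ?_, fun w hw => ?_⟩
  · rw [Units.val_div_eq_div_val, map_div₀, hyU w hw,
      mem_US.1 hcS w fun h' => hw (Or.inl (Or.inl h')), div_one]
  · rw [hux]
    rcases (mem_Sig hb2.fin w).1 hw with ⟨w, rfl⟩ | ⟨w, hw2, rfl⟩
    · rw [nmG_eq_top (hsq _ ((mem_Sig hb.fin _).2 (Or.inl ⟨w, rfl⟩)))]
      exact Subgroup.mem_top _
    · by_cases hwS : w ∈ S
      · rw [nmG_eq_top (hsq _ ((mem_Sig hb.fin _).2 (Or.inr ⟨w, hwS, rfl⟩)))]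
        exact Subgroup.mem_top _
      · by_cases hwv : w ∈ Set.range v
        · obtain ⟨i, rfl⟩ := hwv
          exact sqG_le_nmG _ _ (hc i)
        · refine odd_nm (hb.two w hwS) (mem_US.1 hbS w fun h' => h'.elim hwS hwv) ?_
          rw [Units.val_mul, map_mul, mem_US.1 hcS w hwS, hxy w hw2 hwS, one_mul]

end HN83
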