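import Pool.Agent.H.MP_83e36b_nt.hn.HDef

/-! Quadratic extensions. -/

set_option autoImplicit false

open NumberField IsDedekindDomain

namespace HN83

/-- Proof: `K = AdjoinRoot (X^2 - C a)` (irreducible, `X_pow_sub_C_irreducible_iff...` or degree two without
roots), finite over `k`, so a number field. -/
theorem exists_quad {k : Type} [Field k] [NumberField k] (a : kˣ) (ha : ¬ IsSquare (a : k)) :
    ∃ (K : Type) (_ : Field K) (_ : NumberField K) (_ : Algebra k K) (α : K), Quad a K α := by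
  have hirr : Irreducible (Polynomial.X ^ 2 - Polynomial.C (a : k)) := by
    refine X_pow_sub_C_irreducible_of_prime Nat.prime_two fun b hb => ha ⟨b, ?_⟩
    rw [← hb, sq]
  have : Fact (Irreducible (Polynomial.X ^ 2 - Polynomial.C (a : k))) := ⟨hirr⟩
  have hmon : (Polynomial.X ^ 2 - Polynomial.C (a : k)).Monic :=
    Polynomial.monic_X_pow_sub_C _ two_ne_zero
  have hne : (Polynomial.X ^ 2 - Polynomial.C (a : k)) ≠ 0 := hmon.ne_zero
  have hfin : Module.Finite k (AdjoinRoot (Polynomial.X ^ 2 - Polynomial.C (a : k))) :=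
    (AdjoinRoot.powerBasis hne).finite
  have hnf : NumberField (AdjoinRoot (Polynomial.X ^ 2 - Polynomial.C (a : k))) :=
    NumberField.of_module_finite k _
  refine ⟨AdjoinRoot (Polynomial.X ^ 2 - Polynomial.C (a : k)), inferInstance, hnf, inferInstance,
    AdjoinRoot.root _, ?_, ?_, ha⟩
  · have h := AdjoinRoot.eval₂_root (Polynomial.X ^ 2 - Polynomial.C (a : k))
    rw [Polynomial.eval₂_sub, Polynomial.eval₂_pow, Polynomial.eval₂_X, Polynomial.eval₂_C, sub_eq_zero] at h
    exact h
  · rw [(AdjoinRoot.powerBasis hne).finrank, AdjoinRoot.powerBasis_dim,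
      Polynomial.natDegree_X_pow_sub_C]

private theorem Qx_span {k : Type} [Field k] [NumberField k] {K : Type} [Field K] [NumberField K]
    [Algebra k K] {a : kˣ} {α : K} (hK : Quad a K α) (x : K) :
    ∃ s t : k, x = algebraMap k K s + algebraMap k K t * α := by
  have hα : ∀ b : k, algebraMap k K b ≠ α := by
    intro b hb
    apply hK.nsq
    refine ⟨b, ?_⟩
    apply (algebraMap k K).injective
    rw [← hK.sq, ← hb, map_mul, sq]
  have hli : LinearIndependent k ![(1 : K), α] := by
    rw [LinearIndependent.pair_iff]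
    intro s t h
    have ht : t = 0 := by
      by_contra ht
      apply hα (-(s / t))
      rw [map_neg, map_div₀]
      rw [Algebra.smul_def, Algebra.smul_def, mul_one] at h
      have ht' : algebraMap k K t ≠ 0 := (map_ne_zero _).2 ht
      field_simp
      linear_combination (-1 : K) * h
    refine ⟨?_, ht⟩
    rw [ht, zero_smul, add_zero, Algebra.smul_def, mul_one] at h
    exact (map_eq_zero _).1 h
  have hfin : FiniteDimensional k K := Module.finite_of_finrank_eq_succ hK.rank
  have hsp := hli.span_eq_top_of_card_eq_finrank (by rw [hK.rank]; rfl)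
  have hx : x ∈ Submodule.span k (Set.range ![(1 : K), α]) := by rw [hsp]; trivial
  rw [Matrix.range_cons, Matrix.range_cons, Matrix.range_empty, Set.union_empty,
    Set.singleton_union, Submodule.mem_span_pair] at hx
  obtain ⟨s, t, h⟩ := hx
  refine ⟨s, t, ?_⟩
  rw [← h, Algebra.smul_def, Algebra.smul_def, mul_one]

/-- Proof: `1, α` is a basis of `K/k` (`α ∉ k` since `a` is not a square in `k`; dimension two); `K/k` is Galois
(splitting field of `X² - a`), `σ` the nontrivial automorphism; or define `σ` on the basis. -/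
theorem Quad.exists_conj {k : Type} [Field k] [NumberField k] {K : Type} [Field K] [NumberField K]
    [Algebra k K] {a : kˣ} {α : K} (hK : Quad a K α) : ∃ σ : K ≃ₐ[k] K, σ α = -α ∧
      (∀ x, σ (σ x) = x) ∧ (∀ x, σ x = x ↔ ∃ y, x = algebraMap k K y) ∧
      (∀ x, algebraMap k K (Algebra.norm k x) = x * σ x) ∧
      ∀ x : K, ∃ s t : k, x = algebraMap k K s + algebraMap k K t * α := by
  have : Algebra.IsQuadraticExtension k K := { finrank_eq_two' := hK.rank }
  have hcard : Nat.card (K ≃ₐ[k] K) = 2 := by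
    rw [IsGalois.card_aut_eq_finrank, hK.rank]
  have hα0 : α ≠ 0 := by
    intro h
    have h1 := hK.sq
    rw [h, zero_pow two_ne_zero] at h1
    exact (map_ne_zero (algebraMap k K)).2 a.ne_zero h1.symm
  have : Finite (K ≃ₐ[k] K) := Nat.finite_of_card_ne_zero (by rw [hcard]; norm_num)
  have : Nontrivial (K ≃ₐ[k] K) := by
    rw [← Finite.one_lt_card_iff_nontrivial, hcard]
    norm_num
  obtain ⟨σ, hσ⟩ := exists_ne (1 : K ≃ₐ[k] K)
  have hσα : σ α = -α := by
    have h1 : (σ α) ^ 2 = α ^ 2 := by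
      rw [← map_pow, hK.sq, AlgEquiv.commutes]
    rcases sq_eq_sq_iff_eq_or_eq_neg.1 h1 with h | h
    · exfalso
      apply hσ
      ext x
      obtain ⟨s, t, hx⟩ := Qx_span hK x
      rw [hx, map_add, map_mul, AlgEquiv.commutes, AlgEquiv.commutes, h]
      rfl
    · exact h
  refine ⟨σ, hσα, ?_, ?_, ?_, Qx_span hK⟩
  · intro x
    obtain ⟨s, t, hx⟩ := Qx_span hK x
    rw [hx]
    simp only [map_add, map_mul, AlgEquiv.commutes, hσα, map_neg, neg_neg]
  · intro x
    constructor
    · intro h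
      obtain ⟨s, t, hx⟩ := Qx_span hK x
      refine ⟨s, ?_⟩
      rw [hx, map_add, map_mul, AlgEquiv.commutes, AlgEquiv.commutes, hσα] at h
      have h2 : 2 * (algebraMap k K t * α) = 0 := by linear_combination (-1 : K) * h
      rw [mul_eq_zero] at h2
      rcases h2 with h2 | h2
      · exact absurd h2 two_ne_zero
      · rw [hx, h2, add_zero]
    · rintro ⟨y, rfl⟩
      exact AlgEquiv.commutes _ _
  · intro x
    rw [Algebra.norm_eq_prod_automorphisms]
    classical
    have huniv : (Finset.univ : Finset (K ≃ₐ[k] K)) = {1, σ} := by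
      symm
      apply Finset.eq_univ_of_card
      rw [Finset.card_pair (Ne.symm hσ), ← Nat.card_eq_fintype_card, hcard]
    rw [huniv, Finset.prod_pair (Ne.symm hσ)]
    rfl

/-- Proof: `x = s + t α`, `N x = s² - a t²`; apply `ev v`. -/
theorem NU_le_nmG {k : Type} [Field k] [NumberField k] {K : Type} [Field K] [NumberField K]
    [Algebra k K] {a : kˣ} {α : K} (hK : Quad a K α) (S : Set (HeightOneSpectrum (𝓞 k)))
    (v : Pla k) : NU K S ≤ nmG v (a : k) := by
  intro x hx
  obtain ⟨z, _, rfl⟩ := Subgroup.mem_map.1 hx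
  obtain ⟨σ, hσα, _, _, hN, hsp⟩ := hK.exists_conj
  obtain ⟨s, t, hz⟩ := hsp (z : K)
  rw [mem_nmG]
  refine ⟨ev v s, ev v t, ?_⟩
  rw [← map_pow, ← map_pow, ← map_mul, ← map_sub]
  congr 1
  apply (algebraMap k K).injective
  show algebraMap k K (Algebra.norm k (z : K)) = _
  rw [hN, hz, map_add, map_mul, AlgEquiv.commutes, AlgEquiv.commutes, hσα, map_sub, map_mul, map_pow,
    map_pow, ← hK.sq]
  ring

private theorem Qx_val_conj {k : Type} [Field k] [NumberField k] {K : Type} [Field K] [NumberField K]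
    [Algebra k K] (σ : K ≃ₐ[k] K) (w : HeightOneSpectrum (𝓞 K)) (z : K)
    (h : ∀ w' : HeightOneSpectrum (𝓞 K), w'.under (𝓞 k) = w.under (𝓞 k) → w'.valuation K z = 1) :
    w.valuation K (σ z) = 1 := by
  set τ : 𝓞 K ≃+* 𝓞 K := RingOfIntegers.mapRingEquiv σ.toRingEquiv with hτ
  have hτa : ∀ x : 𝓞 K, ((τ x : 𝓞 K) : K) = σ (x : K) := fun x => rfl
  let w' : HeightOneSpectrum (𝓞 K) := HeightOneSpectrum.comap (τ : 𝓞 K →+* 𝓞 K) τ.surjective w
  have hmem : ∀ x : 𝓞 K, x ∈ w'.asIdeal ↔ τ x ∈ w.asIdeal := fun x => Iff.rfl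
  have hu : w'.under (𝓞 k) = w.under (𝓞 k) := by
    have hτk : ∀ y : 𝓞 k, τ (algebraMap (𝓞 k) (𝓞 K) y) = algebraMap (𝓞 k) (𝓞 K) y := by
      intro y
      apply RingOfIntegers.ext
      rw [hτa]
      exact σ.commutes _
    ext y
    show algebraMap (𝓞 k) (𝓞 K) y ∈ w'.asIdeal ↔ algebraMap (𝓞 k) (𝓞 K) y ∈ w.asIdeal
    rw [hmem, hτk]
  have h1 := h w' hu
  obtain ⟨n, d, hnd⟩ := w'.exists_primeCompl_mul_eq_of_integer z h1.le
  have hn : w'.valuation K (algebraMap (𝓞 K) K n) = 1 := by
    rw [← hnd, map_mul, h1, one_mul]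
    exact (HeightOneSpectrum.valuation_eq_one_iff_notMem _).2 d.2
  have hn' : n ∉ w'.asIdeal := (HeightOneSpectrum.valuation_eq_one_iff_notMem _).1 hn
  have h2 : σ z * algebraMap (𝓞 K) K (τ d) = algebraMap (𝓞 K) K (τ n) := by
    have h3 := congrArg σ hnd
    rw [map_mul] at h3
    exact h3
  have hd2 : w.valuation K (algebraMap (𝓞 K) K (τ d)) = 1 :=
    (HeightOneSpectrum.valuation_eq_one_iff_notMem _).2 fun h => d.2 ((hmem _).2 h)
  have hn2 : w.valuation K (algebraMap (𝓞 K) K (τ n)) = 1 :=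
    (HeightOneSpectrum.valuation_eq_one_iff_notMem _).2 fun h => hn' ((hmem _).2 h)
  have h4 := congrArg (w.valuation K) h2
  rw [map_mul, hd2, hn2, mul_one] at h4
  exact h4

/-- Proof: the norm of a unit above `S` is a unit above `S`: for `v ∉ S` and the places `w` over `v`; e.g.
`w.valuation K z = 1` for all `w` over `v`; choose one `w` over `v` (lying over, `𝓞 K` is integral over `𝓞 k`);
`algebraMap (N z) = z * σ z`, `w (σ z) = 1` since `w ∘ σ` is the valuation of the place `σ⁻¹ w`, also over `v`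
(or: `z, z⁻¹` are integral over the localisation of `𝓞 k` at `v`, so are their norms); then
`v.valuation k (N z) ^ e = w.valuation K (N z) = 1` (`valuation_liesOver`), so it is `1`. -/
theorem NU_le_US {k : Type} [Field k] [NumberField k] {K : Type} [Field K] [NumberField K]
    [Algebra k K] {a : kˣ} {α : K} (hK : Quad a K α) (S : Set (HeightOneSpectrum (𝓞 k))) :
    NU K S ≤ US k S := by
  intro x hx
  obtain ⟨z, hz, rfl⟩ := Subgroup.mem_map.1 hx
  obtain ⟨σ, hσα, _, _, hN, hsp⟩ := hK.exists_conj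
  rw [mem_US]
  intro v hv
  obtain ⟨P, hP, hPv⟩ := v.asIdeal.exists_ideal_over_prime_of_isIntegral_of_isDomain (S := 𝓞 K)
    (by
      rw [(RingHom.injective_iff_ker_eq_bot _).1 (FaithfulSMul.algebraMap_injective (𝓞 k) (𝓞 K))]
      exact bot_le)
  have hPb : P ≠ ⊥ := by
    rintro rfl
    apply v.ne_bot
    rw [← hPv]
    exact (RingHom.injective_iff_ker_eq_bot _).1 (FaithfulSMul.algebraMap_injective (𝓞 k) (𝓞 K))
  let w : HeightOneSpectrum (𝓞 K) := ⟨P, hP, hPb⟩
  have hwu : w.under (𝓞 k) = v := by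
    ext1
    exact hPv
  have hall : ∀ w' : HeightOneSpectrum (𝓞 K), w'.under (𝓞 k) = w.under (𝓞 k) →
      w'.valuation K (z : K) = 1 := by
    intro w' hw'
    refine mem_US.1 hz w' ?_
    show w'.under (𝓞 k) ∉ S
    rw [hw', hwu]
    exact hv
  have h1 : w.valuation K (algebraMap k K (Algebra.norm k (z : K))) = 1 := by
    rw [hN, map_mul, hall w rfl, Qx_val_conj σ w z hall, one_mul]
  have : w.asIdeal.LiesOver v.asIdeal := ⟨hPv.symm⟩
  have h2 := HeightOneSpectrum.valuation_liesOver K v w (Algebra.norm k (z : K))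
  rw [h1] at h2
  have h3 : v.asIdeal.ramificationIdx' w.asIdeal ≠ 0 :=
    Ideal.IsDedekindDomain.ramificationIdx'_ne_zero_of_liesOver w.asIdeal v.ne_bot
  show v.valuation k (Algebra.norm k (z : K)) = 1
  exact (pow_eq_one_iff_of_nonneg zero_le h3).1 h2

end HN83
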