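import Pool.Agent.H.MP_83e36b_nt.hn.HDef
import Pool.Agent.H.MP_83e36b_nt.hn.Qx

/-! The number of the places of a quadratic extension above given places. -/

set_option autoImplicit false

open NumberField IsDedekindDomain

namespace HN83

variable {k : Type} [Field k] [NumberField k] {K : Type} [Field K] [NumberField K]
    [Algebra k K] {a : kˣ} {α : K}

/-- Proof: lying over. -/
theorem exists_above (v : HeightOneSpectrum (𝓞 k)) :
    ∃ w : HeightOneSpectrum (𝓞 K), w.under (𝓞 k) = v := by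
  have hinj : Function.Injective (algebraMap (𝓞 k) (𝓞 K)) := FaithfulSMul.algebraMap_injective _ _
  obtain ⟨P, hP, hPv⟩ := Ideal.exists_ideal_over_prime_of_isIntegral_of_isDomain (S := 𝓞 K)
    v.asIdeal (by
      rw [(RingHom.injective_iff_ker_eq_bot _).1 hinj]
      exact bot_le)
  refine ⟨⟨P, hP, ?_⟩, HeightOneSpectrum.ext hPv⟩
  rintro rfl
  refine v.ne_bot ?_
  rw [← hPv, Ideal.comap_bot_of_injective _ hinj]

/-- the image of a place under an automorphism -/
private theorem PlA_conj (σ : K ≃ₐ[k] K) (w : HeightOneSpectrum (𝓞 K)) :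
    ∃ w' : HeightOneSpectrum (𝓞 K), w'.under (𝓞 k) = w.under (𝓞 k) ∧
      ∀ x : K, w'.valuation K x = w.valuation K (σ x) := by
  obtain ⟨τ, hτ⟩ : ∃ τ : 𝓞 K ≃+* 𝓞 K, ∀ x : 𝓞 K, ((τ x : 𝓞 K) : K) = σ (x : K) :=
    ⟨RingOfIntegers.mapRingEquiv (σ : K ≃+* K), fun _ => rfl⟩
  have hcomap : ∀ I : Ideal (𝓞 K), I.comap (τ : 𝓞 K →+* 𝓞 K) =
      I.map (τ.symm : 𝓞 K →+* 𝓞 K) := by
    intro I
    exact (Ideal.map_symm τ).symm
  have hne : w.asIdeal.comap (τ : 𝓞 K →+* 𝓞 K) ≠ ⊥ := by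
    rw [hcomap]
    intro h
    exact w.ne_bot ((Ideal.map_eq_bot_iff_of_injective
      (f := (τ.symm : 𝓞 K →+* 𝓞 K)) τ.symm.injective).1 h)
  obtain ⟨w', hw'⟩ : ∃ w' : HeightOneSpectrum (𝓞 K),
      w'.asIdeal = w.asIdeal.comap (τ : 𝓞 K →+* 𝓞 K) :=
    ⟨⟨_, Ideal.IsPrime.comap _, hne⟩, rfl⟩
  have hint : ∀ x : 𝓞 K, w'.intValuation x = w.intValuation (τ x) := by
    intro x
    have hn : ∀ n : ℕ, w'.intValuation x ≤ WithZero.exp (-(n : ℤ)) ↔
        w.intValuation (τ x) ≤ WithZero.exp (-(n : ℤ)) := by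
      intro n
      rw [HeightOneSpectrum.intValuation_le_pow_iff_mem,
        HeightOneSpectrum.intValuation_le_pow_iff_mem, hw', hcomap, ← Ideal.map_pow, ← hcomap]
      rfl
    by_cases hx : x = 0
    · rw [hx, map_zero, map_zero, map_zero]
    · have hτx : τ x ≠ 0 := fun h => hx (τ.map_eq_zero_iff.1 h)
      have h1 := HeightOneSpectrum.intValuation_eq_exp_neg_multiplicity w' hx
      have h2 := HeightOneSpectrum.intValuation_eq_exp_neg_multiplicity w hτx
      refine le_antisymm ?_ ?_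
      · rw [h2]
        exact (hn _).2 (le_of_eq h2)
      · rw [h1]
        exact (hn _).1 (le_of_eq h1)
  refine ⟨w', ?_, ?_⟩
  · refine HeightOneSpectrum.ext ?_
    show w'.asIdeal.comap (algebraMap (𝓞 k) (𝓞 K)) = w.asIdeal.comap (algebraMap (𝓞 k) (𝓞 K))
    rw [hw', Ideal.comap_comap]
    congr 1
    refine RingHom.ext fun x => ?_
    refine RingOfIntegers.ext ?_
    show ((τ (algebraMap (𝓞 k) (𝓞 K) x) : 𝓞 K) : K) = _
    rw [hτ]
    exact σ.commutes (x : k)
  · intro x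
    obtain ⟨r, s, hs, rfl⟩ := IsFractionRing.div_surjective (A := 𝓞 K) x
    have h1 : ∀ r : 𝓞 K, w'.valuation K (algebraMap (𝓞 K) K r) =
        w.valuation K (σ (algebraMap (𝓞 K) K r)) := by
      intro r
      have h2 : σ (algebraMap (𝓞 K) K r) = algebraMap (𝓞 K) K (τ r) := (hτ r).symm
      rw [h2, HeightOneSpectrum.valuation_of_algebraMap,
        HeightOneSpectrum.valuation_of_algebraMap, hint]
    rw [map_div₀, map_div₀, map_div₀, h1, h1]

/-- Proof.  Let `c : Cv (inr v)` with `c² = a`, `w` a place over `v` (`exists_above`).  Suppose `w` is the only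
one.  `σ` the conjugation of `K/k` (`σ α = -α`; re-prove or import hn/Qx.lean `Quad.exists_conj`, statement fixed):
`x ↦ w.valuation K (σ x)` is the valuation of a place over `v` (the image of `w` under `σ⁻¹` on `𝓞 K`), so
`w.valuation K (σ x) = w.valuation K x`.  Choose `c₀ : k` close to `c`, so that `v(c₀² - a)` is as small as
we please while `v(2 c₀) = v(2 c)` is fixed.  `x = α - c₀`, `x' = σ x = -(α + c₀)`: `x x' = c₀² - a`,
`w x = w x'`, so `(w x)² = v(c₀² - a)^e` is very small, and `x + x' = -2 c₀` gives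
`v(2 c₀)^e = w(2 c₀) ≤ w x`: contradiction (`valuation_liesOver`, `e ≥ 1`). -/
theorem two_above (hK : Quad a K α) (v : HeightOneSpectrum (𝓞 k))
    (h : a ∈ sqG (Sum.inr v : Pla k)) : ∃ w w' : HeightOneSpectrum (𝓞 K), w ≠ w' ∧
      w.under (𝓞 k) = v ∧ w'.under (𝓞 k) = v := by
  obtain ⟨w, hw⟩ := exists_above (K := K) v
  obtain ⟨σ, hσ, -, -, -, -⟩ := hK.exists_conj
  obtain ⟨w', hw', hval⟩ := PlA_conj σ w
  refine ⟨w, w', ?_, hw, hw'.trans hw⟩
  rintro rfl
  subst hw
  obtain ⟨d, hd'⟩ : ∃ d : (w.under (𝓞 k)).adicCompletion k,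
      algebraMap k ((w.under (𝓞 k)).adicCompletion k) (a : k) = d * d := h
  have hd0 : d ≠ 0 := by
    intro h0
    rw [h0, mul_zero] at hd'
    exact (map_ne_zero (algebraMap k ((w.under (𝓞 k)).adicCompletion k))).2 a.ne_zero hd'
  have h20 : (2 : (w.under (𝓞 k)).adicCompletion k) ≠ 0 := by
    have h1 := (map_ne_zero (algebraMap k ((w.under (𝓞 k)).adicCompletion k))).2
      (two_ne_zero (α := k))
    rwa [map_ofNat] at h1
  have hval' : ∀ x : k, Valued.v (algebraMap k ((w.under (𝓞 k)).adicCompletion k) x) =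
      (w.under (𝓞 k)).valuation k x :=
    fun x => HeightOneSpectrum.valuedAdicCompletion_eq_valuation' _ x
  have hvd : Valued.v (2 * d) ≠ 0 := (Valuation.ne_zero_iff _).2 (mul_ne_zero h20 hd0)
  have hnh : {y : (w.under (𝓞 k)).adicCompletion k | Valued.v (y - d) < Valued.v (2 * d)} ∈
      nhds d := by
    rw [Valued.mem_nhds]
    refine ⟨Units.mk0 (Valued.v.restrict (2 * d)) (by simpa using hvd), ?_⟩
    intro y hy
    exact Valued.v.restrict_lt_iff.1 hy
  obtain ⟨c, hc⟩ := ((w.under (𝓞 k)).denseRange_algebraMap (K := k)).mem_nhds hnh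
  obtain ⟨y, hy⟩ : ∃ y, y = algebraMap k ((w.under (𝓞 k)).adicCompletion k) c := ⟨_, rfl⟩
  have hyd : Valued.v (y - d) < Valued.v (2 * d) := by
    rw [hy]
    exact hc
  have h3 : Valued.v (y + d) ≤ Valued.v (2 * d) := by
    have e : y + d = (y - d) + 2 * d := by ring
    rw [e]
    exact Valuation.map_add_le _ hyd.le le_rfl
  have h4 : Valued.v (2 * y) = Valued.v (2 * d) := by
    refine Valuation.map_eq_of_sub_lt _ (lt_of_le_of_lt ?_ hyd)
    have e : 2 * y - 2 * d = (y - d) + (y - d) := by ring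
    rw [e]
    exact Valuation.map_add_le _ le_rfl le_rfl
  have h5 : Valued.v (y ^ 2 - d * d) < Valued.v (2 * y) ^ 2 := by
    have e : y ^ 2 - d * d = (y - d) * (y + d) := by ring
    rw [e, map_mul, h4, pow_two]
    exact lt_of_le_of_lt (mul_le_mul_of_nonneg_left h3 zero_le)
      (mul_lt_mul_of_pos_right hyd (zero_lt_iff.2 hvd))
  have h6 : (w.under (𝓞 k)).valuation k (c ^ 2 - a) < (w.under (𝓞 k)).valuation k (2 * c) ^ 2 := by
    rw [← hval', ← hval', map_sub, map_pow, map_mul, map_ofNat, hd', ← hy]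
    exact h5
  have hlies : w.asIdeal.LiesOver (w.under (𝓞 k)).asIdeal := ⟨rfl⟩
  obtain ⟨e, he0, he⟩ : ∃ e : ℕ, e ≠ 0 ∧ ∀ x : k, (w.under (𝓞 k)).valuation k x ^ e =
      w.valuation K (algebraMap k K x) :=
    ⟨_, Ideal.IsDedekindDomain.ramificationIdx'_ne_zero_of_liesOver w.asIdeal
      (w.under (𝓞 k)).ne_bot, HeightOneSpectrum.valuation_liesOver K (w.under (𝓞 k)) w⟩
  obtain ⟨X, hX⟩ : ∃ X : K, X = α - algebraMap k K c := ⟨_, rfl⟩
  have hσX : σ X = -α - algebraMap k K c := by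
    rw [hX, map_sub, hσ, AlgEquiv.commutes]
  have h7 : w.valuation K X ^ 2 = (w.under (𝓞 k)).valuation k (c ^ 2 - a) ^ e := by
    rw [he, pow_two]
    nth_rewrite 2 [hval X]
    rw [← map_mul, hσX, hX, map_sub, map_pow, ← hK.sq]
    congr 1
    ring
  have h8 : (w.under (𝓞 k)).valuation k (2 * c) ^ e ≤ w.valuation K X := by
    have e1 : algebraMap k K (2 * c) = -(X + σ X) := by
      rw [hσX, hX, map_mul, map_ofNat]
      ring
    rw [he, e1, Valuation.map_neg]
    exact Valuation.map_add_le _ le_rfl (hval X).symm.le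
  have h9 : ((w.under (𝓞 k)).valuation k (2 * c) ^ e) ^ 2 ≤ w.valuation K X ^ 2 :=
    pow_le_pow_left₀ zero_le h8 2
  rw [h7, ← pow_mul, mul_comm e 2, pow_mul] at h9
  exact absurd h9 (not_le.2 (pow_lt_pow_left₀ h6 zero_le he0))

/-- Proof: finitely many primes over each prime; `two_above` and `exists_above`, sum over `S`
(the fibres of `Above K S → S`). -/
theorem above_fin (hK : Quad a K α) (S : Set (HeightOneSpectrum (𝓞 k))) (hS : S.Finite) :
    (Above K S).Finite ∧ 2 * S.ncard ≤ (Above K S).ncard +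
      {v | v ∈ S ∧ a ∉ sqG (Sum.inr v : Pla k)}.ncard := by
  classical
  have hfib : ∀ v : HeightOneSpectrum (𝓞 k),
      {w : HeightOneSpectrum (𝓞 K) | w.under (𝓞 k) = v}.Finite := by
    intro v
    have h1 := IsDedekindDomain.primesOver_finite v.asIdeal (𝓞 K)
    refine Set.Finite.of_finite_image (f := HeightOneSpectrum.asIdeal) (h1.subset ?_)
      (fun w _ w' _ h => HeightOneSpectrum.ext h)
    rintro _ ⟨w, hw, rfl⟩
    have hw' : w.under (𝓞 k) = v := hw
    exact ⟨w.isPrime, ⟨by rw [← hw']; rfl⟩⟩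
  have hfin : (Above K S).Finite := by
    have h1 : Above K S = ⋃ v ∈ S, {w : HeightOneSpectrum (𝓞 K) | w.under (𝓞 k) = v} := by
      ext w
      simp only [Set.mem_iUnion, Set.mem_ofPred_eq, exists_prop]
      exact ⟨fun hw => ⟨_, hw, rfl⟩, fun ⟨v, hv, hw⟩ => by
        show w.under (𝓞 k) ∈ S
        rw [hw]
        exact hv⟩
    rw [h1]
    exact hS.biUnion fun v _ => hfib v
  refine ⟨hfin, ?_⟩
  have hmaps : ∀ w ∈ hfin.toFinset, w.under (𝓞 k) ∈ hS.toFinset := by
    intro w hw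
    rw [Set.Finite.mem_toFinset] at hw ⊢
    exact hw
  have hN : {v | v ∈ S ∧ a ∉ sqG (Sum.inr v : Pla k)}.ncard =
      (hS.toFinset.filter fun v => a ∉ sqG (Sum.inr v : Pla k)).card := by
    rw [← Set.ncard_coe_finset]
    congr 1
    ext v
    simp
  rw [Set.ncard_eq_toFinset_card S hS, Set.ncard_eq_toFinset_card _ hfin, hN,
    Finset.card_eq_sum_card_fiberwise hmaps, Finset.card_filter, ← Finset.sum_add_distrib,
    mul_comm, ← smul_eq_mul, ← Finset.sum_const]
  refine Finset.sum_le_sum fun v hv => ?_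
  have hvS : v ∈ S := hS.mem_toFinset.1 hv
  rcases em' (a ∈ sqG (Sum.inr v : Pla k)) with h1 | h1
  · rw [if_pos h1]
    obtain ⟨w, hw⟩ := exists_above (K := K) v
    have h2 : 0 < (hfin.toFinset.filter fun w => w.under (𝓞 k) = v).card := by
      refine Finset.card_pos.2 ⟨w, Finset.mem_filter.2 ⟨hfin.mem_toFinset.2 ?_, hw⟩⟩
      show w.under (𝓞 k) ∈ S
      rw [hw]
      exact hvS
    omega
  · rw [if_neg (not_not.2 h1)]
    obtain ⟨w, w', hne, hw, hw'⟩ := two_above hK v h1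
    have h2 : 1 < (hfin.toFinset.filter fun w => w.under (𝓞 k) = v).card := by
      refine Finset.one_lt_card.2 ⟨w, Finset.mem_filter.2 ⟨hfin.mem_toFinset.2 ?_, hw⟩, w',
        Finset.mem_filter.2 ⟨hfin.mem_toFinset.2 ?_, hw'⟩, hne⟩
      · show w.under (𝓞 k) ∈ S
        rw [hw]
        exact hvS
      · show w'.under (𝓞 k) ∈ S
        rw [hw']
        exact hvS
    omega

end HN83
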