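import Pool.Agent.H.MP_83e36b_nt.hn.HDef

/-! The number of the infinite places of a quadratic extension. -/

set_option autoImplicit false

open NumberField IsDedekindDomain

namespace HN83

variable {k : Type} [Field k] [NumberField k] {K : Type} [Field K] [NumberField K]
    [Algebra k K] {a : kˣ} {α : K}

/-- two embeddings of `K` which agree on `k` and at `α` are equal -/
private theorem PlI_ext (hK : Quad a K α) {ψ₁ ψ₂ : K →+* ℂ}
    (h : ∀ x : k, ψ₁ (algebraMap k K x) = ψ₂ (algebraMap k K x)) (hα : ψ₁ α = ψ₂ α) :
    ψ₁ = ψ₂ := by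
  have hp : Nat.Prime (Module.finrank k K) := by rw [hK.rank]; exact Nat.prime_two
  have hs : IsSimpleOrder (IntermediateField k K) :=
    IntermediateField.isSimpleOrder_of_finrank_prime k K hp
  let E : IntermediateField k K :=
    { RingHom.eqLocusField ψ₁ ψ₂ with
      algebraMap_mem' := fun x => h x }
  have hαE : α ∈ E := hα
  have hE : E ≠ ⊥ := by
    intro hb
    rw [hb] at hαE
    obtain ⟨x, hx⟩ := IntermediateField.mem_bot.mp hαE
    apply hK.nsq
    refine ⟨x, ?_⟩
    apply (algebraMap k K).injective
    rw [map_mul, hx, ← pow_two, hK.sq]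
  have hT : E = ⊤ := (hs.eq_bot_or_eq_top E).resolve_left hE
  ext x
  have hx : x ∈ E := by rw [hT]; trivial
  exact hx

/-- a place where `a` is a square has two places above it -/
private theorem PlI_two (hK : Quad a K α) (v : InfinitePlace k)
    (h : a ∈ sqG (Sum.inl v : Pla k)) : ∃ w₁ w₂ : InfinitePlace K, w₁ ≠ w₂ ∧
      w₁.comap (algebraMap k K) = v ∧ w₂.comap (algebraMap k K) = v := by
  classical
  have hfd : FiniteDimensional k K := FiniteDimensional.of_finrank_pos (by rw [hK.rank]; norm_num)
  let _ : Algebra k ℂ := v.embedding.toAlgebra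
  have hcard : Fintype.card (K →ₐ[k] ℂ) = 2 := by rw [AlgHom.card, hK.rank]
  obtain ⟨ψ₁, ψ₂, hne⟩ := Fintype.one_lt_card_iff.mp (by rw [hcard]; norm_num :
    1 < Fintype.card (K →ₐ[k] ℂ))
  have e1 : ∀ x : k, ψ₁ (algebraMap k K x) = v.embedding x := fun x => ψ₁.commutes x
  have e2 : ∀ x : k, ψ₂ (algebraMap k K x) = v.embedding x := fun x => ψ₂.commutes x
  have c1 : (InfinitePlace.mk ψ₁.toRingHom).comap (algebraMap k K) = v := by
    rw [InfinitePlace.comap_mk]
    have : ψ₁.toRingHom.comp (algebraMap k K) = v.embedding := by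
      ext x; exact e1 x
    rw [this, InfinitePlace.mk_embedding]
  have c2 : (InfinitePlace.mk ψ₂.toRingHom).comap (algebraMap k K) = v := by
    rw [InfinitePlace.comap_mk]
    have : ψ₂.toRingHom.comp (algebraMap k K) = v.embedding := by
      ext x; exact e2 x
    rw [this, InfinitePlace.mk_embedding]
  refine ⟨InfinitePlace.mk ψ₁.toRingHom, InfinitePlace.mk ψ₂.toRingHom, ?_, c1, c2⟩
  intro heq
  rw [InfinitePlace.mk_eq_iff] at heq
  rcases heq with heq | heq
  · apply hne
    ext x
    exact RingHom.congr_fun heq x
  · have hconj : ∀ x : K, (starRingEnd ℂ) (ψ₁ x) = ψ₂ x := fun x => RingHom.congr_fun heq x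
    have hreal : v.IsReal := by
      rw [InfinitePlace.isReal_iff, ComplexEmbedding.isReal_iff]
      ext x
      rw [ComplexEmbedding.conjugate_coe_eq, ← e1 x, hconj, e2, e1]
    obtain ⟨r, hr⟩ := h
    have h1 : InfinitePlace.Completion.extensionEmbeddingOfIsReal hreal
        (algebraMap k v.Completion (a : k)) =
        InfinitePlace.embedding_of_isReal hreal (a : k) :=
      InfinitePlace.Completion.extensionEmbeddingOfIsReal_coe hreal
        ((WithAbs.equiv v.1).symm (a : k))
    have h2 : InfinitePlace.embedding_of_isReal hreal (a : k) =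
        (InfinitePlace.Completion.extensionEmbeddingOfIsReal hreal r) *
        (InfinitePlace.Completion.extensionEmbeddingOfIsReal hreal r) := by
      rw [← map_mul, ← h1]
      exact congrArg (InfinitePlace.Completion.extensionEmbeddingOfIsReal hreal) hr
    have h3 : (ψ₁ α) * (ψ₁ α) =
        ((InfinitePlace.Completion.extensionEmbeddingOfIsReal hreal r : ℝ) : ℂ) *
        ((InfinitePlace.Completion.extensionEmbeddingOfIsReal hreal r : ℝ) : ℂ) := by
      rw [← map_mul, ← pow_two, hK.sq, e1, ← InfinitePlace.embedding_of_isReal_apply hreal, h2,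
        Complex.ofReal_mul]
    have h4 : (starRingEnd ℂ) (ψ₁ α) = ψ₁ α := by
      rcases mul_self_eq_mul_self_iff.mp h3 with h5 | h5
      · rw [h5, Complex.conj_ofReal]
      · rw [h5, map_neg, Complex.conj_ofReal]
    apply hne
    have h6 : ψ₁.toRingHom = ψ₂.toRingHom := by
      refine PlI_ext hK (fun x => (e1 x).trans (e2 x).symm) ?_
      exact h4.symm.trans (hconj α)
    ext x
    exact RingHom.congr_fun h6 x

/-- Proof.  The fibres of `InfinitePlace K → InfinitePlace k` (`InfinitePlace.comap`): nonempty; if `v` is
complex, or real with `a` positive at `v`, it has two elements (`a ∈ sqG (inl v)` in both cases).  E.g. by the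
formulas: a place `v` is ramified (real with a complex place above it) only if `a` is negative at `v`
(otherwise `α` has real images), and unramified places have `[K : k] = 2` places above
(`NumberField.InfinitePlace.card_eq_card_isUnramifiedIn`, or
`card_isUnramified`, for the Galois extension `K/k`); or count embeddings. -/
theorem above_inf (hK : Quad a K α) : 2 * Fintype.card (InfinitePlace k) ≤
    Fintype.card (InfinitePlace K) + {v : InfinitePlace k | a ∉ sqG (Sum.inl v : Pla k)}.ncard := by
  classical
  have hfd : FiniteDimensional k K := FiniteDimensional.of_finrank_pos (by rw [hK.rank]; norm_num)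
  have h1 : Fintype.card (InfinitePlace K) = ∑ v : InfinitePlace k,
      (Finset.univ.filter fun w : InfinitePlace K => w.comap (algebraMap k K) = v).card := by
    rw [← Finset.card_univ]
    exact Finset.card_eq_sum_card_fiberwise fun w _ => Finset.mem_coe.mpr (Finset.mem_univ _)
  have h2 : {v : InfinitePlace k | a ∉ sqG (Sum.inl v : Pla k)}.ncard =
      ∑ v : InfinitePlace k, if a ∉ sqG (Sum.inl v : Pla k) then 1 else 0 := by
    rw [Set.ncard_eq_toFinset_card', Finset.sum_boole]
    simp
  have h3 : 2 * Fintype.card (InfinitePlace k) = ∑ _v : InfinitePlace k, 2 := by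
    rw [Finset.sum_const, Finset.card_univ, smul_eq_mul, mul_comm]
  rw [h1, h2, h3, ← Finset.sum_add_distrib]
  refine Finset.sum_le_sum fun v _ => ?_
  by_cases h : a ∈ sqG (Sum.inl v : Pla k)
  · obtain ⟨w₁, w₂, hne, hw₁, hw₂⟩ := PlI_two hK v h
    have h4 : 2 ≤ (Finset.univ.filter
        fun w : InfinitePlace K => w.comap (algebraMap k K) = v).card := by
      rw [← Finset.card_pair hne]
      refine Finset.card_le_card fun w hw => ?_
      rw [Finset.mem_insert, Finset.mem_singleton] at hw
      rw [Finset.mem_filter]
      refine ⟨Finset.mem_univ _, ?_⟩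
      rcases hw with rfl | rfl
      · exact hw₁
      · exact hw₂
    omega
  · obtain ⟨w, hw⟩ := InfinitePlace.comap_surjective (k := k) (K := K) v
    have h4 : 1 ≤ (Finset.univ.filter
        fun w : InfinitePlace K => w.comap (algebraMap k K) = v).card :=
      Finset.card_pos.mpr ⟨w, Finset.mem_filter.mpr ⟨Finset.mem_univ _, hw⟩⟩
    rw [if_pos h]
    omega

end HN83
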