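import Pool.Agent.H.MP_83e36b_nt.hn.HDef

/-! The squares of the `S`-units. -/

set_option autoImplicit false

open NumberField IsDedekindDomain

namespace HN83

/-- the index of the squares -/
private noncomputable def SUn_q (G : Type*) [CommGroup G] : ℕ :=
  (powMonoidHom 2 : G →* G).range.index

private theorem SUn_q_equiv {G G' : Type*} [CommGroup G] [CommGroup G'] (e : G ≃* G') :
    SUn_q G = SUn_q G' := by
  unfold SUn_q
  rw [← Subgroup.index_map_equiv (powMonoidHom 2 : G →* G).range e]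
  congr 1
  ext x
  constructor
  · rintro ⟨_, ⟨z, rfl⟩, rfl⟩
    exact ⟨e z, (map_pow e z 2).symm⟩
  · rintro ⟨w, rfl⟩
    refine ⟨e.symm w ^ 2, ⟨e.symm w, rfl⟩, ?_⟩
    show e (e.symm w ^ 2) = w ^ 2
    rw [map_pow, MulEquiv.apply_symm_apply]

private theorem SUn_q_prod (G G' : Type*) [CommGroup G] [CommGroup G'] :
    SUn_q (G × G') = SUn_q G * SUn_q G' := by
  unfold SUn_q
  rw [← Subgroup.index_prod]
  congr 1
  ext ⟨x, y⟩
  constructor
  · rintro ⟨⟨a, b⟩, h⟩
    exact ⟨⟨a, congrArg Prod.fst h⟩, ⟨b, congrArg Prod.snd h⟩⟩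
  · rintro ⟨⟨a, ha⟩, ⟨b, hb⟩⟩
    exact ⟨⟨a, b⟩, Prod.ext ha hb⟩

private theorem SUn_q_int : SUn_q (Multiplicative ℤ) = 2 := by
  have hmem : ∀ b : Multiplicative ℤ,
      b ∈ (powMonoidHom 2 : Multiplicative ℤ →* Multiplicative ℤ).range ↔
        Even (Multiplicative.toAdd b) := by
    intro b
    constructor
    · rintro ⟨c, rfl⟩
      refine ⟨Multiplicative.toAdd c, ?_⟩
      show Multiplicative.toAdd (c ^ 2) = _
      rw [pow_two, toAdd_mul]
    · rintro ⟨c, hc⟩
      refine ⟨Multiplicative.ofAdd c, ?_⟩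
      show (Multiplicative.ofAdd c) ^ 2 = b
      rw [pow_two, ← ofAdd_add, ← hc, ofAdd_toAdd]
  unfold SUn_q
  rw [Subgroup.index_eq_two_iff]
  refine ⟨Multiplicative.ofAdd 1, fun b => ?_⟩
  rw [hmem, hmem, toAdd_mul, toAdd_ofAdd, Int.even_add_one]
  by_cases h : Even (Multiplicative.toAdd b)
  · exact Or.inr ⟨h, fun h' => h' h⟩
  · exact Or.inl ⟨h, h⟩

private theorem SUn_q_pi (n : ℕ) : SUn_q (Fin n → Multiplicative ℤ) = 2 ^ n := by
  have h : (powMonoidHom 2 : (Fin n → Multiplicative ℤ) →* _).range =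
      Subgroup.pi Set.univ fun _ : Fin n =>
        (powMonoidHom 2 : Multiplicative ℤ →* Multiplicative ℤ).range := by
    ext x
    rw [Subgroup.mem_pi]
    constructor
    · rintro ⟨y, rfl⟩ i _
      exact ⟨y i, rfl⟩
    · intro hx
      choose y hy using fun i => hx i (Set.mem_univ i)
      exact ⟨y, funext hy⟩
  unfold SUn_q
  rw [h, Subgroup.index_pi]
  have h2 := SUn_q_int
  unfold SUn_q at h2
  rw [h2, Finset.prod_const, Finset.card_univ, Fintype.card_fin]

private theorem SUn_q_ext {G : Type*} [CommGroup G] (g : G →* Multiplicative ℤ)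
    (hg : ∃ x, g x ≠ 1) : SUn_q G = SUn_q g.ker * 2 := by
  obtain ⟨γ, hγ⟩ : ∃ γ : g.range, ∀ y : g.range, y ∈ Subgroup.zpowers γ :=
    IsCyclic.exists_generator
  obtain ⟨π, hπ⟩ := γ.2
  have hgen : ∀ x, ∃ m : ℤ, g π ^ m = g x := by
    intro x
    obtain ⟨m, hm⟩ := hγ ⟨g x, x, rfl⟩
    refine ⟨m, ?_⟩
    rw [hπ]
    exact congrArg Subtype.val hm
  have hπ1 : g π ≠ 1 := by
    intro h
    obtain ⟨x, hx⟩ := hg
    obtain ⟨m, hm⟩ := hgen x
    rw [h, one_zpow] at hm
    exact hx hm.symm
  have hinj : ∀ m : ℤ, g π ^ m = 1 → m = 0 := by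
    intro m hm
    have h1 : m • Multiplicative.toAdd (g π) = 0 := by
      rw [← toAdd_zpow, hm, toAdd_one]
    rcases smul_eq_zero.1 h1 with h2 | h2
    · exact h2
    · exact absurd (Multiplicative.toAdd.injective h2) hπ1
  have hval : ∀ p : g.ker × Multiplicative ℤ,
      (g.ker.subtype.coprod (zpowersHom G π)) p = (p.1 : G) * π ^ Multiplicative.toAdd p.2 :=
    fun p => rfl
  have hbij : Function.Bijective (g.ker.subtype.coprod (zpowersHom G π)) := by
    constructor
    · rw [injective_iff_map_eq_one]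
      rintro ⟨u, m⟩ h
      rw [hval] at h
      have hu : g (u : G) = 1 := u.2
      have h1 := congrArg g h
      rw [map_mul, hu, one_mul, map_zpow, map_one] at h1
      have h2 : Multiplicative.toAdd m = 0 := hinj _ h1
      have h3 : (u : G) = 1 := by
        have h4 : (u : G) * π ^ Multiplicative.toAdd m = 1 := h
        rw [h2, zpow_zero, mul_one] at h4
        exact h4
      refine Prod.ext (Subtype.ext h3) ?_
      exact Multiplicative.toAdd.injective h2
    · intro x
      obtain ⟨m, hm⟩ := hgen x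
      refine ⟨(⟨x * π ^ (-m), ?_⟩, Multiplicative.ofAdd m), ?_⟩
      · rw [MonoidHom.mem_ker, map_mul, map_zpow, zpow_neg, hm, mul_inv_cancel]
      · rw [hval]
        show x * π ^ (-m) * π ^ m = x
        rw [mul_assoc, ← zpow_add, neg_add_cancel, zpow_zero, mul_one]
  rw [← SUn_q_equiv (MulEquiv.ofBijective _ hbij), SUn_q_prod, SUn_q_int]

section
variable (k : Type) [Field k] [NumberField k]

private theorem SUn_q_tors : SUn_q (NumberField.Units.torsion k) = 2 := by
  unfold SUn_q
  rw [Subgroup.index_range, Nat.card_eq_two_iff]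
  have hneg : (-1 : (𝓞 k)ˣ) ∈ NumberField.Units.torsion k := by
    show IsOfFinOrder (-1 : (𝓞 k)ˣ)
    rw [isOfFinOrder_iff_pow_eq_one]
    exact ⟨2, two_pos, by rw [neg_one_sq]⟩
  refine ⟨1, ⟨⟨-1, hneg⟩, ?_⟩, ?_, ?_⟩
  · rw [MonoidHom.mem_ker]
    refine Subtype.ext ?_
    show (-1 : (𝓞 k)ˣ) ^ 2 = 1
    rw [neg_one_sq]
  · intro h
    have h1 : (1 : (𝓞 k)ˣ) = -1 := congrArg Subtype.val (congrArg Subtype.val h)
    have h2 : (1 : 𝓞 k) = -1 := congrArg Units.val h1
    have h3 : (2 : 𝓞 k) = 0 := by linear_combination h2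
    exact two_ne_zero h3
  · rw [Set.eq_univ_iff_forall]
    rintro ⟨⟨z, hz⟩, hz2⟩
    rw [MonoidHom.mem_ker] at hz2
    have h1 : z ^ 2 = 1 := congrArg Subtype.val hz2
    have h2 : (z : 𝓞 k) * z = 1 := by
      rw [← Units.val_mul, ← pow_two, h1, Units.val_one]
    rcases mul_self_eq_one_iff.1 h2 with h3 | h3
    · left
      exact Subtype.ext (Subtype.ext (Units.ext h3))
    · right
      exact Subtype.ext (Subtype.ext (Units.ext h3))

private theorem SUn_q_units : SUn_q (𝓞 k)ˣ = 2 ^ Fintype.card (InfinitePlace k) := by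
  obtain ⟨Φ, hΦ⟩ : ∃ Φ : NumberField.Units.torsion k ×
      (Fin (NumberField.Units.rank k) → Multiplicative ℤ) →* (𝓞 k)ˣ,
      ∀ p, Φ p = (p.1 : (𝓞 k)ˣ) *
        ∏ i, NumberField.Units.fundSystem k i ^ Multiplicative.toAdd (p.2 i) := by
    refine ⟨MonoidHom.mk' (fun p => (p.1 : (𝓞 k)ˣ) *
        ∏ i, NumberField.Units.fundSystem k i ^ Multiplicative.toAdd (p.2 i)) ?_, fun p => rfl⟩
    intro p p'
    have h1 : ∏ i, NumberField.Units.fundSystem k i ^ Multiplicative.toAdd ((p * p').2 i) =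
        (∏ i, NumberField.Units.fundSystem k i ^ Multiplicative.toAdd (p.2 i)) *
        ∏ i, NumberField.Units.fundSystem k i ^ Multiplicative.toAdd (p'.2 i) := by
      rw [← Finset.prod_mul_distrib]
      refine Finset.prod_congr rfl fun i _ => ?_
      rw [← zpow_add]
      rfl
    rw [h1]
    show (p.1 : (𝓞 k)ˣ) * (p'.1 : (𝓞 k)ˣ) * _ = _
    exact mul_mul_mul_comm _ _ _ _
  have hbij : Function.Bijective Φ := by
    rw [Function.bijective_iff_existsUnique]
    intro x
    obtain ⟨⟨ζ, e⟩, h1, h2⟩ := NumberField.Units.exist_unique_eq_mul_prod k x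
    refine ⟨(ζ, fun i => Multiplicative.ofAdd (e i)), ?_, ?_⟩
    · show Φ _ = x
      rw [hΦ]
      exact h1.symm
    · intro p hp
      have hp' : Φ p = x := hp
      rw [hΦ] at hp'
      have h3 := h2 (p.1, fun i => Multiplicative.toAdd (p.2 i)) hp'.symm
      have h4 : p.1 = ζ := congrArg Prod.fst h3
      have h5 : (fun i => Multiplicative.toAdd (p.2 i)) = e := congrArg Prod.snd h3
      refine Prod.ext h4 ?_
      funext i
      exact Multiplicative.toAdd.injective (congrFun h5 i)
  rw [← SUn_q_equiv (MulEquiv.ofBijective Φ hbij), SUn_q_prod, SUn_q_tors, SUn_q_pi, ← pow_succ']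
  congr 1
  have h1 : 0 < Fintype.card (InfinitePlace k) := Fintype.card_pos
  unfold NumberField.Units.rank
  omega

variable {k}

private theorem SUn_base : SUn_q (US k ∅) = 2 ^ Fintype.card (InfinitePlace k) := by
  rw [← SUn_q_units k]
  obtain ⟨Φ, hΦ⟩ : ∃ Φ : (𝓞 k)ˣ →* US k ∅,
      ∀ x, ((Φ x : kˣ) : k) = algebraMap (𝓞 k) k (x : 𝓞 k) := by
    refine ⟨(Units.map (algebraMap (𝓞 k) k : 𝓞 k →* k)).codRestrict (US k ∅) ?_, fun x => rfl⟩
    intro x
    rw [mem_US]
    intro v _
    show v.valuation k (algebraMap (𝓞 k) k (x : 𝓞 k)) = 1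
    rw [HeightOneSpectrum.valuation_eq_one_iff_notMem]
    intro h
    exact v.isPrime.ne_top (Ideal.eq_top_of_isUnit_mem _ h x.isUnit)
  have hbij : Function.Bijective Φ := by
    constructor
    · intro x y h
      have h1 : ((Φ x : kˣ) : k) = ((Φ y : kˣ) : k) := by rw [h]
      rw [hΦ, hΦ] at h1
      exact Units.ext (FaithfulSMul.algebraMap_injective (𝓞 k) k h1)
    · rintro ⟨x, hx⟩
      rw [mem_US] at hx
      have hx' : ∀ v : HeightOneSpectrum (𝓞 k), v.valuation k (x : k) = 1 :=
        fun v => hx v (Set.notMem_empty v)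
      obtain ⟨a, ha⟩ := HeightOneSpectrum.mem_integers_of_valuation_le_one k (x : k)
        (fun v => (hx' v).le)
      obtain ⟨b, hb⟩ := HeightOneSpectrum.mem_integers_of_valuation_le_one k ((x⁻¹ : kˣ) : k)
        (fun v => by rw [Units.val_inv_eq_inv_val, map_inv₀, hx' v, inv_one])
      have hab : a * b = 1 := by
        refine FaithfulSMul.algebraMap_injective (𝓞 k) k ?_
        rw [map_mul, ha, hb, map_one, Units.mul_inv]
      refine ⟨⟨a, b, hab, by rw [mul_comm, hab]⟩, ?_⟩
      refine Subtype.ext (Units.ext ?_)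
      rw [hΦ]
      exact ha
  exact (SUn_q_equiv (MulEquiv.ofBijective Φ hbij)).symm

/-- an element with nonzero valuation only at `v` -/
private theorem SUn_el (v : HeightOneSpectrum (𝓞 k)) : ∃ y : kˣ, v.valuation k (y : k) ≠ 1 ∧
    ∀ w : HeightOneSpectrum (𝓞 k), w ≠ v → w.valuation k (y : k) = 1 := by
  classical
  have hne : v.asIdeal ∈ nonZeroDivisors (Ideal (𝓞 k)) :=
    mem_nonZeroDivisors_of_ne_zero v.ne_bot
  obtain ⟨h, hh0, hh⟩ : ∃ h : ℕ, 0 < h ∧ ClassGroup.mk0 ⟨v.asIdeal, hne⟩ ^ h = 1 :=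
    ⟨Fintype.card (ClassGroup (𝓞 k)), Fintype.card_pos, pow_card_eq_one⟩
  rw [← map_pow, ClassGroup.mk0_eq_one_iff] at hh
  obtain ⟨y, hy⟩ := hh
  have hy' : v.asIdeal ^ h = Ideal.span {y} := hy
  have hy0 : y ≠ 0 := by
    rintro rfl
    rw [Ideal.span_singleton_eq_bot.2 rfl] at hy'
    exact pow_ne_zero h v.ne_bot hy'
  have hyk : algebraMap (𝓞 k) k y ≠ 0 := by
    intro h0
    exact hy0 (FaithfulSMul.algebraMap_injective (𝓞 k) k (h0.trans (map_zero _).symm))
  refine ⟨Units.mk0 _ hyk, ?_, ?_⟩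
  · show v.valuation k (algebraMap (𝓞 k) k y) ≠ 1
    intro h1
    rw [HeightOneSpectrum.valuation_eq_one_iff_notMem] at h1
    apply h1
    have h2 : y ∈ v.asIdeal ^ h := by
      rw [hy']
      exact Ideal.mem_span_singleton_self y
    exact Ideal.pow_le_self hh0.ne' h2
  · intro w hw
    show w.valuation k (algebraMap (𝓞 k) k y) = 1
    rw [HeightOneSpectrum.valuation_eq_one_iff_notMem]
    intro h1
    have h2 : v.asIdeal ^ h ≤ w.asIdeal := by
      rw [hy', Ideal.span_singleton_le_iff_mem]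
      exact h1
    have h3 : v.asIdeal ≤ w.asIdeal := w.isPrime.le_of_pow_le h2
    have h4 : v.asIdeal = w.asIdeal := v.isMaximal.eq_of_le w.isPrime.ne_top h3
    exact hw (HeightOneSpectrum.ext h4).symm

private theorem SUn_step (v : HeightOneSpectrum (𝓞 k)) (S : Set (HeightOneSpectrum (𝓞 k)))
    (hv : v ∉ S) : SUn_q (US k (insert v S)) = SUn_q (US k S) * 2 := by
  obtain ⟨g, hg⟩ : ∃ g : US k (insert v S) →* Multiplicative ℤ,
      ∀ x, g x = v.valuationOfNeZero (x : kˣ) :=
    ⟨v.valuationOfNeZero.comp (US k (insert v S)).subtype, fun x => rfl⟩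
  have hval : ∀ x : kˣ, v.valuationOfNeZero x = 1 ↔ v.valuation k (x : k) = 1 := by
    intro x
    rw [← HeightOneSpectrum.valuationOfNeZero_eq, ← WithZero.coe_one, WithZero.coe_inj]
  rw [SUn_q_ext g]
  · congr 1
    have hle : ∀ x : US k S, (x : kˣ) ∈ US k (insert v S) := by
      intro x
      have hx := mem_US.1 x.2
      rw [mem_US]
      intro w hw
      exact hx w fun h => hw (Set.mem_insert_of_mem v h)
    obtain ⟨Φ, hΦ⟩ : ∃ Φ : US k S →* g.ker, ∀ x, ((Φ x : US k (insert v S)) : kˣ) = x := by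
      refine ⟨MonoidHom.mk' (fun x => ⟨⟨(x : kˣ), hle x⟩, ?_⟩) fun x y => rfl, fun x => rfl⟩
      rw [MonoidHom.mem_ker, hg]
      exact (hval x).2 (mem_US.1 x.2 v hv)
    have hbij : Function.Bijective Φ := by
      constructor
      · intro x y h
        refine Subtype.ext ?_
        rw [← hΦ x, ← hΦ y, h]
      · rintro ⟨⟨x, hx⟩, hxk⟩
        rw [MonoidHom.mem_ker, hg] at hxk
        have hxv := (hval x).1 hxk
        have hxS : x ∈ US k S := by
          rw [mem_US] at hx ⊢
          intro w hw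
          by_cases hwv : w = v
          · rw [hwv]
            exact hxv
          · exact hx w fun h => (Set.mem_insert_iff.1 h).elim hwv hw
        refine ⟨⟨x, hxS⟩, ?_⟩
        refine Subtype.ext (Subtype.ext ?_)
        rw [hΦ]
    exact (SUn_q_equiv (MulEquiv.ofBijective Φ hbij)).symm
  · obtain ⟨y, hy1, hy2⟩ := SUn_el v
    refine ⟨⟨y, ?_⟩, ?_⟩
    · rw [mem_US]
      intro w hw
      exact hy2 w fun h => hw (by rw [h]; exact Set.mem_insert v S)
    · rw [hg]
      intro h
      exact hy1 ((hval y).1 h)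

end

/-- Proof: induction on the finite set `S` (`Set.Finite.induction_on`).
`S = ∅`: `US k ∅` is the group of the units of `𝓞 k` (`IsDedekindDomain.integer_empty`,
`Set.unitEquivUnitsInteger`, or directly: valuation one at all `v` for `x` and `x⁻¹` means integral,
`HeightOneSpectrum.mem_integers_of_valuation_le_one`).  Dirichlet's unit theorem: every unit is uniquely
`ζ * ∏ i, (fundSystem k i) ^ e i`, `ζ` a root of unity, `i : Fin (rank k)`
(`NumberField.Units.exist_unique_eq_mul_prod`), `rank k + 1 = card (InfinitePlace k)`; the roots of unity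
are a finite cyclic group of even order (`-1`), so its squares have index two.  So the index of the squares is
`2 * 2 ^ rank k` (e.g. the group is isomorphic to `torsion × Multiplicative (Fin r → ℤ)`; or
`Units.unitsMulEquiv..`/`Units.basisModTorsion`; or show that `(ζ, e) ↦ (ζ mod squares, e mod 2)` is
surjective onto a group of order `2^(r+1)` with the squares as kernel).
Step, `S' = insert v S`, `v ∉ S`: `f : US k S' → ℤ`, `x ↦` the exponent of `v.valuation k x` (`WithZero.log`,
`WithZero.unzero` ...) is a homomorphism with kernel `US k S`; its image is not zero: the class group is finite, so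
`v.asIdeal ^ h = (y)` for some `h ≥ 1` (`ClassGroup`, `Fintype (ClassGroup (𝓞 k))`), `y` has valuation `< 1`
at `v` and `1` at the others.  The image is `n ℤ`, `n ≥ 1`; let `f(π) = n`.  Every `x : US k S'` is uniquely
`u * π ^ i`, `u ∈ US k S`, `i : ℤ`; `x` is a square of an `S'`-unit iff `i` is even and `u` is a square of an
`S`-unit.  So the index of the squares doubles. -/
theorem sunit_index {k : Type} [Field k] [NumberField k] (S : Set (HeightOneSpectrum (𝓞 k)))
    (hS : S.Finite) :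
    (sqU S).relIndex (US k S) = 2 ^ (S.ncard + Fintype.card (InfinitePlace k)) := by
  have hq : (sqU S).relIndex (US k S) = SUn_q (US k S) := by
    unfold SUn_q
    rw [Subgroup.relIndex]
    congr 1
    ext x
    rw [Subgroup.mem_subgroupOf]
    constructor
    · rintro ⟨y, hy, hyx⟩
      exact ⟨⟨y, hy⟩, Subtype.ext hyx⟩
    · rintro ⟨y, rfl⟩
      exact ⟨y, y.2, rfl⟩
  rw [hq]
  refine Set.Finite.induction_on (motive := fun S _ => SUn_q (US k S) =
    2 ^ (S.ncard + Fintype.card (InfinitePlace k))) S hS ?_ ?_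
  · rw [Set.ncard_empty, zero_add]
    exact SUn_base
  · intro v S hv hfin ih
    rw [SUn_step v S hv, ih, Set.ncard_insert_of_notMem hv hfin, ← pow_succ]
    congr 1
    omega

end HN83
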