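import Pool.Agent.H.MP_83e36b_nt.hn.GrpI
import Pool.Agent.H.MP_83e36b_nt.hn.SUn
import Pool.Agent.H.MP_83e36b_nt.hn.Qx
import Pool.Agent.H.MP_83e36b_nt.hn.PlA
import Pool.Agent.H.MP_83e36b_nt.hn.PlI
import Pool.Agent.H.MP_83e36b_nt.hn.H1v

/-! The index of the norms of the units. -/

set_option autoImplicit false

open NumberField IsDedekindDomain

namespace HN83

/-- the conjugate of a finite place by an automorphism -/
theorem NIdx_conj {K : Type} [Field K] [NumberField K] (σ : K ≃+* K)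
    (w : HeightOneSpectrum (𝓞 K)) : ∃ w' : HeightOneSpectrum (𝓞 K),
      (∀ x : 𝓞 K, x ∈ w'.asIdeal ↔ RingOfIntegers.mapRingEquiv σ x ∈ w.asIdeal) ∧
      ∀ x : K, w'.valuation K x = 1 → w.valuation K (σ x) = 1 := by
  obtain ⟨e, he⟩ : ∃ e : 𝓞 K ≃+* 𝓞 K, e = RingOfIntegers.mapRingEquiv σ := ⟨_, rfl⟩
  obtain ⟨w', hw'⟩ : ∃ w' : HeightOneSpectrum (𝓞 K),
    w' = HeightOneSpectrum.comap (e : 𝓞 K →+* 𝓞 K) e.surjective w := ⟨_, rfl⟩
  have h1 : ∀ x : 𝓞 K, x ∈ w'.asIdeal ↔ RingOfIntegers.mapRingEquiv σ x ∈ w.asIdeal := by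
    intro x
    rw [hw', he]
    exact Iff.rfl
  have hval : ∀ y : 𝓞 K, σ (algebraMap (𝓞 K) K y) =
      algebraMap (𝓞 K) K (RingOfIntegers.mapRingEquiv σ y) := fun y => rfl
  have h2 : ∀ x : K, w'.valuation K x ≤ 1 → w.valuation K (σ x) ≤ 1 := by
    intro x hx
    obtain ⟨n, d, hd⟩ := w'.exists_primeCompl_mul_eq_of_integer x hx
    have h3 : w.valuation K (σ (algebraMap (𝓞 K) K d)) = 1 := by
      rw [hval, HeightOneSpectrum.valuation_eq_one_iff_notMem]
      exact fun h => d.2 ((h1 _).2 h)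
    have h4 : w.valuation K (σ (algebraMap (𝓞 K) K n)) ≤ 1 := by
      rw [hval]
      exact w.valuation_le_one _
    rw [← hd, map_mul, map_mul, h3, mul_one] at h4
    exact h4
  refine ⟨w', h1, fun x hx => le_antisymm (h2 x hx.le) ?_⟩
  have h6 := h2 x⁻¹ (by rw [map_inv₀, hx, inv_one])
  rw [map_inv₀, map_inv₀] at h6
  have hx0 : x ≠ 0 := by
    rintro rfl
    rw [map_zero] at hx
    exact zero_ne_one hx
  have h7 : w.valuation K (σ x) ≠ 0 := by
    rw [ne_eq, map_eq_zero, map_eq_zero]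
    exact hx0
  rwa [inv_le_one₀ (zero_lt_iff.2 h7)] at h6

theorem NIdx_stab {k : Type} [Field k] [NumberField k] {K : Type} [Field K] [NumberField K]
    [Algebra k K] (σ : K ≃ₐ[k] K) {S : Set (HeightOneSpectrum (𝓞 k))} {x : Kˣ}
    (hx : x ∈ US K (Above K S)) : Units.map (σ : K →* K) x ∈ US K (Above K S) := by
  rw [mem_US] at hx ⊢
  intro w hw
  obtain ⟨w', h1, h2⟩ := NIdx_conj (σ : K ≃+* K) w
  refine h2 x (hx w' fun h => hw ?_)
  have h3 : w'.under (𝓞 k) = w.under (𝓞 k) := by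
    apply HeightOneSpectrum.ext
    ext y
    change algebraMap (𝓞 k) (𝓞 K) y ∈ w'.asIdeal ↔ algebraMap (𝓞 k) (𝓞 K) y ∈ w.asIdeal
    rw [h1]
    have h4 : RingOfIntegers.mapRingEquiv (σ : K ≃+* K) (algebraMap (𝓞 k) (𝓞 K) y) =
        algebraMap (𝓞 k) (𝓞 K) y := by
      apply RingOfIntegers.ext
      exact σ.commutes (y : k)
    rw [h4]
  change w.under (𝓞 k) ∈ S
  rw [← h3]
  exact h

/-- Proof: `grp_index` for `M = US K (Above K S)` (as a type), `σ` the restriction of the conjugation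
(`Quad.exists_conj`; it maps `US K (Above K S)` to itself since it permutes the places over each `v`),
`P` = the elements of `M` fixed by `σ` = the images of the elements of `US k S` (a fixed element is in `k`; for
`x : k` and `w` over `v`, `w x = v x` by `hu` outside `S`, and there is a `w` over every `v`, `exists_above`);
`a` = the image of `a`, a square in `M` (`α ∈ US K (Above K S)` since `α² = a`), not the square of an element of
`P` (`a` is not a square in `k`).  `s = S.ncard + card (InfinitePlace k)`, `t = (Above K S).ncard +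
card (InfinitePlace K)` by `sunit_index` for `k` and `K` (transport the index through the isomorphism of
`US k S` with `P`).  Result: `[P : N M] ≠ 0`, `[P : N M] 2^(t+1) ≤ 2^(2s)`, and `[US k S : NU K S] = [P : N M]`.
With `2 s ≤ t + nsp a S` (`above_fin`, `above_inf`): `[P : N M] * 2^(t+1) ≤ 2^(t + nsp)`. -/
theorem norm_index {k : Type} [Field k] [NumberField k] {K : Type} [Field K] [NumberField K]
    [Algebra k K] {a : kˣ} {α : K} (hK : Quad a K α) {S : Set (HeightOneSpectrum (𝓞 k))}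
    (hb : Big S) (hu : Unram K S) (ha : a ∈ US k S) : (NU K S).relIndex (US k S) ≠ 0 ∧
      (NU K S).relIndex (US k S) * 2 ≤ 2 ^ nsp a S := by
  obtain ⟨σ, hσα, hσσ, hσfix, hσN, -⟩ := hK.exists_conj
  -- the group and the involution
  obtain ⟨G, hG⟩ : ∃ G : Subgroup Kˣ, G = US K (Above K S) := ⟨_, rfl⟩
  have hGm : ∀ x : Kˣ, x ∈ G ↔ x ∈ US K (Above K S) := by
    intro x
    rw [hG]
  have hst : ∀ x ∈ G, Units.map (σ : K →* K) x ∈ G := by
    rw [hG]
    exact fun x hx => NIdx_stab σ hx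
  have hss : ∀ x : Kˣ, Units.map (σ : K →* K) (Units.map (σ : K →* K) x) = x :=
    fun x => Units.ext (hσσ x)
  obtain ⟨τ, hτ⟩ : ∃ τ : G ≃* G, ∀ x : G, ((τ x : G) : Kˣ) = Units.map (σ : K →* K) x :=
    ⟨{ toFun := fun x => ⟨Units.map (σ : K →* K) x, hst x x.2⟩
       invFun := fun x => ⟨Units.map (σ : K →* K) x, hst x x.2⟩
       left_inv := fun x => Subtype.ext (hss x)
       right_inv := fun x => Subtype.ext (hss x)
       map_mul' := fun x y => Subtype.ext (map_mul (Units.map (σ : K →* K)) (x : Kˣ) y) },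
      fun _ => rfl⟩
  have hτK : ∀ x : G, (((τ x : G) : Kˣ) : K) = σ ((x : Kˣ) : K) := fun x => by
    rw [hτ x]
    rfl
  -- the embedding
  obtain ⟨ι, hι⟩ : ∃ ι : kˣ →* Kˣ, ∀ x : kˣ, ((ι x : Kˣ) : K) = algebraMap k K x :=
    ⟨Units.map (algebraMap k K : k →* K), fun _ => rfl⟩
  have hιi : Function.Injective ι := by
    intro x y hxy
    apply Units.ext
    apply (algebraMap k K).injective
    rw [← hι, ← hι, hxy]
  have hιG : ∀ x ∈ US k S, ι x ∈ G := by
    intro x hx
    rw [hG, mem_US]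
    intro w hw
    rw [hι, hu w hw]
    exact hx _ hw
  -- the fixed elements
  obtain ⟨P, hP⟩ : ∃ P : Subgroup G, ∀ x, x ∈ P ↔ τ x = x :=
    ⟨{ carrier := {x | τ x = x}
       mul_mem' := fun {x y} hx hy => by
         change τ (x * y) = x * y
         rw [map_mul, show τ x = x from hx, show τ y = y from hy]
       one_mem' := map_one τ
       inv_mem' := fun {x} hx => by
         change τ x⁻¹ = x⁻¹
         rw [map_inv, show τ x = x from hx] }, fun _ => Iff.rfl⟩
  have hPk : ∀ x : G, x ∈ P → ∃ y ∈ US k S, ι y = x := by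
    intro x hx
    rw [hP] at hx
    have h1 : σ ((x : Kˣ) : K) = ((x : Kˣ) : K) := by rw [← hτK, hx]
    obtain ⟨y, hy⟩ := (hσfix _).1 h1
    have hy0 : y ≠ 0 := by
      rintro rfl
      rw [map_zero] at hy
      exact (x : Kˣ).ne_zero hy
    refine ⟨Units.mk0 y hy0, ?_, Units.ext ?_⟩
    · rw [mem_US]
      intro v hv
      obtain ⟨w, hw⟩ := exists_above (K := K) v
      have hwS : w.under (𝓞 k) ∉ S := by rwa [hw]
      have h2 := hu w hwS y
      have h3 : w.valuation K ((x : Kˣ) : K) = 1 := by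
        exact (hGm _).1 x.2 w hwS
      rw [Units.val_mk0, ← hw, ← h2, ← hy]
      exact h3
    · rw [hι, Units.val_mk0, hy]
  have hPk' : ∀ (y : kˣ) (hy : y ∈ US k S), (⟨ι y, hιG y hy⟩ : G) ∈ P := by
    intro y hy
    rw [hP]
    apply Subtype.ext
    apply Units.ext
    rw [hτK]
    change σ (ι y : K) = (ι y : K)
    rw [hι, σ.commutes]
  have hPmap : P.map G.subtype = (US k S).map ι := by
    ext x
    constructor
    · rintro ⟨x, hx, rfl⟩
      obtain ⟨y, hy, hyx⟩ := hPk x hx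
      exact ⟨y, hy, hyx⟩
    · rintro ⟨y, hy, rfl⟩
      exact ⟨⟨ι y, hιG y hy⟩, hPk' y hy, rfl⟩
  -- the element a
  have hα0 : α ≠ 0 := by
    rintro rfl
    have h1 := hK.sq
    rw [zero_pow two_ne_zero] at h1
    exact a.ne_zero ((map_eq_zero (algebraMap k K)).1 h1.symm)
  have hαG : Units.mk0 α hα0 ∈ G := by
    rw [hG, mem_US]
    intro w hw
    have h1 : w.valuation K (α ^ 2) = 1 := by
      rw [hK.sq, hu w hw]
      exact ha _ hw
    rw [map_pow] at h1
    exact (pow_eq_one_iff.1 h1).resolve_right two_ne_zero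
  have hfinK := above_fin hK S hb.fin
  -- the indices
  have hM : (powMonoidHom 2 : G →* G).range.index =
      2 ^ ((Above K S).ncard + Fintype.card (InfinitePlace K)) := by
    rw [← sunit_index (Above K S) hfinK.1, ← Subgroup.relIndex_top_right,
      ← Subgroup.relIndex_map_map_of_injective _ _ G.subtype_injective]
    congr 1
    · ext x
      constructor
      · rintro ⟨_, ⟨x, rfl⟩, rfl⟩
        refine ⟨(x : Kˣ), ?_, rfl⟩
        rw [← hG]
        exact x.2
      · rintro ⟨x, hx, rfl⟩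
        rw [← hG] at hx
        exact ⟨_, ⟨⟨x, hx⟩, rfl⟩, rfl⟩
    · rw [← MonoidHom.range_eq_map, Subgroup.range_subtype, hG]
  have hPi : (P.map (powMonoidHom 2)).relIndex P =
      2 ^ (S.ncard + Fintype.card (InfinitePlace k)) := by
    rw [← sunit_index S hb.fin, ← Subgroup.relIndex_map_map_of_injective _ _ G.subtype_injective,
      ← Subgroup.relIndex_map_map_of_injective _ _ hιi, hPmap]
    congr 1
    ext x
    constructor
    · rintro ⟨_, ⟨x, hx, rfl⟩, rfl⟩
      obtain ⟨y, hy, hyx⟩ := hPk x hx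
      refine ⟨y ^ 2, ⟨y, hy, rfl⟩, ?_⟩
      rw [map_pow, hyx]
      rfl
    · rintro ⟨_, ⟨y, hy, rfl⟩, rfl⟩
      refine ⟨_, ⟨⟨ι y, hιG y hy⟩, hPk' y hy, rfl⟩, ?_⟩
      change ι y ^ 2 = ι (y ^ 2)
      rw [map_pow]
  have key := grp_index τ (fun x => Subtype.ext (by rw [hτ, hτ]; exact hss x))
    (by
      intro x hx
      have h1 : ((x : Kˣ) : K) * σ ((x : Kˣ) : K) = 1 := by
        have h2 := congrArg (fun z : G => ((z : Kˣ) : K)) hx
        rw [← hτK]
        exact h2
      have hxG : (x : Kˣ) ∈ US K (Above K S) := by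
        rw [← hG]
        exact x.2
      obtain ⟨z, hz, hzx⟩ := h1_units hK hb hu σ hσα hσσ x hxG h1
      rw [← hG] at hz
      refine ⟨⟨z, hz⟩, Subtype.ext (Units.ext ?_)⟩
      rw [Subgroup.coe_div, Units.val_div_eq_div_val, hτK]
      exact hzx)
    hM P hP hPi (hPk' a ha) ⟨⟨Units.mk0 α hα0, hαG⟩, Subtype.ext (Units.ext (by
      rw [Subgroup.coe_pow, Units.val_pow_eq_pow_val]
      change (ι a : K) = α ^ 2
      rw [hι, hK.sq]))⟩
    (by
      rintro ⟨y, hy, hya⟩
      obtain ⟨b, hb', hby⟩ := hPk y hy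
      apply hK.nsq
      refine ⟨(b : k), ?_⟩
      apply (algebraMap k K).injective
      have h1 := congrArg (fun z : G => ((z : Kˣ) : K)) hya
      change (ι a : K) = ((y ^ 2 : G) : Kˣ) at h1
      rw [Subgroup.coe_pow, Units.val_pow_eq_pow_val, ← hby, hι, hι] at h1
      rw [h1, map_mul, pow_two])
  -- the norms
  have hN : (MonoidHom.id G * τ.toMonoidHom).range.relIndex P = (NU K S).relIndex (US k S) := by
    rw [← Subgroup.relIndex_map_map_of_injective _ _ G.subtype_injective,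
      ← Subgroup.relIndex_map_map_of_injective (NU K S) _ hιi, hPmap]
    congr 1
    have h1 : ∀ x : G, ι (Units.map (Algebra.norm k : K →* k) (x : Kˣ)) =
        ((x * τ x : G) : Kˣ) := by
      intro x
      apply Units.ext
      rw [hι, Subgroup.coe_mul, Units.val_mul, hτK]
      exact hσN _
    ext x
    constructor
    · rintro ⟨_, ⟨x, rfl⟩, rfl⟩
      refine ⟨_, ⟨(x : Kˣ), ?_, rfl⟩, h1 x⟩
      change (x : Kˣ) ∈ US K (Above K S)
      rw [← hG]
      exact x.2
    · rintro ⟨_, ⟨x, hx, rfl⟩, rfl⟩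
      have hx' : x ∈ G := by
        rw [hG]
        exact hx
      exact ⟨_, ⟨⟨x, hx'⟩, rfl⟩, (h1 ⟨x, hx'⟩).symm⟩
  rw [hN] at key
  refine ⟨key.1, ?_⟩
  have hinf := above_inf hK
  have h2 : (NU K S).relIndex (US k S) * 2 ^ ((Above K S).ncard +
      Fintype.card (InfinitePlace K) + 1) ≤
        2 ^ ((Above K S).ncard + Fintype.card (InfinitePlace K) + nsp a S) := by
    refine key.2.trans (Nat.pow_le_pow_right (by norm_num) ?_)
    have h3 := hfinK.2
    unfold nsp
    omega
  obtain ⟨T, hT⟩ : ∃ T, T = (Above K S).ncard + Fintype.card (InfinitePlace K) := ⟨_, rfl⟩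
  rw [← hT, pow_succ, pow_add, mul_left_comm] at h2
  exact Nat.le_of_mul_le_mul_left h2 (by positivity)

end HN83
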