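import Mathlib

/-! Values of the norm form of the unramified quadratic extension, places above two (for hn/NmTwo). -/

set_option autoImplicit false

namespace HN83

open scoped WithZero

variable {F : Type*} [Field F]

theorem ntA_even (V : Valuation F ℤᵐ⁰) {ρ : F} (hρ : V ρ ≤ 1)
    (h : ∀ r, V r ≤ 1 → V (r ^ 2 + r + ρ) = 1) (s t : F) :
    V (s ^ 2 + s * t + ρ * t ^ 2) = max (V s) (V t) ^ 2 := by
  by_cases ht : t = 0
  · subst ht
    rw [map_zero, max_eq_left zero_le, ← map_pow]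
    congr 1
    ring
  · have hVt : V t ≠ 0 := (Valuation.ne_zero_iff V).2 ht
    have e : s ^ 2 + s * t + ρ * t ^ 2 = t ^ 2 * ((s / t) ^ 2 + s / t + ρ) := by
      field_simp
    rcases le_or_gt (V s) (V t) with hst | hst
    · have hr : V (s / t) ≤ 1 := by
        rw [map_div₀]
        exact div_le_one_of_le₀ hst zero_le
      rw [e, map_mul, h _ hr, mul_one, map_pow, max_eq_right hst]
    · have hr : 1 < V (s / t) := by
        rw [map_div₀, one_lt_div₀ (zero_lt_iff.2 hVt)]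
        exact hst
      have hr2 : V (s / t) < V (s / t) ^ 2 := by
        rw [pow_two]
        exact lt_mul_of_one_lt_left (zero_lt_one.trans hr) hr
      have h1 : V (s / t + ρ) < V ((s / t) ^ 2) := by
        rw [map_pow]
        refine (Valuation.map_add V _ _).trans_lt (max_lt hr2 ?_)
        exact (hρ.trans_lt hr).trans hr2
      have h2 : V ((s / t) ^ 2 + s / t + ρ) = V ((s / t) ^ 2) := by
        rw [add_assoc]
        exact Valuation.map_add_eq_of_lt_left V h1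
      rw [e, map_mul, h2, ← map_mul, max_eq_left hst.le, ← map_pow]
      congr 1
      field_simp

theorem ntA_even' (V : Valuation F ℤᵐ⁰) {ρ : F} (hρ : V ρ ≤ 1)
    (h : ∀ r, V r ≤ 1 → V (r ^ 2 + r + ρ) = 1) (h2 : (2 : F) ≠ 0) (s t : F) :
    ∃ m : F, V (s ^ 2 - (1 - 4 * ρ) * t ^ 2) = V m ^ 2 ∧ (m = 0 → s = 0 ∧ t = 0) := by
  have e : s ^ 2 - (1 - 4 * ρ) * t ^ 2 = (s - t) ^ 2 + (s - t) * (2 * t) + ρ * (2 * t) ^ 2 := by
    ring
  have h1 := ntA_even V hρ h (s - t) (2 * t)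
  rcases le_or_gt (V (s - t)) (V (2 * t)) with hc | hc
  · refine ⟨2 * t, ?_, fun h0 => ?_⟩
    · rw [e, h1, max_eq_right hc]
    · have ht : t = 0 := by
        rcases mul_eq_zero.1 h0 with h3 | h3
        · exact absurd h3 h2
        · exact h3
      rw [h0, map_zero, le_zero_iff, Valuation.zero_iff, sub_eq_zero] at hc
      exact ⟨hc.trans ht, ht⟩
  · refine ⟨s - t, ?_, fun h0 => ?_⟩
    · rw [e, h1, max_eq_left hc.le]
    · rw [h0, map_zero] at hc
      exact absurd hc not_lt_zero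

theorem ntA_step (V : Valuation F ℤᵐ⁰) {ρ : F} (hρ : V ρ ≤ 1)
    (h : ∀ r, V r ≤ 1 → V (r ^ 2 + r + ρ) = 1) (h2 : (2 : F) ≠ 0) {x y : F}
    (hxy : x * y = 4 * ρ) (hx : ∀ m : F, V x ≠ V m ^ 2) (h1 : V (1 - x) = 1)
    (h1' : V (1 - y) = 1) : ¬ ∃ s t : F, 1 - y = s ^ 2 - (1 - x) * t ^ 2 := by
  rintro ⟨s, t, hst⟩
  -- `P = x (1 - y)` is also a norm
  obtain ⟨P, hP⟩ : ∃ P, P = x * (1 - y) := ⟨_, rfl⟩
  obtain ⟨S, hS⟩ : ∃ S, S = s + (1 - x) * t := ⟨_, rfl⟩
  obtain ⟨T, hT⟩ : ∃ T, T = s + t := ⟨_, rfl⟩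
  have hPn : P = S ^ 2 - (1 - x) * T ^ 2 := by
    rw [hP, hst, hS, hT]
    ring
  have hAP : (1 - x) + P = 1 - 4 * ρ := by
    rw [hP, ← hxy]
    ring
  have hVP : V (-((1 - x) * P)) = V x := by
    rw [Valuation.map_neg, hP, map_mul, map_mul, h1, h1', one_mul, mul_one]
  by_cases hS0 : S = 0
  · have e : -((1 - x) * P) = ((1 - x) * T) ^ 2 := by
      rw [hPn, hS0]
      ring
    rw [e, map_pow] at hVP
    exact hx _ hVP.symm
  · obtain ⟨m, hm⟩ : ∃ m, m = T / S := ⟨_, rfl⟩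
    obtain ⟨n, hn⟩ : ∃ n, n = 1 / S := ⟨_, rfl⟩
    have h3 : 1 = (1 - x) * m ^ 2 + P * n ^ 2 := by
      rw [hm, hn, hPn]
      field_simp
      ring
    obtain ⟨r, hr⟩ : ∃ r, r = (1 - x) * m + P * n := ⟨_, rfl⟩
    have h4 : 1 - 4 * ρ = r ^ 2 + (1 - x) * P * (m - n) ^ 2 := by
      rw [← hAP, hr]
      linear_combination ((1 - x) + P) * h3
    obtain ⟨m0, hm0, hm1⟩ := ntA_even' V hρ h h2 r 1
    have hm2 : m0 ≠ 0 := fun h5 => one_ne_zero (hm1 h5).2
    have h5 : r ^ 2 - (1 - 4 * ρ) * 1 ^ 2 = -((1 - x) * P) * (m - n) ^ 2 := by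
      rw [h4]
      ring
    rw [h5, map_mul, map_pow] at hm0
    have hw : V (m - n) ≠ 0 := by
      intro h6
      rw [h6] at hm0
      have h7 : V m0 ^ 2 = 0 := by
        rw [← hm0]
        simp
      exact hm2 ((Valuation.zero_iff V).1 (pow_eq_zero_iff two_ne_zero |>.1 h7))
    refine hx (m0 / (m - n)) ?_
    rw [map_div₀, div_pow, eq_div_iff (pow_ne_zero 2 hw), ← hVP]
    exact hm0

end HN83
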