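import Mathlib

/-! Norm forms of quadratic extensions of a dyadic field: abstract version of `two_ne_top`. -/

set_option autoImplicit false

namespace HN83

section

variable {F : Type} [Field F] (w : Valuation F (WithZero (Multiplicative ℤ)))

/-- the nonzero elements with even valuation -/
def NmTwoM_Ev (x : F) : Prop := ∃ n : ℤ, w x = WithZero.exp (2 * n)

variable {w}

theorem NmTwoM_ord {x : F} (hx : x ≠ 0) : ∃ n : ℤ, w x = WithZero.exp n :=
  ⟨WithZero.log (w x), (WithZero.exp_log ((Valuation.ne_zero_iff w).2 hx)).symm⟩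

theorem NmTwoM_Ev.ne {x : F} (h : NmTwoM_Ev w x) : x ≠ 0 := by
  rintro rfl
  obtain ⟨n, hn⟩ := h
  rw [map_zero] at hn
  exact WithZero.exp_ne_zero hn.symm

theorem NmTwoM_odd {x : F} {n : ℤ} (h : w x = WithZero.exp (2 * n + 1)) : ¬ NmTwoM_Ev w x := by
  rintro ⟨m, hm⟩
  rw [h, WithZero.exp_inj] at hm
  omega

theorem NmTwoM_ev_or {x : F} (hx : x ≠ 0) : NmTwoM_Ev w x ∨ ∃ n : ℤ, w x = WithZero.exp (2 * n + 1) := by
  obtain ⟨n, hn⟩ := NmTwoM_ord (w := w) hx
  rcases Int.even_or_odd' n with ⟨m, rfl | rfl⟩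
  · exact Or.inl ⟨m, hn⟩
  · exact Or.inr ⟨m, hn⟩

theorem NmTwoM_Ev.mul_sq {x y : F} (hy : y ≠ 0) (h : NmTwoM_Ev w (x * y ^ 2)) : NmTwoM_Ev w x := by
  obtain ⟨n, hn⟩ := h
  obtain ⟨m, hm⟩ := NmTwoM_ord (w := w) hy
  refine ⟨n - m, ?_⟩
  have h0 : w y ≠ 0 := (Valuation.ne_zero_iff w).2 hy
  rw [map_mul, map_pow] at hn
  have h1 : w x = WithZero.exp (2 * n) / (w y) ^ 2 := by
    rw [← hn]
    field_simp
  rw [h1, hm, ← WithZero.exp_nsmul, ← WithZero.exp_sub]
  congr 1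
  simp only [nsmul_eq_mul, Nat.cast_ofNat]
  ring

/-- the anisotropic form -/
theorem NmTwoM_L0 {ρ : F} (h3 : ∀ x : F, w x ≤ 1 → w (x ^ 2 + x + ρ) = 1) (s t : F)
    (hst : s ≠ 0 ∨ t ≠ 0) : NmTwoM_Ev w (s ^ 2 + s * t + ρ * t ^ 2) := by
  have hρ : w ρ = 1 := by simpa using h3 0 (by simp)
  rcases le_or_gt (w s) (w t) with h | h
  · have ht : t ≠ 0 := by
      rintro rfl
      rw [map_zero, le_zero_iff, Valuation.zero_iff] at h
      rcases hst with h1 | h1
      · exact h1 h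
      · exact h1 rfl
    have e : s ^ 2 + s * t + ρ * t ^ 2 = t ^ 2 * ((s / t) ^ 2 + s / t + ρ) := by
      field_simp
    obtain ⟨n, hn⟩ := NmTwoM_ord (w := w) ht
    refine ⟨n, ?_⟩
    rw [e, map_mul, map_pow, h3 (s / t), mul_one, hn, ← WithZero.exp_nsmul]
    · congr 1
    · rw [map_div₀]
      exact div_le_one_of_le₀ h zero_le
  · have hs : s ≠ 0 := by
      rintro rfl
      rw [map_zero] at h
      exact absurd h not_lt_zero
    have hs0 : 0 < w s := zero_lt_iff.2 ((Valuation.ne_zero_iff w).2 hs)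
    have e1 : w (s * t) < w (s ^ 2) := by
      rw [map_mul, map_pow, pow_two]
      exact mul_lt_mul_of_pos_left h hs0
    have e2 : w (ρ * t ^ 2) < w (s ^ 2) := by
      rw [map_mul, hρ, one_mul, map_pow, map_pow]
      exact pow_lt_pow_left₀ h zero_le two_ne_zero
    have e3 : w (s ^ 2 + s * t) = w (s ^ 2) := Valuation.map_add_eq_of_lt_left w e1
    have e4 : w (s ^ 2 + s * t + ρ * t ^ 2) = w (s ^ 2) := by
      rw [← e3]
      exact Valuation.map_add_eq_of_lt_left w (by rw [e3]; exact e2)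
    obtain ⟨n, hn⟩ := NmTwoM_ord (w := w) hs
    refine ⟨n, ?_⟩
    rw [e4, map_pow, hn, ← WithZero.exp_nsmul]
    congr 1

/-- the norm form of `1 - 4 ρ` -/
theorem NmTwoM_L1 (h2 : (2 : F) ≠ 0) {ρ : F} (h3 : ∀ x : F, w x ≤ 1 → w (x ^ 2 + x + ρ) = 1)
    (s t : F) (hst : s ≠ 0 ∨ t ≠ 0) : NmTwoM_Ev w (s ^ 2 - (1 - 4 * ρ) * t ^ 2) := by
  have h := NmTwoM_L0 h3 (s - t) (2 * t) ?_
  · have e : s ^ 2 - (1 - 4 * ρ) * t ^ 2 = (s - t) ^ 2 + (s - t) * (2 * t) + ρ * (2 * t) ^ 2 := by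
      ring
    rw [e]
    exact h
  · by_contra hc
    push Not at hc
    have ht : t = 0 := (mul_eq_zero.1 hc.2).resolve_left h2
    have hs : s = 0 := by
      have := hc.1
      rw [ht, sub_zero] at this
      exact this
    rcases hst with h1 | h1
    · exact h1 hs
    · exact h1 ht

end

/-- the algebraic identity of Hilbert symbols used below -/
theorem NmTwoM_id {F : Type} [Field F] (h2 : (2 : F) ≠ 0) {A P C : F} (hA : A ≠ 0) (hP : P ≠ 0)
    (hC : A + P = C) {s t : F} (hst : P = s ^ 2 - A * t ^ 2) :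
    ∃ r u : F, C = r ^ 2 + A * P * u ^ 2 := by
  obtain ⟨m, n, h1⟩ : ∃ m n : F, A * m ^ 2 + P * n ^ 2 = 1 := by
    by_cases hs : s = 0
    · have ht : t ≠ 0 := by
        rintro rfl
        apply hP
        rw [hst, hs]
        ring
      refine ⟨(1 + 1 / A) / 2, (1 - 1 / A) / (2 * t), ?_⟩
      rw [hst, hs]
      field_simp
      ring
    · refine ⟨t / s, 1 / s, ?_⟩
      field_simp
      rw [hst]
      ring
  refine ⟨A * m + P * n, m - n, ?_⟩
  have e : C = C * (A * m ^ 2 + P * n ^ 2) := by rw [h1, mul_one]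
  rw [e, ← hC]
  ring

/-- **Main lemma.**  In a dyadic field the norm group of a nontrivial quadratic extension is proper. -/
theorem NmTwoM_main {F : Type} [Field F] (w : Valuation F (WithZero (Multiplicative ℤ)))
    (h20 : (2 : F) ≠ 0) (h2 : w (2 : F) < 1)
    {p : F} (hp : w p = WithZero.exp (-1))
    (hsq : ∀ u : F, w u = 1 → ∃ c : F, w c = 1 ∧ w (u - c ^ 2) < 1)
    {ρ : F} (hρ : ∀ x : F, w x ≤ 1 → w (x ^ 2 + x + ρ) = 1)
    (h4 : ∀ x : F, w (x - 1) < w (4 : F) → IsSquare x)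
    {a : F} (ha0 : a ≠ 0) (ha : ¬ IsSquare a) :
    ∃ b : F, b ≠ 0 ∧ ∀ s t : F, b ≠ s ^ 2 - a * t ^ 2 := by
  have hp0 : p ≠ 0 := by
    rintro rfl
    rw [map_zero] at hp
    exact WithZero.exp_ne_zero hp.symm
  have hρ1 : w ρ = 1 := by simpa using hρ 0 (by simp)
  obtain ⟨δ, hδ⟩ : ∃ δ : F, δ = 1 - 4 * ρ := ⟨_, rfl⟩
  have hL1 : ∀ s t : F, s ≠ 0 ∨ t ≠ 0 → NmTwoM_Ev w (s ^ 2 - δ * t ^ 2) := by
    rw [hδ]
    exact NmTwoM_L1 h20 hρ
  have hδ0 : δ ≠ 0 := by
    intro h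
    have h1 := (hL1 0 1 (Or.inr one_ne_zero)).ne
    rw [h] at h1
    apply h1
    ring
  rcases NmTwoM_ev_or (w := w) ha0 with hev | ⟨n, hn⟩
  swap
  · -- odd valuation
    refine ⟨δ, hδ0, fun s t hst => ?_⟩
    by_cases ht : t = 0
    · have h1 := (hL1 s 1 (Or.inr one_ne_zero)).ne
      apply h1
      rw [hst, ht]
      ring
    · have h1 := hL1 s 1 (Or.inr one_ne_zero)
      have e : s ^ 2 - δ * 1 ^ 2 = a * t ^ 2 := by
        rw [hst]
        ring
      rw [e] at h1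
      exact NmTwoM_odd hn (h1.mul_sq ht)
  -- even valuation: reduction to a unit
  obtain ⟨k, hk⟩ := hev
  have hpow : ∀ j : ℤ, w (p ^ j) = WithZero.exp (-j) := by
    intro j
    rw [map_zpow₀, hp, ← WithZero.exp_zsmul]
    congr 1
    simp
  -- the units which are a times a square
  have hex : ∃ d : ℤ, 1 ≤ d ∧ ∃ c : F, c ≠ 0 ∧ w (a * c ^ 2) = 1 ∧
      w (a * c ^ 2 - 1) = WithZero.exp (-d) := by
    have hu : w (a * (p ^ k) ^ 2) = 1 := by
      rw [map_mul, map_pow, hk, hpow, ← WithZero.exp_nsmul, ← WithZero.exp_add]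
      rw [WithZero.exp_eq_one]
      simp only [nsmul_eq_mul, Nat.cast_ofNat]
      ring
    obtain ⟨c, hc, hc'⟩ := hsq _ hu
    have hc0 : c ≠ 0 := by
      rintro rfl
      rw [map_zero] at hc
      exact zero_ne_one hc
    have hne : a * (p ^ k * c⁻¹) ^ 2 - 1 ≠ 0 := by
      intro h
      apply ha
      have hpk : p ^ k ≠ 0 := zpow_ne_zero _ hp0
      refine ⟨c / p ^ k, ?_⟩
      have h1 : a * (p ^ k * c⁻¹) ^ 2 = 1 := sub_eq_zero.1 h
      field_simp at h1 ⊢
      linear_combination h1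
    obtain ⟨d, hd⟩ := NmTwoM_ord (w := w) hne
    refine ⟨-d, ?_, p ^ k * c⁻¹, ?_, ?_, ?_⟩
    · have h1 : w (a * (p ^ k * c⁻¹) ^ 2 - 1) < 1 := by
        have e : a * (p ^ k * c⁻¹) ^ 2 - 1 = (a * (p ^ k) ^ 2 - c ^ 2) * (c⁻¹) ^ 2 := by
          field_simp
        rw [e, map_mul, map_pow, map_inv₀, hc, inv_one, one_pow, mul_one]
        exact hc'
      rw [hd, ← WithZero.exp_zero, WithZero.exp_lt_exp] at h1
      omega
    · exact mul_ne_zero (zpow_ne_zero _ hp0) (inv_ne_zero hc0)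
    · rw [mul_pow, ← mul_assoc, map_mul, hu, map_pow, map_inv₀, hc, inv_one, one_pow, one_mul]
    · rw [neg_neg]
      exact hd
  -- the order of four
  obtain ⟨e, he⟩ : ∃ e : ℤ, w (2 : F) = WithZero.exp (-e) := by
    obtain ⟨n, hn⟩ := NmTwoM_ord (w := w) h20
    exact ⟨-n, by rw [neg_neg]; exact hn⟩
  have he1 : 1 ≤ e := by
    rw [he, ← WithZero.exp_zero, WithZero.exp_lt_exp] at h2
    omega
  have h40 : w (4 : F) = WithZero.exp (-(2 * e)) := by
    have h1 : (4 : F) = 2 ^ 2 := by norm_num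
    rw [h1, map_pow, he, ← WithZero.exp_nsmul]
    congr 1
    simp only [nsmul_eq_mul, Nat.cast_ofNat]
    ring
  -- the orders are bounded
  have hbdd : ∀ d : ℤ, (1 ≤ d ∧ ∃ c : F, c ≠ 0 ∧ w (a * c ^ 2) = 1 ∧
      w (a * c ^ 2 - 1) = WithZero.exp (-d)) → d ≤ 2 * e := by
    rintro d ⟨-, c, hc0, -, hc⟩
    by_contra hd
    apply ha
    obtain ⟨r, hr⟩ := h4 (a * c ^ 2) (by
      rw [hc, h40, WithZero.exp_lt_exp]
      omega)
    refine ⟨r / c, ?_⟩
    field_simp
    linear_combination hr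
  obtain ⟨d, ⟨hd1, c, hc0, hc1, hcd⟩, hmax⟩ := Int.exists_greatest_of_bdd ⟨2 * e, hbdd⟩ hex
  have hd2 : d ≤ 2 * e := hbdd d ⟨hd1, c, hc0, hc1, hcd⟩
  obtain ⟨A, hA⟩ : ∃ A : F, A = a * c ^ 2 := ⟨_, rfl⟩
  rw [← hA] at hc1 hcd
  have hA0 : A ≠ 0 := by
    rw [hA]
    exact mul_ne_zero ha0 (pow_ne_zero 2 hc0)
  -- maximality
  have hmax' : ∀ g : F, w g = 1 → ¬ w (A - g ^ 2) < WithZero.exp (-d) := by
    intro g hg hlt
    have hg0 : g ≠ 0 := by
      rintro rfl
      rw [map_zero] at hg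
      exact zero_ne_one hg
    have e1 : a * (c * g⁻¹) ^ 2 - 1 = (A - g ^ 2) * (g⁻¹) ^ 2 := by
      rw [hA]
      field_simp
    have e2 : w (a * (c * g⁻¹) ^ 2 - 1) = w (A - g ^ 2) := by
      rw [e1, map_mul, map_pow, map_inv₀, hg, inv_one, one_pow, mul_one]
    have hne : a * (c * g⁻¹) ^ 2 - 1 ≠ 0 := by
      intro h
      apply ha
      refine ⟨g / c, ?_⟩
      have h1 : a * (c * g⁻¹) ^ 2 = 1 := sub_eq_zero.1 h
      field_simp at h1 ⊢
      linear_combination h1
    obtain ⟨n, hn⟩ := NmTwoM_ord (w := w) hne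
    have h5 : w (A - g ^ 2) = WithZero.exp (-(-n)) := by rw [← e2, hn, neg_neg]
    rw [h5, WithZero.exp_lt_exp] at hlt
    have h6 := hmax (-n) ⟨by omega, c * g⁻¹, mul_ne_zero hc0 (inv_ne_zero hg0), ?_, ?_⟩
    · omega
    · have e3 : a * (c * g⁻¹) ^ 2 = A * (g⁻¹) ^ 2 := by
        rw [hA]
        ring
      rw [e3, map_mul, hc1, map_pow, map_inv₀, hg, inv_one, one_pow, one_mul]
    · rw [e2, h5]
  -- transfer from A to a
  have htr : (∃ b : F, b ≠ 0 ∧ ∀ s t : F, b ≠ s ^ 2 - A * t ^ 2) →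
      ∃ b : F, b ≠ 0 ∧ ∀ s t : F, b ≠ s ^ 2 - a * t ^ 2 := by
    rintro ⟨b, hb0, hb⟩
    refine ⟨b, hb0, fun s t hst => hb s (t / c) ?_⟩
    rw [hst, hA]
    field_simp
  apply htr
  obtain ⟨α, hα⟩ : ∃ α : F, α = A - 1 := ⟨_, rfl⟩
  rw [← hα] at hcd
  have hα0 : α ≠ 0 := by
    rintro rfl
    rw [map_zero] at hcd
    exact WithZero.exp_ne_zero hcd.symm
  have h4ne : (4 : F) ≠ 0 := by
    have h1 : (4 : F) = 2 * 2 := by norm_num
    rw [h1]
    exact mul_ne_zero h20 h20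
  rcases hd2.lt_or_eq with hlt | heq
  swap
  · -- d = 2 e
    obtain ⟨z, hz⟩ : ∃ z : F, z = α / 4 := ⟨_, rfl⟩
    have hAz : A = 1 - 4 * (-z) := by
      rw [hz, hα]
      field_simp
      ring
    have hz1 : w z = 1 := by
      rw [hz, map_div₀, hcd, h40, heq]
      exact div_self WithZero.exp_ne_zero
    have hkey : ∀ x : F, w x ≤ 1 → w (x ^ 2 + x + -z) = 1 := by
      intro x hx
      have hx2 : w (x ^ 2) ≤ 1 := by
        rw [map_pow]
        exact pow_le_one₀ zero_le hx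
      have hle : w (x ^ 2 + x + -z) ≤ 1 := by
        refine (Valuation.map_add w _ _).trans (max_le ((Valuation.map_add w _ _).trans
          (max_le hx2 hx)) ?_)
        rw [Valuation.map_neg]
        exact hz1.le
      by_contra hne
      have hlt' := lt_of_le_of_ne hle hne
      have h1x : w (2 * x) < 1 := by
        rw [map_mul]
        exact (mul_le_of_le_one_right zero_le hx).trans_lt h2
      have hg : w (1 + 2 * x) = 1 := by
        have h5 := Valuation.map_add_eq_of_lt_left w (x := 1) (y := 2 * x) (by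
          rw [map_one]
          exact h1x)
        rw [h5, map_one]
      apply hmax' _ hg
      have e1 : A - (1 + 2 * x) ^ 2 = -(4 * (x ^ 2 + x + -z)) := by
        rw [hAz]
        ring
      rw [e1, Valuation.map_neg, map_mul, h40, heq]
      exact mul_lt_of_lt_one_right WithZero.exp_pos hlt'
    refine ⟨p, hp0, fun s t hst => ?_⟩
    have hst0 : s ≠ 0 ∨ t ≠ 0 := by
      by_contra hc
      push Not at hc
      apply hp0
      rw [hst, hc.1, hc.2]
      ring
    have h5 := NmTwoM_L1 h20 hkey s t hst0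
    rw [← hAz, ← hst] at h5
    refine NmTwoM_odd (n := -1) ?_ h5
    rw [hp]
    norm_num
  · -- d < 2 e, so d is odd
    have hodd : ∃ j : ℤ, d = 2 * j + 1 := by
      rcases Int.even_or_odd' d with ⟨i, hi | hi⟩
      swap
      · exact ⟨i, hi⟩
      exfalso
      have hi1 : 1 ≤ i := by omega
      have hie : i < e := by omega
      have hpi : p ^ i ≠ 0 := zpow_ne_zero _ hp0
      have hu : w (α / (p ^ i) ^ 2) = 1 := by
        rw [map_div₀, hcd, map_pow, hpow, ← WithZero.exp_nsmul, ← WithZero.exp_sub,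
          WithZero.exp_eq_one]
        simp only [nsmul_eq_mul, Nat.cast_ofNat]
        omega
      obtain ⟨g, hg, hg'⟩ := hsq _ hu
      have hpg : w (p ^ i * g) < 1 := by
        rw [map_mul, hg, mul_one, hpow, ← WithZero.exp_zero, WithZero.exp_lt_exp]
        omega
      have hG : w (1 + p ^ i * g) = 1 := by
        have h5 := Valuation.map_add_eq_of_lt_left w (x := 1) (y := p ^ i * g) (by
          rw [map_one]
          exact hpg)
        rw [h5, map_one]
      apply hmax' _ hG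
      have e1 : A - (1 + p ^ i * g) ^ 2 = (p ^ i) ^ 2 * (α / (p ^ i) ^ 2 - g ^ 2) - 2 * p ^ i * g := by
        have h5 : A = 1 + α := by rw [hα]; ring
        rw [h5]
        field_simp
        ring
      rw [e1]
      refine (Valuation.map_sub w _ _).trans_lt (max_lt ?_ ?_)
      · rw [map_mul, map_pow, hpow, ← WithZero.exp_nsmul]
        have h6 : WithZero.exp (-d) = WithZero.exp (2 • -i) * 1 := by
          rw [mul_one]
          congr 1
          simp only [nsmul_eq_mul, Nat.cast_ofNat]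
          omega
        rw [h6]
        exact mul_lt_mul_of_pos_left hg' WithZero.exp_pos
      · rw [map_mul, map_mul, he, hpow, hg, mul_one, ← WithZero.exp_add, WithZero.exp_lt_exp]
        omega
    obtain ⟨j, hj⟩ := hodd
    obtain ⟨x, hx⟩ : ∃ x : F, x = -α := ⟨_, rfl⟩
    obtain ⟨y, hy⟩ : ∃ y : F, y = 4 * ρ / x := ⟨_, rfl⟩
    obtain ⟨B, hB⟩ : ∃ B : F, B = 1 - y := ⟨_, rfl⟩
    have hx0 : x ≠ 0 := by
      rw [hx]
      exact neg_ne_zero.2 hα0
    have hwx : w x = WithZero.exp (-d) := by rw [hx, Valuation.map_neg, hcd]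
    have hwy : w y < 1 := by
      rw [hy, map_div₀, map_mul, h40, hρ1, mul_one, hwx, ← WithZero.exp_sub,
        ← WithZero.exp_zero, WithZero.exp_lt_exp]
      omega
    have hwB : w B = 1 := by
      rw [hB]
      have h5 := Valuation.map_sub_eq_of_lt_left w (x := (1 : F)) (y := y) (by
        rw [map_one]
        exact hwy)
      rw [h5, map_one]
    have hB0 : B ≠ 0 := by
      rintro h
      rw [h, map_zero] at hwB
      exact zero_ne_one hwB
    refine ⟨B, hB0, fun s t hst => ?_⟩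
    have hAx : A = 1 - x := by
      rw [hx, hα]
      ring
    have hxy : x * y = 4 * ρ := by
      rw [hy]
      field_simp
    have hP : x * B = (s + A * t) ^ 2 - A * (s + t) ^ 2 := by
      have h5 : x = 1 - A := by rw [hAx]; ring
      rw [hst]
      nth_rewrite 1 [h5]
      ring
    have hC : A + x * B = δ := by
      rw [hδ, ← hxy, hAx, hB]
      ring
    obtain ⟨r, u, hru⟩ := NmTwoM_id h20 hA0 (mul_ne_zero hx0 hB0) hC hP
    by_cases hu : u = 0
    · apply (hL1 r 1 (Or.inr one_ne_zero)).ne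
      rw [hru, hu]
      ring
    · have h5 := hL1 r 1 (Or.inr one_ne_zero)
      have e1 : r ^ 2 - δ * 1 ^ 2 = -(A * (x * B)) * u ^ 2 := by
        rw [hru]
        ring
      rw [e1] at h5
      have h6 := h5.mul_sq hu
      refine NmTwoM_odd (n := -j - 1) ?_ h6
      rw [Valuation.map_neg, map_mul, map_mul, hc1, hwx, hwB, one_mul, mul_one, hj]
      congr 1
      ring

end HN83
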