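import Pool.Agent.H.MP_83e36b_nt.hn.HDef
import Pool.Agent.H.MP_83e36b_nt.nf.U5a

/-! The number of the classes of squares at a finite place. -/

set_option autoImplicit false

open NumberField IsDedekindDomain IsDedekindDomain.HeightOneSpectrum
  NumberField.HeightOneSpectrum

namespace HN83

variable {k : Type} [Field k] [NumberField k]

private theorem SqI_norm (v : HeightOneSpectrum (𝓞 k)) (x : v.adicCompletion k) :
    ‖x‖ = WithZeroMulInt.toNNReal (absNorm_ne_zero v) (Valued.v x) :=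
  FinitePlace.norm_def (v := v) x

private theorem SqI_mono (v : HeightOneSpectrum (𝓞 k)) {x y : v.adicCompletion k}
    (h : Valued.v x ≤ Valued.v y) : ‖x‖ ≤ ‖y‖ := by
  rw [SqI_norm, SqI_norm]
  exact_mod_cast (WithZeroMulInt.toNNReal_strictMono (one_lt_absNorm_nnreal v)).monotone h

private theorem SqI_lt (v : HeightOneSpectrum (𝓞 k)) (x : v.adicCompletion k) :
    ‖x‖ < 1 ↔ Valued.v x < 1 := by
  rw [SqI_norm, ← WithZeroMulInt.toNNReal_lt_one_iff (one_lt_absNorm_nnreal v)]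
  exact_mod_cast Iff.rfl

private theorem SqI_val (v : HeightOneSpectrum (𝓞 k)) (y : k) :
    Valued.v (algebraMap k (v.adicCompletion k) y) = v.valuation k y :=
  valuedAdicCompletion_eq_valuation' v y

private theorem SqI_ultra (v : HeightOneSpectrum (𝓞 k)) (x y : v.adicCompletion k) :
    ‖x + y‖ ≤ max ‖x‖ ‖y‖ := by
  rcases le_total (Valued.v x) (Valued.v y) with h | h
  · refine le_max_of_le_right (SqI_mono v ?_)
    exact (Valuation.map_add _ x y).trans (max_le h le_rfl)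
  · refine le_max_of_le_left (SqI_mono v ?_)
    exact (Valuation.map_add _ x y).trans (max_le le_rfl h)

private theorem SqI_ge {m : WithZero (Multiplicative ℤ)} {a b : ℤ} (h : ¬ m ≤ WithZero.exp a)
    (hab : b = a + 1) : WithZero.exp b ≤ m := by
  have h0 : m ≠ 0 := by
    rintro rfl
    exact h zero_le
  obtain ⟨n, rfl⟩ : ∃ n : ℤ, m = WithZero.exp n := ⟨WithZero.log m, (WithZero.exp_log h0).symm⟩
  rw [WithZero.exp_le_exp] at h ⊢
  omega

/-- the local square theorem.  Proof: in the completion `x = 1 + 4 z` with `‖z‖ < 1`; `w² + w = z`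
(`exists_w` in nf/U5a.lean), `(1 + 2 w)² = x`. -/
theorem local_sq {v : HeightOneSpectrum (𝓞 k)} {x : kˣ}
    (h : v.valuation k ((x : k) - 1) < v.valuation k (4 : k)) : x ∈ sqG (Sum.inr v : Pla k) := by
  have h4 : v.valuation k (4 : k) ≠ 0 := (Valuation.ne_zero_iff _).2 (by norm_num)
  have hz : ‖algebraMap k (v.adicCompletion k) (((x : k) - 1) / 4)‖ < 1 := by
    rw [SqI_lt, SqI_val, map_div₀]
    exact (div_lt_one₀ (zero_lt_iff.2 h4)).2 h
  obtain ⟨w, hw⟩ := NF83.exists_w (SqI_ultra v) hz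
  rw [mem_sqG]
  show IsSquare (algebraMap k (v.adicCompletion k) (x : k))
  have e : algebraMap k (v.adicCompletion k) (x : k) =
      1 + 4 * algebraMap k (v.adicCompletion k) (((x : k) - 1) / 4) := by
    have h1 : (x : k) = 1 + 4 * (((x : k) - 1) / 4) := by ring
    conv_lhs => rw [h1]
    rw [map_add, map_mul, map_one, map_ofNat]
  refine ⟨1 + 2 * w, ?_⟩
  rw [e, ← hw]
  ring

/-- Proof: let `p = v.asIdeal`, `(2) = p^e J`, `J` prime to `p`.  Let `x² = 1` in `𝓞 k ⧸ p^(2e+1)`, `x` the class of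
`y`.  `p^(2e+1)` divides `(y - 1)(y + 1)`.  Let `i = v_p(y - 1)` (possibly infinite), `j = v_p(y + 1)`,
`i + j ≥ 2e + 1`, and `(y + 1) - (y - 1) = 2`: `min(i, j) ≤ e`, so `max(i, j) ≥ e + 1`.  So
`y ∈ ±1 + p^(e+1)`; the number of the classes of `p^(e+1) / p^(2e+1)` is
`absNorm p^(2e+1) / absNorm p^(e+1) = q^e`. -/
theorem card_sq_one (v : HeightOneSpectrum (𝓞 k)) (e : ℕ)
    (he : v.valuation k (2 : k) = WithZero.exp (-(e : ℤ))) :
    {x : (𝓞 k ⧸ v.asIdeal ^ (2 * e + 1))ˣ | x ^ 2 = 1}.ncard ≤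
      2 * Ideal.absNorm v.asIdeal ^ e := by
  classical
  have hle : v.asIdeal ^ (2 * e + 1) ≤ v.asIdeal ^ (e + 1) := Ideal.pow_le_pow_right (by omega)
  have hfin : Finite (𝓞 k ⧸ v.asIdeal ^ (2 * e + 1)) :=
    (v.asIdeal ^ (2 * e + 1)).finiteQuotientOfFreeOfNeBot (pow_ne_zero _ v.ne_bot)
  have hq : 0 < Ideal.absNorm v.asIdeal := by
    rw [Nat.pos_iff_ne_zero]
    exact (absNorm_ne_zero v) ∘ fun h => by exact_mod_cast h
  obtain ⟨f, hf⟩ : ∃ f : (𝓞 k ⧸ v.asIdeal ^ (2 * e + 1)) →+* (𝓞 k ⧸ v.asIdeal ^ (e + 1)),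
    f = Ideal.Quotient.factor hle := ⟨_, rfl⟩
  have hfs : Function.Surjective f := by
    rw [hf]
    exact Ideal.Quotient.factor_surjective hle
  -- the number of the elements of the kernel
  have hI : (RingHom.ker f : Set (𝓞 k ⧸ v.asIdeal ^ (2 * e + 1))).ncard =
      Ideal.absNorm v.asIdeal ^ e := by
    have h1 := AddSubgroup.card_mul_index f.toAddMonoidHom.ker
    have h2 : f.toAddMonoidHom.ker.index = Ideal.absNorm v.asIdeal ^ (e + 1) := by
      rw [AddSubgroup.index_ker, AddMonoidHom.range_eq_top.2 hfs, ← map_pow,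
        Ideal.absNorm_apply, Submodule.cardQuot_apply]
      exact Nat.card_congr (AddSubgroup.topEquiv).toEquiv
    have h3 : Nat.card (𝓞 k ⧸ v.asIdeal ^ (2 * e + 1)) = Ideal.absNorm v.asIdeal ^ (2 * e + 1) := by
      rw [← map_pow, Ideal.absNorm_apply, Submodule.cardQuot_apply]
    rw [h2, h3] at h1
    have h4 : Nat.card f.toAddMonoidHom.ker =
        (RingHom.ker f : Set (𝓞 k ⧸ v.asIdeal ^ (2 * e + 1))).ncard := Nat.card_coe_set_eq _
    rw [h4] at h1
    refine Nat.eq_of_mul_eq_mul_right (pow_pos hq (e + 1)) (h1.trans ?_)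
    rw [← pow_add]
    congr 1
    omega
  have hsub : (Units.val '' {x : (𝓞 k ⧸ v.asIdeal ^ (2 * e + 1))ˣ | x ^ 2 = 1}) ⊆
      (fun z => 1 + z) '' (RingHom.ker f : Set (𝓞 k ⧸ v.asIdeal ^ (2 * e + 1))) ∪
        (fun z => -1 + z) '' (RingHom.ker f : Set (𝓞 k ⧸ v.asIdeal ^ (2 * e + 1))) := by
    rintro _ ⟨x, hx, rfl⟩
    obtain ⟨y, hy⟩ := Ideal.Quotient.mk_surjective (x : 𝓞 k ⧸ v.asIdeal ^ (2 * e + 1))
    have hx2 : (x : 𝓞 k ⧸ v.asIdeal ^ (2 * e + 1)) ^ 2 = 1 := by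
      have h1 : x ^ 2 = 1 := hx
      rw [← Units.val_pow_eq_pow_val, h1, Units.val_one]
    have h1 : (y - 1) * (y + 1) ∈ v.asIdeal ^ (2 * e + 1) := by
      rw [← Ideal.Quotient.eq_zero_iff_mem, map_mul, map_sub, map_add, hy, map_one]
      linear_combination hx2
    have h2 : y - 1 ∈ v.asIdeal ^ (e + 1) ∨ y + 1 ∈ v.asIdeal ^ (e + 1) := by
      by_contra hcon
      push Not at hcon
      obtain ⟨ha, hb⟩ := hcon
      rw [← intValuation_le_pow_iff_mem] at ha hb h1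
      rw [map_mul] at h1
      have h2 : WithZero.exp (-(e : ℤ)) * WithZero.exp (-(e : ℤ)) ≤
          WithZero.exp (-((2 * e + 1 : ℕ) : ℤ)) :=
        (mul_le_mul' (SqI_ge ha (by push_cast; ring)) (SqI_ge hb (by push_cast; ring))).trans h1
      rw [← WithZero.exp_add, WithZero.exp_le_exp] at h2
      push_cast at h2
      omega
    have h5 : ∀ z, z ∈ v.asIdeal ^ (e + 1) →
        Ideal.Quotient.mk (v.asIdeal ^ (2 * e + 1)) z ∈ RingHom.ker f := by
      intro z hz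
      rw [RingHom.mem_ker, hf, Ideal.Quotient.factor_mk, Ideal.Quotient.eq_zero_iff_mem]
      exact hz
    rcases h2 with h2 | h2
    · left
      refine ⟨_, h5 _ h2, ?_⟩
      rw [← hy]
      simp
    · right
      refine ⟨_, h5 _ h2, ?_⟩
      rw [← hy]
      simp
  have h1 : {x : (𝓞 k ⧸ v.asIdeal ^ (2 * e + 1))ˣ | x ^ 2 = 1}.ncard =
      (Units.val '' {x : (𝓞 k ⧸ v.asIdeal ^ (2 * e + 1))ˣ | x ^ 2 = 1}).ncard :=
    (Set.ncard_image_of_injective _ Units.val_injective).symm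
  rw [h1]
  refine (Set.ncard_le_ncard hsub (Set.toFinite _)).trans ((Set.ncard_union_le _ _).trans ?_)
  rw [Set.ncard_image_of_injective _ (add_right_injective _),
    Set.ncard_image_of_injective _ (add_right_injective _), hI, two_mul]

private theorem SqI_fin (G : Type*) [CommGroup G] [Finite G] :
    (powMonoidHom 2 : G →* G).range.index = {x : G | x ^ 2 = 1}.ncard := by
  have h1 := Subgroup.card_mul_index (powMonoidHom 2 : G →* G).ker
  rw [Subgroup.index_ker] at h1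
  have h2 := Subgroup.card_mul_index (powMonoidHom 2 : G →* G).range
  have h3 : Nat.card (powMonoidHom 2 : G →* G).ker = {x : G | x ^ 2 = 1}.ncard :=
    Nat.card_coe_set_eq _
  rw [h3, mul_comm] at h1
  exact Nat.eq_of_mul_eq_mul_left (Nat.card_pos (α := (powMonoidHom 2 : G →* G).range))
    (h2.trans h1.symm)

private theorem SqI_even (v : HeightOneSpectrum (𝓞 k)) (O : Subgroup kˣ)
    (hOm : ∀ x : kˣ, x ∈ O ↔ v.valuation k (x : k) = 1) :
    (sqG (Sum.inr v : Pla k) ⊔ O).index ∣ 2 := by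
  obtain ⟨π, hπ⟩ := v.valuation_exists_uniformizer k
  have hπ0 : π ≠ 0 := by
    rintro rfl
    rw [map_zero] at hπ
    exact WithZero.exp_ne_zero hπ.symm
  let f : kˣ →* Multiplicative (ZMod 2) :=
    (AddMonoidHom.toMultiplicative (Int.castAddHom (ZMod 2))).comp v.valuationOfNeZero
  have hf : f.ker ≤ sqG (Sum.inr v : Pla k) ⊔ O := by
    intro x hx
    have h1 : ((Multiplicative.toAdd (v.valuationOfNeZero x) : ℤ) : ZMod 2) = 0 := hx
    rw [ZMod.intCast_zmod_eq_zero_iff_dvd] at h1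
    obtain ⟨m, hm⟩ := h1
    have hx1 : v.valuation k (x : k) = WithZero.exp (2 * m) := by
      rw [← valuationOfNeZero_eq]
      have h2 : v.valuationOfNeZero x = Multiplicative.ofAdd (2 * m) := by
        rw [show (2 : ℤ) * m = ((2 : ℕ) : ℤ) * m from rfl, ← hm]
        rfl
      rw [h2]
      rfl
    refine Subgroup.mem_sup.2 ⟨(Units.mk0 π hπ0 ^ (-m)) ^ 2, ?_,
      ((Units.mk0 π hπ0 ^ (-m)) ^ 2)⁻¹ * x, ?_, by rw [mul_inv_cancel_left]⟩
    · rw [mem_sqG, Units.val_pow_eq_pow_val, map_pow]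
      exact ⟨_, sq _⟩
    · rw [hOm, Units.val_mul, Units.val_inv_eq_inv_val, Units.val_pow_eq_pow_val,
        Units.val_zpow_eq_zpow_val, Units.val_mk0, map_mul, map_inv₀, map_pow, map_zpow₀, hπ, hx1,
        ← WithZero.exp_zsmul, ← WithZero.exp_nsmul, ← WithZero.exp_neg, ← WithZero.exp_add,
        ← WithZero.exp_zero]
      congr 1
      simp
  refine (Subgroup.index_dvd_of_le hf).trans ?_
  rw [Subgroup.index_ker]
  have h2 := Subgroup.card_subgroup_dvd_card f.range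
  rwa [Nat.card_eq_fintype_card (α := Multiplicative (ZMod 2)), Fintype.card_multiplicative,
    ZMod.card] at h2

private theorem SqI_unit (v : HeightOneSpectrum (𝓞 k)) (e : ℕ)
    (he : v.valuation k (2 : k) = WithZero.exp (-(e : ℤ))) (O : Subgroup kˣ)
    (hOm : ∀ x : kˣ, x ∈ O ↔ v.valuation k (x : k) = 1) :
    (sqG (Sum.inr v : Pla k)).relIndex O ≠ 0 ∧
      (sqG (Sum.inr v : Pla k)).relIndex O ≤ 2 * Ideal.absNorm v.asIdeal ^ e := by
  classical
  have hfin : Finite (𝓞 k ⧸ v.asIdeal ^ (2 * e + 1)) :=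
    (v.asIdeal ^ (2 * e + 1)).finiteQuotientOfFreeOfNeBot (pow_ne_zero _ v.ne_bot)
  have hfu : Finite (𝓞 k ⧸ v.asIdeal ^ (2 * e + 1))ˣ := inferInstance
  -- representatives
  have hrep : ∀ u : (𝓞 k ⧸ v.asIdeal ^ (2 * e + 1))ˣ, ∃ (x : O) (r : 𝓞 k),
      ((x : kˣ) : k) = algebraMap (𝓞 k) k r ∧
        Ideal.Quotient.mk (v.asIdeal ^ (2 * e + 1)) r = (u : 𝓞 k ⧸ v.asIdeal ^ (2 * e + 1)) := by
    intro u
    obtain ⟨r, hr⟩ := Ideal.Quotient.mk_surjective (u : 𝓞 k ⧸ v.asIdeal ^ (2 * e + 1))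
    have h1 : IsUnit (Ideal.Quotient.mk (v.asIdeal ^ (2 * e + 1)) r) := by
      rw [hr]
      exact u.isUnit
    rw [Ideal.Quotient.isUnit_mk_pow_iff_notMem v.asIdeal (by omega)] at h1
    have h2 : v.valuation k (algebraMap (𝓞 k) k r) = 1 := (valuation_eq_one_iff_notMem v).2 h1
    have h3 : algebraMap (𝓞 k) k r ≠ 0 := by
      intro h
      rw [h, map_zero] at h2
      exact zero_ne_one h2
    exact ⟨⟨Units.mk0 _ h3, (hOm _).2 h2⟩, r, rfl, hr⟩
  choose g r hg hr using hrep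
  -- the quotient map
  obtain ⟨F, hF⟩ : ∃ F : ((𝓞 k ⧸ v.asIdeal ^ (2 * e + 1))ˣ ⧸
      (powMonoidHom 2 : (𝓞 k ⧸ v.asIdeal ^ (2 * e + 1))ˣ →* _).range) →
        (O ⧸ (sqG (Sum.inr v : Pla k)).subgroupOf O),
    F = fun c => QuotientGroup.mk (g c.out) := ⟨_, rfl⟩
  have hFs : Function.Surjective F := by
    intro c
    obtain ⟨x, rfl⟩ := QuotientGroup.mk_surjective c
    have hx : v.valuation k ((x : kˣ) : k) = 1 := (hOm _).1 x.2
    have hγ : (WithZero.exp (-(2 * e : ℤ)) : WithZero (Multiplicative ℤ)) ≤ 1 := by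
      rw [← WithZero.exp_zero, WithZero.exp_le_exp]
      omega
    obtain ⟨a, ha⟩ := exists_valuation_sub_lt_of_integer v hx.le
      (Units.mk0 (WithZero.exp (-(2 * e : ℤ))) WithZero.exp_ne_zero)
    rw [Units.val_mk0] at ha
    have ha1 : v.valuation k (algebraMap (𝓞 k) k a) = 1 := by
      have h1 : algebraMap (𝓞 k) k a = (algebraMap (𝓞 k) k a - (x : kˣ)) + (x : kˣ) := by ring
      have h2 : v.valuation k (algebraMap (𝓞 k) k a - (x : kˣ)) < v.valuation k ((x : kˣ) : k) := by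
        rw [hx]
        exact ha.trans_le hγ
      rw [h1, Valuation.map_add_eq_of_lt_right _ h2, hx]
    have ha2 : IsUnit (Ideal.Quotient.mk (v.asIdeal ^ (2 * e + 1)) a) :=
      (Ideal.Quotient.isUnit_mk_pow_iff_notMem v.asIdeal (by omega)).2
        ((valuation_eq_one_iff_notMem v).1 ha1)
    obtain ⟨u, hu⟩ := ha2
    refine ⟨QuotientGroup.mk u, ?_⟩
    obtain ⟨⟨_, t, rfl⟩, ht⟩ := QuotientGroup.mk_out_eq_mul
      (powMonoidHom 2 : (𝓞 k ⧸ v.asIdeal ^ (2 * e + 1))ˣ →* _).range u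
    rw [hF]
    show QuotientGroup.mk (g _) = _
    rw [ht, QuotientGroup.eq, Subgroup.mem_subgroupOf]
    obtain ⟨w, hw⟩ : ∃ w, w = u * ((powMonoidHom 2 : (𝓞 k ⧸ v.asIdeal ^ (2 * e + 1))ˣ →* _) t) :=
      ⟨_, rfl⟩
    show ((g (u * ((powMonoidHom 2 : (𝓞 k ⧸ v.asIdeal ^ (2 * e + 1))ˣ →* _) t)))⁻¹ * x : kˣ) ∈ _
    rw [← hw]
    have hwv : Ideal.Quotient.mk (v.asIdeal ^ (2 * e + 1)) (r w - a * r t ^ 2) = 0 := by
      rw [map_sub, map_mul, map_pow, hr, hr, hw, ← hu, Units.val_mul, powMonoidHom_apply,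
        Units.val_pow_eq_pow_val, sub_self]
    rw [Ideal.Quotient.eq_zero_iff_mem, ← intValuation_le_pow_iff_mem,
      ← valuation_of_algebraMap (K := k)] at hwv
    have hgt : v.valuation k ((g t : kˣ) : k) = 1 := (hOm _).1 (g t).2
    have key : v.valuation k (((g w : kˣ) : k) - ((x : kˣ) : k) * ((g t : kˣ) : k) ^ 2) <
        WithZero.exp (-(2 * e : ℤ)) := by
      have e1 : ((g w : kˣ) : k) - ((x : kˣ) : k) * ((g t : kˣ) : k) ^ 2 =
          algebraMap (𝓞 k) k (r w - a * r t ^ 2) +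
            (algebraMap (𝓞 k) k a - (x : kˣ)) * ((g t : kˣ) : k) ^ 2 := by
        rw [map_sub, map_mul, map_pow, ← hg, ← hg]
        ring
      rw [e1]
      refine (Valuation.map_add _ _ _).trans_lt (max_lt (hwv.trans_lt ?_) ?_)
      · rw [WithZero.exp_lt_exp]
        push_cast
        omega
      · rw [map_mul, map_pow, hgt, one_pow, mul_one]
        exact ha
    have h4 : v.valuation k (4 : k) = WithZero.exp (-(2 * e : ℤ)) := by
      rw [show (4 : k) = 2 * 2 by norm_num, map_mul, he, ← WithZero.exp_add]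
      congr 1
      ring
    have hx0 : ((x : kˣ) : k) ≠ 0 := (x : kˣ).ne_zero
    have hg0 : ((g t : kˣ) : k) ≠ 0 := (g t : kˣ).ne_zero
    have h5 : (g w : kˣ) * ((x : kˣ) * (g t : kˣ) ^ 2)⁻¹ ∈ sqG (Sum.inr v : Pla k) := by
      apply local_sq
      have e2 : (((g w : kˣ) * ((x : kˣ) * (g t : kˣ) ^ 2)⁻¹ : kˣ) : k) - 1 =
          (((g w : kˣ) : k) - ((x : kˣ) : k) * ((g t : kˣ) : k) ^ 2) *
            (((x : kˣ) : k) * ((g t : kˣ) : k) ^ 2)⁻¹ := by
        rw [Units.val_mul, Units.val_inv_eq_inv_val, Units.val_mul, Units.val_pow_eq_pow_val]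
        field_simp
      rw [e2, map_mul, map_inv₀, map_mul, map_pow, hgt, hx, one_pow, mul_one, inv_one, mul_one, h4]
      exact key
    have h6 : ((g t : kˣ) ^ 2)⁻¹ ∈ sqG (Sum.inr v : Pla k) := by
      apply Subgroup.inv_mem
      rw [mem_sqG, Units.val_pow_eq_pow_val, map_pow]
      exact ⟨_, sq _⟩
    have h7 := Subgroup.mul_mem _ (Subgroup.inv_mem _ h5) h6
    have e3 : ((g w : kˣ) * ((x : kˣ) * (g t : kˣ) ^ 2)⁻¹)⁻¹ * ((g t : kˣ) ^ 2)⁻¹ =
        (g w : kˣ)⁻¹ * x := by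
      rw [mul_inv, inv_inv, mul_assoc, mul_assoc, mul_inv_cancel, mul_one]
    rwa [e3] at h7
  have h1 : (powMonoidHom 2 : (𝓞 k ⧸ v.asIdeal ^ (2 * e + 1))ˣ →* _).range.index ≤
      2 * Ideal.absNorm v.asIdeal ^ e := by
    rw [SqI_fin]
    exact card_sq_one v e he
  have h2 : Finite (O ⧸ (sqG (Sum.inr v : Pla k)).subgroupOf O) := Finite.of_surjective F hFs
  refine ⟨?_, ?_⟩
  · exact Nat.card_pos.ne'
  · exact (Nat.card_le_card_of_surjective F hFs).trans h1

/-- Proof: let `R = 𝓞 k ⧸ p^(2e+1)`, a finite ring.  The elements `x : kˣ` with `v x = 1` form a subgroup `O`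
of `kˣ`; `O → Rˣ` (every such `x` is congruent to an element of `𝓞 k` modulo `p^(2e+1)`:
`exists_valuation_sub_lt_of_integer`; or write `x = r / s` with `r, s ∈ 𝓞 k` prime to `p`,
`exists_primeCompl_mul_eq_of_integer`).  If the image of `x` in `Rˣ` is a square, then `x = c² (1 + z)` with
`v z ≤ exp (-(2e+1)) < v 4`, so `x ∈ sqG` by `local_sq`.  So `O / (O ∩ sqG)` is a quotient of a subgroup of
`Rˣ / (Rˣ)²`, whose order is the number of the elements of `Rˣ` with `x² = 1` (finite commutative group: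
`card (range) * card (ker) = card`), at most `2 q^e` (`card_sq_one`).  And `kˣ / (O · sqG)` has at most two
elements: `O · sqG` contains the elements of even valuation (`y²` times a unit). -/
theorem sq_index (v : HeightOneSpectrum (𝓞 k)) (e : ℕ)
    (he : v.valuation k (2 : k) = WithZero.exp (-(e : ℤ))) :
    (sqG (Sum.inr v : Pla k)).index ≠ 0 ∧
      (sqG (Sum.inr v : Pla k)).index ≤ 4 * Ideal.absNorm v.asIdeal ^ e := by
  classical
  obtain ⟨O, hO⟩ : ∃ O : Subgroup kˣ, O = (v.valuationOfNeZero (K := k)).ker := ⟨_, rfl⟩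
  have hOm : ∀ x : kˣ, x ∈ O ↔ v.valuation k (x : k) = 1 := by
    intro x
    rw [hO, MonoidHom.mem_ker, ← WithZero.coe_inj, valuationOfNeZero_eq, WithZero.coe_one]
  -- the units at `v`
  have h1 := SqI_unit v e he O hOm
  -- the elements of even valuation
  have h2 : (sqG (Sum.inr v : Pla k) ⊔ O).index ∣ 2 := SqI_even v O hOm
  have h3 := Subgroup.relIndex_mul_index
    (le_sup_left : sqG (Sum.inr v : Pla k) ≤ sqG (Sum.inr v : Pla k) ⊔ O)
  rw [Subgroup.relIndex_sup_left] at h3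
  have h4 : (sqG (Sum.inr v : Pla k) ⊔ O).index ≠ 0 := fun h => by
    rw [h] at h2
    omega
  refine ⟨?_, ?_⟩
  · rw [← h3]
    exact mul_ne_zero h1.1 h4
  · rw [← h3]
    calc _ ≤ (2 * Ideal.absNorm v.asIdeal ^ e) * 2 :=
          Nat.mul_le_mul h1.2 (Nat.le_of_dvd two_pos h2)
      _ = 4 * Ideal.absNorm v.asIdeal ^ e := by ring

end HN83
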